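import Pool.Agent.Work.MP_3c650e_co.Defs

/-! Module Ang: normals of a convex hexagon. -/

set_option autoImplicit false

open Real Set

namespace Pool.Agent.Hex

/-- `w = r (cos ψ, sin ψ)` with `r > 0`. -/
private def IsAng (w : E) (ψ : ℝ) : Prop := ∃ r : ℝ, 0 < r ∧ w 0 = r * cos ψ ∧ w 1 = r * sin ψ

private theorem exists_ang (w : E) (hw : w 0 ≠ 0 ∨ w 1 ≠ 0) : ∃ ψ, IsAng w ψ := by
  set z : ℂ := ⟨w 0, w 1⟩ with hz
  have hz0 : z ≠ 0 := by
    intro h
    rw [Complex.ext_iff] at h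
    simp [hz] at h
    rcases hw with hw | hw
    · exact hw h.1
    · exact hw h.2
  refine ⟨z.arg, ‖z‖, norm_pos_iff.mpr hz0, ?_, ?_⟩
  · rw [Complex.norm_mul_cos_arg]
  · rw [Complex.norm_mul_sin_arg]

private theorem cross_ang {w w' : E} {ψ ψ' : ℝ} (h : IsAng w ψ) (h' : IsAng w' ψ')
    (hc : 0 < cross w w') : 0 < sin (ψ' - ψ) := by
  obtain ⟨r, hr, h0, h1⟩ := h
  obtain ⟨r', hr', h0', h1'⟩ := h'
  have : cross w w' = (r * r') * sin (ψ' - ψ) := by
    rw [cross, h0, h1, h0', h1', sin_sub]; ring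
  rw [this] at hc
  exact (pos_iff_pos_of_mul_pos hc).mp (mul_pos hr hr')

private theorem ang_above {w w' : E} {ψ : ℝ} (h : IsAng w ψ) (hc : 0 < cross w w') :
    ∃ ψ', IsAng w' ψ' ∧ ψ < ψ' ∧ ψ' < ψ + π := by
  have hw : w' 0 ≠ 0 ∨ w' 1 ≠ 0 := by
    by_contra hcon
    push Not at hcon
    rw [cross, hcon.1, hcon.2] at hc
    simp at hc
  obtain ⟨ψ₁, r, hr, h0, h1⟩ := exists_ang w' hw
  set ψ' := toIocMod two_pi_pos (ψ - π) ψ₁ with hψ'
  have hmem := toIocMod_mem_Ioc two_pi_pos (ψ - π) ψ₁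
  rw [← hψ'] at hmem
  have hA : IsAng w' ψ' := by
    have e := self_sub_toIocDiv_zsmul two_pi_pos (ψ - π) ψ₁
    rw [← hψ'] at e
    refine ⟨r, hr, ?_, ?_⟩
    · rw [h0, ← e, zsmul_eq_mul, cos_sub_int_mul_two_pi]
    · rw [h1, ← e, zsmul_eq_mul, sin_sub_int_mul_two_pi]
  have hs := cross_ang h hA hc
  refine ⟨ψ', hA, ?_, ?_⟩
  · by_contra hcon
    push Not at hcon
    have : sin (ψ' - ψ) ≤ 0 := sin_nonpos_of_nonpos_of_neg_pi_le (by linarith) (by linarith [hmem.1])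
    linarith
  · rcases eq_or_lt_of_le (show ψ' ≤ ψ + π by linarith [hmem.2]) with h5 | h5
    · rw [h5] at hs
      simp at hs
    · exact h5

private theorem ang_lt {w w' : E} {ψ ψ' : ℝ} (h : IsAng w ψ) (h' : IsAng w' ψ')
    (hc : 0 < cross w w') (h1 : ψ - π ≤ ψ') : ψ < ψ' := by
  have hs := cross_ang h h' hc
  by_contra hcon
  push Not at hcon
  have : sin (ψ' - ψ) ≤ 0 := sin_nonpos_of_nonpos_of_neg_pi_le (by linarith) (by linarith)
  linarith

private theorem ang_dist {a b : E} {φ : ℝ} (h : IsAng (b - a) φ) :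
    b - a = dist a b • e' (φ - π / 2) := by
  obtain ⟨r, hr, h0, h1⟩ := h
  have hd : dist a b = r := by
    rw [dist_comm, EuclideanSpace.dist_eq, Fin.sum_univ_two]
    have e0 : dist (b 0) (a 0) ^ 2 = (r * cos φ) ^ 2 := by
      rw [Real.dist_eq, sq_abs, ← h0]; rfl
    have e1 : dist (b 1) (a 1) ^ 2 = (r * sin φ) ^ 2 := by
      rw [Real.dist_eq, sq_abs, ← h1]; rfl
    rw [e0, e1]
    have : (r * cos φ) ^ 2 + (r * sin φ) ^ 2 = r ^ 2 := by
      have := sin_sq_add_cos_sq φ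
      linear_combination r ^ 2 * this
    rw [this, sqrt_sq hr.le]
  rw [hd]
  ext i
  fin_cases i
  · have : (b - a) 0 = r * cos φ := h0
    simp [e', this, sin_sub]
  · have : (b - a) 1 = r * sin φ := h1
    simp [e', this, cos_sub]

private theorem ang_neg {w : E} {ψ : ℝ} (h : IsAng w ψ) : IsAng (-w) (ψ + π) := by
  obtain ⟨r, hr, h0, h1⟩ := h
  refine ⟨r, hr, ?_, ?_⟩
  · rw [cos_add_pi, PiLp.neg_apply, h0]; ring
  · rw [sin_add_pi, PiLp.neg_apply, h1]; ring

theorem exists_normals (v : Fin 6 → E) (h : CCW v) :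
    ∃ μ : Fin 6 → ℝ, Normals v μ (fun i => dist (v i) (v (i + 1))) := by
  -- cross product facts
  have c12 : 0 < cross (v 1 - v 0) (v 2 - v 0) := h 0 2 (by decide) (by decide)
  have c13 : 0 < cross (v 1 - v 0) (v 3 - v 0) := h 0 3 (by decide) (by decide)
  have c14 : 0 < cross (v 1 - v 0) (v 4 - v 0) := h 0 4 (by decide) (by decide)
  have c15 : 0 < cross (v 1 - v 0) (v 5 - v 0) := h 0 5 (by decide) (by decide)
  have key1 : ∀ j : Fin 6, (0 : Fin 6) ≠ j → (0 : Fin 6) ≠ j + 1 →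
      0 < cross (v j - v 0) (v (j + 1) - v 0) ∧ 0 < cross (v j - v 0) (v (j + 1) - v j) ∧
      0 < cross (v (j + 1) - v 0) (v (j + 1) - v j) := by
    intro j h1 h2
    have := h j 0 h1 h2
    have e1 : cross (v j - v 0) (v (j + 1) - v 0) = cross (v (j + 1) - v j) (v 0 - v j) := by
      simp only [cross, PiLp.sub_apply]; ring
    have e2 : cross (v j - v 0) (v (j + 1) - v j) = cross (v (j + 1) - v j) (v 0 - v j) := by
      simp only [cross, PiLp.sub_apply]; ring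
    have e3 : cross (v (j + 1) - v 0) (v (j + 1) - v j) =
        cross (v (j + 1) - v j) (v 0 - v j) := by
      simp only [cross, PiLp.sub_apply]; ring
    rw [e1, e2, e3]
    exact ⟨this, this, this⟩
  have key2 : ∀ j : Fin 6, j + 2 ≠ j → j + 2 ≠ j + 1 →
      0 < cross (v (j + 1) - v j) (v (j + 2) - v (j + 1)) := by
    intro j h1 h2
    have := h j (j + 2) h1 h2
    have e1 : cross (v (j + 1) - v j) (v (j + 2) - v (j + 1)) =
        cross (v (j + 1) - v j) (v (j + 2) - v j) := by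
      simp only [cross, PiLp.sub_apply]; ring
    rw [e1]; exact this
  obtain ⟨-, a12, a2⟩ := key1 1 (by decide) (by decide)
  obtain ⟨b23, a23, a3⟩ := key1 2 (by decide) (by decide)
  obtain ⟨b34, a34, a4⟩ := key1 3 (by decide) (by decide)
  obtain ⟨b45, a45, a5⟩ := key1 4 (by decide) (by decide)
  have d12 := key2 1 (by decide) (by decide)
  have d23 := key2 2 (by decide) (by decide)
  have d34 := key2 3 (by decide) (by decide)
  -- angles
  obtain ⟨ψ1, W1⟩ : ∃ ψ, IsAng (v 1 - v 0) ψ := by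
    apply exists_ang
    by_contra hcon
    push Not at hcon
    rw [cross, hcon.1, hcon.2] at c12
    simp at c12
  obtain ⟨ψ2, W2, l2, u2⟩ := ang_above W1 c12
  obtain ⟨ψ3, W3, l3, u3⟩ := ang_above W1 c13
  obtain ⟨ψ4, W4, l4, u4⟩ := ang_above W1 c14
  obtain ⟨ψ5, W5, l5, u5⟩ := ang_above W1 c15
  have o23 : ψ2 < ψ3 := ang_lt W2 W3 b23 (by linarith)
  have o34 : ψ3 < ψ4 := ang_lt W3 W4 b34 (by linarith)
  have o45 : ψ4 < ψ5 := ang_lt W4 W5 b45 (by linarith)
  obtain ⟨φ1, D1, m1, n1⟩ := ang_above W1 a12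
  obtain ⟨φ2, D2, m2, n2⟩ := ang_above W2 a23
  obtain ⟨φ3, D3, m3, n3⟩ := ang_above W3 a34
  obtain ⟨φ4, D4, m4, n4⟩ := ang_above W4 a45
  have p1 : ψ2 < φ1 := ang_lt W2 D1 a2 (by linarith)
  have p2 : ψ3 < φ2 := ang_lt W3 D2 a3 (by linarith)
  have p3 : ψ4 < φ3 := ang_lt W4 D3 a4 (by linarith)
  have p4 : ψ5 < φ4 := ang_lt W5 D4 a5 (by linarith)
  have q12 : φ1 < φ2 := ang_lt D1 D2 d12 (by linarith)
  have q23 : φ2 < φ3 := ang_lt D2 D3 d23 (by linarith)
  have q34 : φ3 < φ4 := ang_lt D3 D4 d34 (by linarith)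
  have D5 : IsAng (v 0 - v 5) (ψ5 + π) := by
    have := ang_neg W5
    rwa [neg_sub] at this
  refine ⟨fun i => (![ψ1, φ1, φ2, φ3, φ4, ψ5 + π] : Fin 6 → ℝ) i - π / 2, ?_, ?_, ?_, ?_⟩
  · intro i
    rw [dist_pos]
    intro heq
    have := h i (i + 2) (by fin_cases i <;> decide) (by fin_cases i <;> decide)
    rw [heq] at this
    simp [cross] at this
  · rw [Fin.strictMono_iff_lt_succ]
    intro i
    fin_cases i
    · simp; linarith
    · simp; linarith
    · simp; linarith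
    · simp; linarith
    · simp; linarith
  · simp
    linarith
  · intro i
    fin_cases i
    · exact ang_dist W1
    · exact ang_dist D1
    · exact ang_dist D2
    · exact ang_dist D3
    · exact ang_dist D4
    · exact ang_dist D5

end Pool.Agent.Hex
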