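import Pool.Agent.Work.MP_3c650e_co.Defs

/-! Module CompDisj: two components which meet are equal. -/

set_option autoImplicit false

open Real Set

namespace Pool.Agent.Hex

namespace CompDisj

theorem e_zero (u : ℝ) : e u 0 = cos u := by simp [e]

theorem e_one (u : ℝ) : e u 1 = sin u := by simp [e]

theorem e_period (u : ℝ) (k : ℤ) : e (u + k * (2 * π)) = e u := by
  unfold e
  rw [cos_add_int_mul_two_pi, sin_add_int_mul_two_pi]

theorem dist_sq (P Q : E) : dist P Q ^ 2 = (P 0 - Q 0) ^ 2 + (P 1 - Q 1) ^ 2 := by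
  rw [EuclideanSpace.dist_eq, Real.sq_sqrt (by positivity)]
  simp only [Fin.sum_univ_two, Real.dist_eq, sq_abs]

theorem dist_le_one_iff (P Q : E) : dist P Q ≤ 1 ↔ (P 0 - Q 0) ^ 2 + (P 1 - Q 1) ^ 2 ≤ 1 := by
  rw [← dist_sq, sq_le_one_iff₀ dist_nonneg]

/-- the key inequality -/
theorem key {y w : E} {a c u : ℝ} (hau : a < u) (huc : u < c) (hπ : c - a < π)
    (h1 : dist w (y + e a) ≤ 1) (h2 : dist w (y + e c) ≤ 1) :
    dt y u ≤ dt w u ∧ (dt w u = dt y u → w = y) := by
  rw [dist_le_one_iff] at h1 h2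
  simp only [PiLp.add_apply, e_zero, e_one] at h1 h2
  have hs1 : 0 < sin (c - u) := sin_pos_of_pos_of_lt_pi (by linarith) (by linarith)
  have hs2 : 0 < sin (u - a) := sin_pos_of_pos_of_lt_pi (by linarith) (by linarith)
  have hs3 : 0 < sin (c - a) := sin_pos_of_pos_of_lt_pi (by linarith) (by linarith)
  have hca := sin_sq_add_cos_sq a
  have hcc := sin_sq_add_cos_sq c
  have hcu := sin_sq_add_cos_sq u
  set p := w 0 - y 0 with hp
  set q := w 1 - y 1 with hq
  have h1' : p ^ 2 + q ^ 2 ≤ 2 * (p * cos a + q * sin a) := by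
    have e1 : w 0 - (y 0 + cos a) = p - cos a := by rw [hp]; ring
    have e2 : w 1 - (y 1 + sin a) = q - sin a := by rw [hq]; ring
    rw [e1, e2] at h1
    nlinarith
  have h2' : p ^ 2 + q ^ 2 ≤ 2 * (p * cos c + q * sin c) := by
    have e1 : w 0 - (y 0 + cos c) = p - cos c := by rw [hp]; ring
    have e2 : w 1 - (y 1 + sin c) = q - sin c := by rw [hq]; ring
    rw [e1, e2] at h2
    nlinarith
  have e3 : dt w u - dt y u = p * cos u + q * sin u := by
    unfold dt
    rw [hp, hq]
    ring
  have e4 : sin (c - a) * cos u = sin (c - u) * cos a + sin (u - a) * cos c := by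
    rw [sin_sub, sin_sub, sin_sub]
    ring
  have e5 : sin (c - a) * sin u = sin (c - u) * sin a + sin (u - a) * sin c := by
    rw [sin_sub, sin_sub, sin_sub]
    ring
  have e6 : sin (c - a) * (p * cos u + q * sin u) =
      sin (c - u) * (p * cos a + q * sin a) + sin (u - a) * (p * cos c + q * sin c) := by
    have : sin (c - a) * (p * cos u + q * sin u) =
        p * (sin (c - a) * cos u) + q * (sin (c - a) * sin u) := by ring
    rw [this, e4, e5]
    ring
  have h5 : (sin (c - u) + sin (u - a)) * (p ^ 2 + q ^ 2) ≤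
      2 * (sin (c - a) * (p * cos u + q * sin u)) := by
    rw [e6]
    nlinarith [mul_le_mul_of_nonneg_left h1' hs1.le, mul_le_mul_of_nonneg_left h2' hs2.le]
  have h6 : 0 ≤ p ^ 2 + q ^ 2 := by positivity
  constructor
  · have h7 : 0 ≤ sin (c - a) * (p * cos u + q * sin u) := by
      have : 0 ≤ (sin (c - u) + sin (u - a)) * (p ^ 2 + q ^ 2) := by positivity
      linarith
    have h8 := nonneg_of_mul_nonneg_right h7 hs3
    linarith
  · intro heq
    have h8 : p * cos u + q * sin u = 0 := by linarith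
    rw [h8, mul_zero, mul_zero] at h5
    have h9 : p ^ 2 + q ^ 2 ≤ 0 := by
      by_contra hcon
      push Not at hcon
      have : 0 < (sin (c - u) + sin (u - a)) * (p ^ 2 + q ^ 2) := by positivity
      linarith
    have hp0 : p = 0 := by
      have : p ^ 2 = 0 := le_antisymm (by linarith [sq_nonneg q]) (sq_nonneg p)
      exact pow_eq_zero_iff (two_ne_zero) |>.mp this
    have hq0 : q = 0 := by
      have : q ^ 2 = 0 := le_antisymm (by linarith [sq_nonneg p]) (sq_nonneg q)
      exact pow_eq_zero_iff (two_ne_zero) |>.mp this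
    ext i
    fin_cases i
    · change w 0 = y 0
      linarith
    · change w 1 = y 1
      linarith

end CompDisj

open CompDisj

theorem IsComp.shift {v : Fin 6 → E} {y : E} {a c : ℝ} (h : IsComp v y a c) (k : ℤ) :
    IsComp v y (a + k * (2 * π)) (c + k * (2 * π)) := by
  refine ⟨h.ball, by linarith [h.lt], ?_, ?_, ?_⟩
  · rw [e_period]; exact h.left
  · rw [e_period]; exact h.right
  · intro t h1 h2 j
    have h3 := h.mid (t - k * (2 * π)) (by linarith) (by linarith) j
    have h4 : e (t - k * (2 * π)) = e t := by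
      rw [← e_period (t - k * (2 * π)) k]
      congr 1
      ring
    rwa [h4] at h3

theorem IsComp.unique {v : Fin 6 → E} {y y' : E} {a c a' c' : ℝ} (h : IsComp v y a c)
    (h' : IsComp v y' a' c') (hπ : c - a < π) (hπ' : c' - a' < π) {u : ℝ} (h1 : a < u)
    (h2 : u < c) (h3 : a' < u) (h4 : u < c') : y = y' ∧ a = a' ∧ c = c' := by
  obtain ⟨ja, hja⟩ := h.left
  obtain ⟨jc, hjc⟩ := h.right
  obtain ⟨ja', hja'⟩ := h'.left
  obtain ⟨jc', hjc'⟩ := h'.right
  have k1 := key (y := y) (w := y') h1 h2 hπ (hja ▸ h'.ball ja) (hjc ▸ h'.ball jc)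
  have k2 := key (y := y') (w := y) h3 h4 hπ' (hja' ▸ h.ball ja') (hjc' ▸ h.ball jc')
  have hyy : y = y' := k2.2 (le_antisymm k1.1 k2.1)
  subst hyy
  refine ⟨rfl, ?_, ?_⟩
  · rcases lt_trichotomy a a' with hlt | heq | hlt
    · exact absurd hja' (h.mid a' hlt (by linarith) ja')
    · exact heq
    · exact absurd hja (h'.mid a hlt (by linarith) ja)
  · rcases lt_trichotomy c c' with hlt | heq | hlt
    · exact absurd hjc (h'.mid c (by linarith) hlt jc)
    · exact heq
    · exact absurd hjc' (h.mid c' (by linarith) hlt jc')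

end Pool.Agent.Hex
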