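import Pool.Agent.Work.MP_3c650e_co.Defs

/-! Module CompEx: existence of the component of a lossy direction. -/

set_option autoImplicit false

open Real Set

namespace Pool.Agent.Hex

/-- Support function versus points of the hull. -/
theorem dt_le_hs (v : Fin 6 → E) {y : E} (hy : y ∈ convexHull ℝ (range v)) (u : ℝ) :
    dt y u ≤ hs v u := by
  have hlin : IsLinearMap ℝ fun P : E => dt P u :=
    { map_add := fun P Q => by simp only [dt, PiLp.add_apply]; ring
      map_smul := fun c P => by simp only [dt, PiLp.smul_apply, smul_eq_mul]; ring }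
  have hconv := convex_halfSpace_le hlin (hs v u)
  have hsub : range v ⊆ {P : E | dt P u ≤ hs v u} := by
    rintro _ ⟨j, rfl⟩
    exact Finset.le_sup' (fun j => dt (v j) u) (Finset.mem_univ j)
  exact convexHull_min hsub hconv hy

namespace CompEx

theorem dist_sq (P Q : E) : dist P Q ^ 2 = (P 0 - Q 0) ^ 2 + (P 1 - Q 1) ^ 2 := by
  rw [EuclideanSpace.dist_eq, Real.sq_sqrt (by positivity)]
  simp only [Fin.sum_univ_two, Real.dist_eq, sq_abs]

theorem dist_le_one_iff (P Q : E) : dist P Q ≤ 1 ↔ (P 0 - Q 0) ^ 2 + (P 1 - Q 1) ^ 2 ≤ 1 := by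
  rw [← dist_sq, sq_le_one_iff₀ dist_nonneg]

end CompEx

open CompEx

/-- Points at distance `≤ 1` from all vertices. -/
theorem hs_le_of_ball (v : Fin 6 → E) {y : E} (hy : ∀ j, dist y (v j) ≤ 1) (u : ℝ) :
    hs v u ≤ dt y u + 1 := by
  refine Finset.sup'_le _ _ ?_
  intro j _
  have h1 := (dist_le_one_iff _ _).mp (hy j)
  unfold dt
  have h2 := sin_sq_add_cos_sq u
  nlinarith [sq_nonneg ((y 0 - v j 0) * sin u - (y 1 - v j 1) * cos u),
    sq_nonneg ((y 0 - v j 0) * cos u + (y 1 - v j 1) * sin u + 1)]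

namespace CompEx

theorem e_zero (u : ℝ) : e u 0 = cos u := by simp [e]

theorem e_one (u : ℝ) : e u 1 = sin u := by simp [e]

theorem e_period (u : ℝ) (k : ℤ) : e (u + k * (2 * π)) = e u := by
  unfold e
  rw [cos_add_int_mul_two_pi, sin_add_int_mul_two_pi]

/-- unit vectors have an angle in a given window -/
theorem exists_angle (z : ℝ) (w : E) (hw : w 0 ^ 2 + w 1 ^ 2 = 1) :
    ∃ t ∈ Ioc (z - π) (z + π), w = e t := by
  have h1 : ∃ θ : ℝ, cos θ = w 0 ∧ sin θ = w 1 := by
    set ζ : ℂ := ⟨w 0, w 1⟩ with hζ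
    have hn : ‖ζ‖ = 1 := by
      rw [Complex.norm_def, Complex.normSq_apply, Real.sqrt_eq_one]
      simp only [hζ]
      nlinarith
    have hne : ζ ≠ 0 := by
      intro h
      rw [h, norm_zero] at hn
      exact zero_ne_one hn
    refine ⟨Complex.arg ζ, ?_, ?_⟩
    · rw [Complex.cos_arg hne, hn, div_one]
    · rw [Complex.sin_arg, hn, div_one]
  obtain ⟨θ, hc, hs⟩ := h1
  have h2π : (0 : ℝ) < 2 * π := by positivity
  refine ⟨toIocMod h2π (z - π) θ, ?_, ?_⟩
  · have := toIocMod_mem_Ioc h2π (z - π) θ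
    have e1 : z - π + 2 * π = z + π := by ring
    rwa [e1] at this
  · have h3 : toIocMod h2π (z - π) θ = θ + ((-toIocDiv h2π (z - π) θ : ℤ) : ℝ) * (2 * π) := by
      rw [toIocMod]
      push_cast
      rw [zsmul_eq_mul]
      ring
    rw [h3, e_period]
    ext i
    fin_cases i
    · simp [e, hc]
    · simp [e, hs]

theorem angle_unique (z t t' : ℝ) (ht : t ∈ Ioc (z - π) (z + π)) (ht' : t' ∈ Ioc (z - π) (z + π))
    (h : e t = e t') : t = t' := by
  have h1 : cos t = cos t' := by rw [← e_zero, ← e_zero, h]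
  have h2 : sin t = sin t' := by rw [← e_one, ← e_one, h]
  have h3 : ((t : ℝ) : Real.Angle) = (t' : Real.Angle) := Real.Angle.cos_sin_inj h1 h2
  obtain ⟨k, hk⟩ := Real.Angle.angle_eq_iff_two_pi_dvd_sub.mp h3
  have hπ := pi_pos
  have hk0 : k = 0 := by
    have h4 : (k : ℝ) < 1 := by
      by_contra hcon
      push Not at hcon
      nlinarith [ht.1, ht.2, ht'.1, ht'.2]
    have h5 : (-1 : ℝ) < k := by
      by_contra hcon
      push Not at hcon
      nlinarith [ht.1, ht.2, ht'.1, ht'.2]
    have h6 : k < 1 := by exact_mod_cast h4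
    have h7 : -1 < k := by exact_mod_cast h5
    omega
  rw [hk0] at hk
  simp at hk
  linarith

/-- the angles of the vertices at distance one -/
def T (v : Fin 6 → E) (y : E) (z : ℝ) : Set ℝ := {t | t ∈ Ioc (z - π) (z + π) ∧ ∃ j, v j = y + e t}

theorem finite_T (v : Fin 6 → E) (y : E) (z : ℝ) : (T v y z).Finite := by
  have h1 : T v y z ⊆ ⋃ j, {t | t ∈ Ioc (z - π) (z + π) ∧ v j = y + e t} := by
    rintro t ⟨ht, j, hj⟩
    exact mem_iUnion.mpr ⟨j, ht, hj⟩
  refine (finite_iUnion fun j => ?_).subset h1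
  apply Set.Subsingleton.finite
  rintro t ⟨ht, hj⟩ t' ⟨ht', hj'⟩
  exact angle_unique z t t' ht ht' (add_left_cancel (hj.symm.trans hj'))

end CompEx

theorem exists_comp (v : Fin 6 → E)
    (hK : ∀ P : E, (∀ j, dist P (v j) ≤ 1) → P ∈ convexHull ℝ (range v))
    (hne : ∃ P : E, ∀ j, dist P (v j) ≤ 1) (z : ℝ) (hz : hs v z + hs v (z + π) < 1) :
    ∃ (y : E) (a c : ℝ), IsComp v y a c ∧ c - a ≤ π ∧ a < z ∧ z < c := by
  have hπ := pi_pos
  -- the minimiser
  have hcomp : IsCompact {P : E | ∀ j, dist P (v j) ≤ 1} := by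
    have h1 : {P : E | ∀ j, dist P (v j) ≤ 1} = ⋂ j, Metric.closedBall (v j) 1 := by
      ext P
      simp
    rw [h1]
    exact (isCompact_closedBall (v 0) 1).of_isClosed_subset
      (isClosed_iInter fun j => Metric.isClosed_closedBall) (iInter_subset _ 0)
  have hcont : Continuous fun P : E => dt P z := by
    unfold dt
    fun_prop
  obtain ⟨y, hy, hmin⟩ := hcomp.exists_isMinOn hne hcont.continuousOn
  have hyhull := hK y hy
  have hzT : z ∉ T v y z := by
    rintro ⟨_, j, hj⟩
    have h1 : dt (v j) z ≤ hs v z := Finset.le_sup' (fun j => dt (v j) z) (Finset.mem_univ j)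
    have h2 := dt_le_hs v hyhull (z + π)
    have h3 : dt (v j) z = dt y z + 1 := by
      rw [hj]
      unfold dt
      simp only [PiLp.add_apply, e_zero, e_one]
      nlinarith [sin_sq_add_cos_sq z]
    have h4 : dt y (z + π) = -dt y z := by
      unfold dt
      rw [cos_add_pi, sin_add_pi]
      ring
    linarith
  obtain ⟨a, ha, hamax⟩ := Set.exists_max_image ((T v y z ∩ Iio z) ∪ {z - π}) id
    (((finite_T v y z).inter_of_left _).union (finite_singleton _)) ⟨z - π, Or.inr rfl⟩
  obtain ⟨c, hc, hcmin⟩ := Set.exists_min_image ((T v y z ∩ Ioi z) ∪ {z + π}) id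
    (((finite_T v y z).inter_of_left _).union (finite_singleton _)) ⟨z + π, Or.inr rfl⟩
  simp only [id] at hamax hcmin
  have haz : a < z := by
    rcases ha with ha | ha
    · exact ha.2
    · rw [mem_singleton_iff.mp ha]; linarith
  have hcz : z < c := by
    rcases hc with hc | hc
    · exact hc.2
    · rw [mem_singleton_iff.mp hc]; linarith
  have haπ : z - π ≤ a := hamax _ (Or.inr rfl)
  have hcπ : c ≤ z + π := hcmin _ (Or.inr rfl)
  have hT : ∀ t ∈ T v y z, t ≤ a ∨ c ≤ t := by
    intro t ht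
    rcases lt_trichotomy t z with h | h | h
    · exact Or.inl (hamax t (Or.inl ⟨ht, h⟩))
    · exact absurd (h ▸ ht) hzT
    · exact Or.inr (hcmin t (Or.inl ⟨ht, h⟩))
  have hca : c - a ≤ π := by
    by_contra hcon
    push Not at hcon
    have hcos : ∀ t ∈ T v y z, 0 < cos ((a + c) / 2 + π - t) := by
      intro t ht
      rcases hT t ht with h | h
      · have h1 : cos ((a + c) / 2 + π - t) = cos ((a + c) / 2 - π - t) := by
          rw [← cos_add_two_pi ((a + c) / 2 - π - t)]
          congr 1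
          ring
        rw [h1]
        have h2 := ht.1.1
        apply cos_pos_of_mem_Ioo
        constructor <;> linarith
      · have h2 := ht.1.2
        apply cos_pos_of_mem_Ioo
        constructor <;> linarith
    have hev : ∀ j, ∀ᶠ ε in nhdsWithin (0 : ℝ) (Ioi 0),
        dist (y + ε • e ((a + c) / 2 + π)) (v j) ≤ 1 := by
      intro j
      rcases lt_or_eq_of_le (hy j) with hlt | heq
      · have h1 : Filter.Tendsto (fun ε : ℝ => dist (y + ε • e ((a + c) / 2 + π)) (v j))
            (nhdsWithin (0 : ℝ) (Ioi 0)) (nhds (dist (y + (0 : ℝ) • e ((a + c) / 2 + π)) (v j))) := by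
          have hcc : Continuous fun ε : ℝ => dist (y + ε • e ((a + c) / 2 + π)) (v j) := by
            fun_prop
          exact hcc.continuousWithinAt
        rw [zero_smul, add_zero] at h1
        exact (h1.eventually (gt_mem_nhds hlt)).mono fun ε h => h.le
      · -- active constraint
        have hw : (v j - y) 0 ^ 2 + (v j - y) 1 ^ 2 = 1 := by
          have h1 := dist_sq y (v j)
          rw [heq] at h1
          simp only [PiLp.sub_apply]
          nlinarith
        obtain ⟨t, ht, hvt⟩ := exists_angle z (v j - y) hw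
        have hvj : v j = y + e t := by rw [← hvt]; abel
        have hpos := hcos t ⟨ht, j, hvj⟩
        have h2 : Ioo (0 : ℝ) (2 * cos ((a + c) / 2 + π - t)) ∈ nhdsWithin (0 : ℝ) (Ioi 0) :=
          Ioo_mem_nhdsGT (by linarith)
        filter_upwards [h2] with ε hε
        rw [dist_le_one_iff, hvj]
        simp only [PiLp.add_apply, PiLp.smul_apply, smul_eq_mul, e_zero, e_one]
        have h3 : cos ((a + c) / 2 + π - t) = cos ((a + c) / 2 + π) * cos t +
            sin ((a + c) / 2 + π) * sin t := cos_sub _ _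
        rw [h3] at hε
        have h5 := mul_pos hε.1 (sub_pos.mpr hε.2)
        have h6 : (y 0 + ε * cos ((a + c) / 2 + π) - (y 0 + cos t)) ^ 2 +
            (y 1 + ε * sin ((a + c) / 2 + π) - (y 1 + sin t)) ^ 2 =
            ε ^ 2 * (sin ((a + c) / 2 + π) ^ 2 + cos ((a + c) / 2 + π) ^ 2) +
            (sin t ^ 2 + cos t ^ 2) - 2 * ε * (cos ((a + c) / 2 + π) * cos t +
            sin ((a + c) / 2 + π) * sin t) := by ring
        rw [h6, sin_sq_add_cos_sq, sin_sq_add_cos_sq]
        nlinarith
    obtain ⟨ε, hε, hε0⟩ := ((Filter.eventually_all.mpr hev).and self_mem_nhdsWithin).exists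
    have h1 : dt y z ≤ dt (y + ε • e ((a + c) / 2 + π)) z := hmin hε
    have h2 : dt (y + ε • e ((a + c) / 2 + π)) z = dt y z + ε * cos ((a + c) / 2 + π - z) := by
      unfold dt
      simp only [PiLp.add_apply, PiLp.smul_apply, smul_eq_mul, e_zero, e_one]
      rw [cos_sub]
      ring
    have h3 : cos ((a + c) / 2 + π - z) = -cos ((a + c) / 2 - z) := by
      rw [← cos_add_pi]
      congr 1
      ring
    have h4 : 0 < cos ((a + c) / 2 - z) := by
      apply cos_pos_of_mem_Ioo
      constructor <;> linarith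
    rw [h2, h3] at h1
    have hε0' : 0 < ε := hε0
    nlinarith
  have haT : a ∈ T v y z := by
    rcases ha with ha | ha
    · exact ha.1
    · exfalso
      have := mem_singleton_iff.mp ha
      linarith
  have hcT : c ∈ T v y z := by
    rcases hc with hc | hc
    · exact hc.1
    · exfalso
      have := mem_singleton_iff.mp hc
      linarith
  refine ⟨y, a, c, ⟨hy, by linarith, haT.2, hcT.2, ?_⟩, hca, haz, hcz⟩
  intro t hat htc j hj
  rcases hT t ⟨⟨by linarith, by linarith⟩, j, hj⟩ with h | h <;> linarith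

end Pool.Agent.Hex
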