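import Pool.Agent.Work.MP_3c650e_co.Defs

/-! Module Num: constants and one-variable inequalities. -/

set_option autoImplicit false

open Real Set

namespace Pool.Agent.Hex

private theorem sq3_lo : (1.7320508 : ℝ) < √3 := by
  apply Real.lt_sqrt_of_sq_lt
  norm_num

private theorem sq3_hi : √3 < (1.7320509 : ℝ) := by
  rw [Real.sqrt_lt' (by norm_num)]
  norm_num

private theorem sg_lo : (1.0717964 : ℝ) < sg := by
  have := sq3_hi
  unfold sg
  linarith

private theorem sg_hi : sg < (1.0717968 : ℝ) := by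
  have := sq3_lo
  unfold sg
  linarith

private theorem kp_lo : (0.0235986 : ℝ) < kp := by
  have := Real.pi_gt_d6
  unfold kp
  linarith

private theorem kp_hi : kp < (0.0236 : ℝ) := by
  have := Real.pi_lt_d6
  unfold kp
  linarith

theorem sg_gt_one : 1 < sg := by linarith [sg_lo]

theorem three_sg_lt : 3 * sg < 4 := by linarith [sg_hi]

theorem kp_pos : 0 < kp := by linarith [kp_lo]

theorem y1_pos : 0 < y1 := by
  have h1 := sg_gt_one
  have h2 := kp_pos
  unfold y1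
  apply div_pos
  · exact mul_pos (by linarith) h2
  · linarith

private theorem sgkp_lo : (0.025292 : ℝ) < sg * kp := by
  nlinarith [sg_lo, kp_lo]

private theorem sgkp_hi : sg * kp < (0.0253 : ℝ) := by
  nlinarith [sg_hi, kp_hi, sg_lo, kp_lo]

/-- numerically `y1 = 0.1761…`. -/
theorem y1_ge : 4 / 25 ≤ y1 := by
  have h1 := sg_gt_one
  unfold y1
  rw [le_div_iff₀ (by linarith)]
  have := sgkp_lo
  have := sg_hi
  linarith

private theorem tan_sub_tan {x y : ℝ} (hx : cos x ≠ 0) (hy : cos y ≠ 0) :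
    tan x - tan y = sin (x - y) / (cos x * cos y) := by
  rw [tan_eq_sin_div_cos, tan_eq_sin_div_cos, sin_sub]
  field_simp

private theorem cos_mul_le_sin {d : ℝ} (h0 : 0 ≤ d) (h1 : d < π / 2) : d * cos d ≤ sin d := by
  have h2 := Real.le_tan h0 h1
  have h3 : 0 < cos d := cos_pos_of_mem_Ioo ⟨by linarith [Real.pi_pos], h1⟩
  rw [tan_eq_sin_div_cos, le_div_iff₀ h3] at h2
  exact h2

/-- `tan x - x` is monotone on `[0, π/2)`. -/
private theorem tan_add_le {u X : ℝ} (h0 : 0 ≤ u) (h1 : u ≤ X) (h2 : X < π / 2) :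
    tan u + (X - u) ≤ tan X := by
  have hcu : 0 < cos u := cos_pos_of_mem_Ioo ⟨by linarith [Real.pi_pos], by linarith⟩
  have hcX : 0 < cos X := cos_pos_of_mem_Ioo ⟨by linarith [Real.pi_pos], h2⟩
  have h3 := tan_sub_tan hcX.ne' hcu.ne'
  have h4 : (X - u) * cos (X - u) ≤ sin (X - u) := cos_mul_le_sin (by linarith) (by linarith)
  have h5 : cos X * cos u ≤ cos (X - u) := by
    rw [cos_sub]
    have h6 : 0 ≤ sin X := sin_nonneg_of_nonneg_of_le_pi (by linarith) (by linarith)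
    have h7 : 0 ≤ sin u := sin_nonneg_of_nonneg_of_le_pi h0 (by linarith)
    nlinarith [mul_nonneg h6 h7]
  have h6 : X - u ≤ sin (X - u) / (cos X * cos u) := by
    rw [le_div_iff₀ (mul_pos hcX hcu)]
    exact le_trans (mul_le_mul_of_nonneg_left h5 (by linarith)) h4
  linarith

private theorem cos_pi12 : cos (π / 12) ^ 2 = 1 / sg ∧ 0 < cos (π / 12) ∧
    sin (π / 12) = (2 - √3) * cos (π / 12) := by
  have hs : √3 ^ 2 = 3 := Real.sq_sqrt (by norm_num)
  have hpos : 0 < cos (π / 12) :=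
    cos_pos_of_mem_Ioo ⟨by linarith [Real.pi_pos], by linarith [Real.pi_pos]⟩
  have h1 : cos (π / 6) = 2 * cos (π / 12) ^ 2 - 1 := by
    rw [← cos_two_mul]
    congr 1
    ring
  have h2 : sin (π / 6) = 2 * sin (π / 12) * cos (π / 12) := by
    rw [← sin_two_mul]
    congr 1
    ring
  rw [cos_pi_div_six] at h1
  rw [sin_pi_div_six] at h2
  have h3 : cos (π / 12) ^ 2 = (2 + √3) / 4 := by linarith
  have hsg : 0 < sg := by linarith [sg_gt_one]
  refine ⟨?_, hpos, ?_⟩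
  · rw [h3, eq_div_iff hsg.ne']
    unfold sg
    nlinarith
  · have h4 : sin (π / 12) * cos (π / 12) = (2 - √3) * cos (π / 12) * cos (π / 12) := by
      nlinarith
    exact mul_right_cancel₀ hpos.ne' h4

/-- tangent line of `tan` at `π/12` -/
private theorem tan_tangent {x : ℝ} (h0 : 0 ≤ x) (h1 : x < π / 2) :
    sg / 4 + sg * (x - π / 12) ≤ tan x := by
  obtain ⟨hc1, hc, hs⟩ := cos_pi12
  have hsg : 0 < sg := by linarith [sg_gt_one]
  have htan : tan (π / 12) = sg / 4 := by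
    rw [tan_eq_sin_div_cos, hs]
    unfold sg
    field_simp
  have hsgc : sg * cos (π / 12) ^ 2 = 1 := by
    rw [hc1]
    field_simp
  have hcx : 0 < cos x := cos_pos_of_mem_Ioo ⟨by linarith [Real.pi_pos], h1⟩
  have h3 := tan_sub_tan hcx.ne' hc.ne'
  rw [htan] at h3
  have hpp := mul_pos hcx hc
  rcases le_total (π / 12) x with h | h
  · have h4 : (x - π / 12) * cos (x - π / 12) ≤ sin (x - π / 12) :=
      cos_mul_le_sin (by linarith) (by linarith [Real.pi_pos])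
    have h5 : cos x * cos (π / 12) ≤ cos (x - π / 12) * cos (π / 12) ^ 2 := by
      have h6 : cos x = cos (x - π / 12) * cos (π / 12) - sin (x - π / 12) * sin (π / 12) := by
        rw [← cos_add]
        congr 1
        ring
      have h7 : 0 ≤ sin (x - π / 12) := sin_nonneg_of_nonneg_of_le_pi (by linarith)
        (by linarith [Real.pi_pos])
      have h8 : 0 ≤ sin (π / 12) := sin_nonneg_of_nonneg_of_le_pi (by linarith [Real.pi_pos])
        (by linarith [Real.pi_pos])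
      have h9 : cos x ≤ cos (x - π / 12) * cos (π / 12) := by
        rw [h6]
        linarith [mul_nonneg h7 h8]
      nlinarith [mul_le_mul_of_nonneg_right h9 hc.le]
    have h6 : sg * (x - π / 12) ≤ sin (x - π / 12) / (cos x * cos (π / 12)) := by
      rw [le_div_iff₀ hpp]
      calc sg * (x - π / 12) * (cos x * cos (π / 12))
          ≤ sg * (x - π / 12) * (cos (x - π / 12) * cos (π / 12) ^ 2) :=
            mul_le_mul_of_nonneg_left h5 (mul_nonneg hsg.le (by linarith))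
        _ = ((x - π / 12) * cos (x - π / 12)) * (sg * cos (π / 12) ^ 2) := by ring
        _ ≤ sin (x - π / 12) := by rw [hsgc, mul_one]; exact h4
    linarith
  · have h4 : sin (π / 12 - x) ≤ π / 12 - x := sin_le (by linarith)
    have h5 : cos (π / 12) ≤ cos x := by
      apply cos_le_cos_of_nonneg_of_le_pi h0 (by linarith [Real.pi_pos]) h
    have h7 : sin (x - π / 12) = - sin (π / 12 - x) := by
      rw [← sin_neg]
      congr 1
      ring
    have h6 : sg * (x - π / 12) ≤ sin (x - π / 12) / (cos x * cos (π / 12)) := by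
      rw [le_div_iff₀ hpp, h7]
      have h8 : (π / 12 - x) * 1 ≤ (π / 12 - x) * (sg * (cos x * cos (π / 12))) := by
        apply mul_le_mul_of_nonneg_left _ (by linarith)
        rw [← hsgc]
        apply mul_le_mul_of_nonneg_left _ hsg.le
        nlinarith
      nlinarith
    linarith

/-- Tangent line of `tan` at `π/12`; note `12 * (sg * kp) = 2 π sg - 6 sg`. -/
theorem tan_line {b : ℝ} (h0 : 0 ≤ b) (h1 : b < π) : sg * b - sg * kp ≤ 2 * tan (b / 2) := by
  have h2 := tan_tangent (x := b / 2) (by linarith) (by linarith)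
  unfold kp
  nlinarith

theorem tan_self {b : ℝ} (h0 : 0 ≤ b) (h1 : b < π) : 1 * b - 0 ≤ 2 * tan (b / 2) := by
  have h2 := Real.le_tan (x := b / 2) (by linarith) (by linarith)
  linarith

/-- Interpolate between `φ = 0` (`tan_line`) and `φ = 2 (sg - 1)` (`tan (b/2) ≥ b/2`). -/
theorem tan_bonus {b φ : ℝ} (h0 : 0 ≤ b) (h1 : b < π) (hφ : 0 ≤ φ) :
    sg * b - sg * kp + min (y1 * φ) (sg * kp) ≤ (2 + φ) * tan (b / 2) := by
  have h2 := tan_line h0 h1
  have h3 := tan_self h0 h1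
  have hs := sg_gt_one
  set τ := tan (b / 2) with hτ
  rcases le_total (2 * (sg - 1)) φ with h | h
  · have h4 : min (y1 * φ) (sg * kp) ≤ sg * kp := min_le_right _ _
    have h5 : 0 ≤ τ := by linarith
    nlinarith [mul_nonneg (by linarith : (0 : ℝ) ≤ φ - 2 * (sg - 1)) h5,
      mul_nonneg (by linarith : (0 : ℝ) ≤ sg) (by linarith : (0 : ℝ) ≤ 2 * τ - b)]
  · have h4 : min (y1 * φ) (sg * kp) ≤ y1 * φ := min_le_left _ _
    have hφ1 : 0 < 2 * (sg - 1) := by linarith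
    have h5 : y1 * (2 * (sg - 1)) = sg * kp := by
      unfold y1
      exact div_mul_cancel₀ _ hφ1.ne'
    have h6 : 0 ≤ (2 * (sg - 1) - φ) * (2 * τ - sg * b + sg * kp) :=
      mul_nonneg (by linarith) (by linarith)
    have h7 : 0 ≤ φ * (sg * (2 * τ - b)) :=
      mul_nonneg hφ (mul_nonneg (by linarith) (by linarith))
    have h8 : 0 ≤ (2 * (sg - 1)) * ((2 + φ) * τ - (sg * b - sg * kp + y1 * φ)) := by
      have h9 : (2 * (sg - 1)) * ((2 + φ) * τ - (sg * b - sg * kp + y1 * φ)) =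
          (2 * (sg - 1) - φ) * (2 * τ - sg * b + sg * kp) + φ * (sg * (2 * τ - b)) +
            φ * (sg * kp - y1 * (2 * (sg - 1))) := by
        ring
      rw [h9, h5, sub_self, mul_zero, add_zero]
      exact add_nonneg h6 h7
    have h9 := nonneg_of_mul_nonneg_right h8 hφ1
    linarith

private theorem poly1 {D : ℝ} (h0 : 0 ≤ D) (h1 : D ≤ 4 / 5) :
    0 ≤ 7 / 12 * 0.025292 - 0.0717968 * D + D ^ 3 / 3 - D ^ 4 / 5 + 11 / 96 * D ^ 5 := by
  have h2 : 0 ≤ (D - 3 / 10) ^ 2 *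
      (1267 / 8000 + 469 / 1920 * D - 21 / 160 * D ^ 2 + 11 / 96 * D ^ 3) := by
    apply mul_nonneg (sq_nonneg _)
    nlinarith [pow_nonneg h0 3, mul_nonneg h0 (by linarith : (0 : ℝ) ≤ 4 / 5 - D)]
  nlinarith

private theorem poly2 {D : ℝ} (h0 : 0 ≤ D) (h1 : D ≤ 4 / 5) :
    0 ≤ 1 / 2 * 0.025292 - 0.0717968 * D + 13 / 30 * D ^ 3 - 6 / 25 * D ^ 4 +
      11 / 80 * D ^ 5 := by
  have h2 : 0 ≤ (D - 51 / 200) ^ 2 * (11 / 80 * D ^ 3 + (11 / 80 * (51 / 100) - 6 / 25) * D ^ 2 +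
      (13 / 30 + (51 / 100) * (11 / 80 * (51 / 100) - 6 / 25) - (51 / 200) ^ 2 * (11 / 80)) * D +
      ((51 / 100) * (13 / 30 + (51 / 100) * (11 / 80 * (51 / 100) - 6 / 25) -
        (51 / 200) ^ 2 * (11 / 80)) - (51 / 200) ^ 2 * (11 / 80 * (51 / 100) - 6 / 25))) := by
    apply mul_nonneg (sq_nonneg _)
    nlinarith [pow_nonneg h0 3, mul_nonneg h0 (by linarith : (0 : ℝ) ≤ 4 / 5 - D)]
  nlinarith

/-- bounds for `sin`, `1 - cos` and the tangent -/
private theorem pre {X D : ℝ} (h0 : 0 ≤ D) (hDX : D ≤ X) (hX : X < π / 2) (ht : tan X ≤ 4 / 5) :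
    D ≤ 4 / 5 ∧ D - D ^ 3 / 6 ≤ sin D ∧ D ^ 2 / 2 - 5 / 96 * D ^ 4 ≤ 1 - cos D ∧
      1 - cos D ≤ D ^ 2 / 2 ∧ tan (X - D) ≤ 4 / 5 - D ∧ 0 ≤ tan (X - D) := by
  have h1 := tan_add_le (u := X - D) (X := X) (by linarith) (by linarith) hX
  have h2 : 0 ≤ tan (X - D) := tan_nonneg_of_nonneg_of_le_pi_div_two (by linarith) (by linarith)
  have h3 := Real.le_tan (x := X) (by linarith) hX
  have hD : D ≤ 4 / 5 := by linarith
  have h4 := Real.cos_bound (x := D) (by rw [abs_of_nonneg h0]; linarith)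
  rw [abs_of_nonneg h0] at h4
  have h5 := (abs_le.1 h4).2
  refine ⟨hD, sin_ge_sub_cube h0, by linarith, ?_, by linarith, h2⟩
  have := one_sub_sq_div_two_le_cos (x := D)
  linarith

/-- Use `tan (X - D) ≤ 4/5 - D` (derivative of `tan` is `≥ 1`), then a polynomial inequality on
`[0, 4/5]`; the slack is `> 0.0009` (worst `D ≈ 0.294`). -/
theorem num1 {X D : ℝ} (h0 : 0 ≤ D) (hDX : D ≤ X) (hX : X < π / 2) (ht : tan X ≤ 4 / 5) :
    -(sg * kp / 12) ≤
      sin D * (2 - cos D) - sg * D + sg * kp / 2 - (1 - cos D) ^ 2 * tan (X - D) := by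
  obtain ⟨hD, hs, hc1, hc2, hT, hT0⟩ := pre h0 hDX hX ht
  have hc0 : 0 ≤ 1 - cos D := by linarith [cos_le_one D]
  have hs0 : 0 ≤ D - D ^ 3 / 6 := by
    have : 0 ≤ D * (1 - D ^ 2 / 6) := mul_nonneg h0 (by nlinarith)
    nlinarith
  have hsD : 0 ≤ sin D := le_trans hs0 hs
  have hcl : 0 ≤ D ^ 2 / 2 - 5 / 96 * D ^ 4 := by
    have : 0 ≤ D ^ 2 * (1 / 2 - 5 / 96 * D ^ 2) := mul_nonneg (sq_nonneg _) (by nlinarith)
    nlinarith
  have e1 : (D - D ^ 3 / 6) * (1 + (D ^ 2 / 2 - 5 / 96 * D ^ 4)) ≤ sin D * (2 - cos D) := by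
    apply mul_le_mul hs (by linarith) (by linarith) hsD
  have e2 : (1 - cos D) ^ 2 * tan (X - D) ≤ (D ^ 2 / 2) ^ 2 * (4 / 5 - D) := by
    apply mul_le_mul _ hT hT0 (sq_nonneg _)
    exact pow_le_pow_left₀ hc0 hc2 2
  have e3 : sg * D ≤ 1.0717968 * D := mul_le_mul_of_nonneg_right sg_hi.le h0
  have e4 := sgkp_lo
  have e5 := poly1 h0 hD
  have e6 : 0 ≤ 5 / 576 * D ^ 7 := by positivity
  nlinarith

/-- The same way; the slack is `> 0.0006` (worst `D ≈ 0.254`). -/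
theorem num2 {X D : ℝ} (h0 : 0 ≤ D) (hDX : D ≤ X) (hX : X < π / 2) (ht : tan X ≤ 4 / 5) :
    0 ≤ sin D * (2 - cos D) - sg * D + sg * kp / 2 - (1 - cos D) ^ 2 * tan (X - D) +
      1 / 5 * ((1 - cos D) * (sin D - (1 - cos D) * tan (X - D))) := by
  obtain ⟨hD, hs, hc1, hc2, hT, hT0⟩ := pre h0 hDX hX ht
  have hc0 : 0 ≤ 1 - cos D := by linarith [cos_le_one D]
  have hs0 : 0 ≤ D - D ^ 3 / 6 := by
    have : 0 ≤ D * (1 - D ^ 2 / 6) := mul_nonneg h0 (by nlinarith)
    nlinarith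
  have hsD : 0 ≤ sin D := le_trans hs0 hs
  have hcl : 0 ≤ D ^ 2 / 2 - 5 / 96 * D ^ 4 := by
    have : 0 ≤ D ^ 2 * (1 / 2 - 5 / 96 * D ^ 2) := mul_nonneg (sq_nonneg _) (by nlinarith)
    nlinarith
  have e1 : (D - D ^ 3 / 6) * (1 + 6 / 5 * (D ^ 2 / 2 - 5 / 96 * D ^ 4)) ≤
      sin D * (1 + 6 / 5 * (1 - cos D)) := by
    apply mul_le_mul hs (by linarith) (by linarith) hsD
  have e2 : (1 - cos D) ^ 2 * tan (X - D) ≤ (D ^ 2 / 2) ^ 2 * (4 / 5 - D) := by
    apply mul_le_mul _ hT hT0 (sq_nonneg _)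
    exact pow_le_pow_left₀ hc0 hc2 2
  have e3 : sg * D ≤ 1.0717968 * D := mul_le_mul_of_nonneg_right sg_hi.le h0
  have e4 := sgkp_lo
  have e5 := poly2 h0 hD
  have e6 : 0 ≤ 1 / 96 * D ^ 7 := by positivity
  have e7 : sin D * (2 - cos D) - sg * D + sg * kp / 2 - (1 - cos D) ^ 2 * tan (X - D) +
      1 / 5 * ((1 - cos D) * (sin D - (1 - cos D) * tan (X - D))) =
      sin D * (1 + 6 / 5 * (1 - cos D)) - sg * D + sg * kp / 2 -
        6 / 5 * ((1 - cos D) ^ 2 * tan (X - D)) := by ring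
  rw [e7]
  nlinarith

/-- `sin X < (3 sg - 2)/2 < 0.6077 ⇒ cos X > 0.7941 ⇒ tan X < 0.7653`. -/
theorem tan_of_sin {X : ℝ} (h0 : 0 ≤ X) (h1 : X ≤ π / 2) (h : 2 + 2 * sin X < 3 * sg) :
    X < π / 2 ∧ tan X ≤ 4 / 5 := by
  have h2 := sg_hi
  have hs : sin X < 0.6077 := by linarith
  have hlt : X < π / 2 := by
    rcases lt_or_eq_of_le h1 with h3 | h3
    · exact h3
    · exfalso
      rw [h3, sin_pi_div_two] at hs
      norm_num at hs
  refine ⟨hlt, ?_⟩
  have hc : 0 < cos X := cos_pos_of_mem_Ioo ⟨by linarith [Real.pi_pos], hlt⟩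
  have hs0 : 0 ≤ sin X := sin_nonneg_of_nonneg_of_le_pi h0 (by linarith [Real.pi_pos])
  rw [tan_eq_sin_div_cos, div_le_iff₀ hc]
  have h3 := sin_sq_add_cos_sq X
  by_contra h4
  push Not at h4
  have h5 : (4 / 5 * cos X) ^ 2 < sin X ^ 2 := by
    apply pow_lt_pow_left₀ h4 (by positivity) (by norm_num)
  nlinarith

end Pool.Agent.Hex
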