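import Pool.Agent.Work.MP_3c650e_co.PwLemS
import Pool.Agent.Work.MP_3c650e_co.Num

/-! Module PwComp: the inequalities inside one component. -/

set_option autoImplicit false

open Real Set

namespace Pool.Agent.Hex

namespace Pw

variable {ι : Type} [Fintype ι]

/-- The hypothesis: on `[a, c]` the function lies between the two cosines and `1`. -/
structure IsCap (V : Pw ι) (a c : ℝ) : Prop where
  lt : a < c
  lt_pi : c - a < π
  lower1 : ∀ u ∈ Icc a c, cos (u - a) ≤ V.F u
  lower2 : ∀ u ∈ Icc a c, cos (c - u) ≤ V.F u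
  upper : ∀ u ∈ Icc a c, V.F u ≤ 1

/-- an elementary fact: a slope bounded by `(1 - cos t) / sin t` for small `t` is not positive -/
theorem cap_slope {ρ t : ℝ} (h0 : 0 < t) (h1 : t ≤ 1) (h2 : t < ρ)
    (h : ρ * sin t ≤ 1 - cos t) : False := by
  have h3 : 1 - cos t ≤ t ^ 2 / 2 := by
    have := one_sub_sq_div_two_le_cos (x := t)
    linarith
  have h4 : t - t ^ 3 / 6 < sin t := sin_gt_sub_cube h0
  have h5 : 3 / 4 * t ≤ t - t ^ 3 / 6 := by nlinarith [mul_pos h0 h0]
  have h6 : ρ * (3 / 4 * t) < ρ * sin t :=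
    mul_lt_mul_of_pos_left (lt_of_le_of_lt h5 h4) (by linarith)
  nlinarith

theorem cap_no_atom_right (V : Pw ι) (a : ℝ) : ∀ᶠ x in nhdsWithin a (Ioi a), V.at' a x = ∅ := by
  have h : ∀ᶠ x in nhdsWithin a (Ioi a), ∀ i, ¬ (a < V.z i ∧ V.z i < x) := by
    rw [Filter.eventually_all]
    intro i
    rcases le_or_gt (V.z i) a with h | h
    · exact Filter.Eventually.of_forall fun x hx => absurd hx.1 (not_lt.2 h)
    · filter_upwards [Ioo_mem_nhdsGT h] with x hx hx2
      exact absurd hx2.2 (not_lt.2 hx.2.le)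
  filter_upwards [h] with x hx
  rw [Finset.eq_empty_iff_forall_notMem]
  intro i hi
  rw [mem_at] at hi
  exact hx i hi

theorem cap_no_atom_left (V : Pw ι) (c : ℝ) : ∀ᶠ x in nhdsWithin c (Iio c), V.at' x c = ∅ := by
  have h : ∀ᶠ x in nhdsWithin c (Iio c), ∀ i, ¬ (x < V.z i ∧ V.z i < c) := by
    rw [Filter.eventually_all]
    intro i
    rcases le_or_gt c (V.z i) with h | h
    · exact Filter.Eventually.of_forall fun x hx => absurd hx.2 (not_lt.2 h)
    · filter_upwards [Ioo_mem_nhdsLT h] with x hx hx2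
      exact absurd hx2.1 (not_lt.2 hx.1.le)
  filter_upwards [h] with x hx
  rw [Finset.eq_empty_iff_forall_notMem]
  intro i hi
  rw [mem_at] at hi
  exact hx i hi

theorem cap_ends {V : Pw ι} {a c : ℝ} (h : V.IsCap a c) :
    V.F a = 1 ∧ V.F c = 1 ∧ V.R a = 0 ∧ V.L c = 0 := by
  have hac := h.lt
  have ha : a ∈ Icc a c := ⟨le_rfl, hac.le⟩
  have hc : c ∈ Icc a c := ⟨hac.le, le_rfl⟩
  have hFa : V.F a = 1 := by
    have h1 := h.lower1 a ha
    rw [sub_self, cos_zero] at h1
    exact le_antisymm (h.upper a ha) h1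
  have hFc : V.F c = 1 := by
    have h1 := h.lower2 c hc
    rw [sub_self, cos_zero] at h1
    exact le_antisymm (h.upper c hc) h1
  refine ⟨hFa, hFc, ?_, ?_⟩
  · -- right derivative at `a`
    have key : ∀ᶠ x in nhdsWithin a (Ioi a), 0 < x - a ∧ x - a ≤ 1 ∧
        cos (x - a) ≤ cos (x - a) + V.R a * sin (x - a) ∧
        cos (x - a) + V.R a * sin (x - a) ≤ 1 := by
      filter_upwards [cap_no_atom_right V a, Ioo_mem_nhdsGT hac,
        Ioo_mem_nhdsGT (show a < a + 1 by linarith)] with x hx1 hx2 hx3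
      have h1 := gap_R V hx2.1 hx1
      rw [hFa, one_mul] at h1
      have h2 : V.F x = cos (x - a) + V.R a * sin (x - a) := by linarith
      have hx : x ∈ Icc a c := ⟨hx2.1.le, hx2.2.le⟩
      rw [← h2]
      exact ⟨by linarith [hx2.1], by linarith [hx3.2], h.lower1 x hx, h.upper x hx⟩
    apply le_antisymm
    · by_contra hR
      push Not at hR
      have h1 : ∀ᶠ x in nhdsWithin a (Ioi a), x - a < V.R a := by
        filter_upwards [Ioo_mem_nhdsGT (show a < a + V.R a by linarith)] with x hx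
        linarith [hx.2]
      obtain ⟨x, hx1, hx2⟩ := (key.and h1).exists
      exact cap_slope hx1.1 hx1.2.1 hx2 (by linarith [hx1.2.2.2])
    · obtain ⟨x, hx⟩ := key.exists
      have hs : 0 < sin (x - a) := sin_pos_of_pos_of_lt_pi hx.1 (by
        have := pi_gt_three
        linarith [hx.2.1])
      by_contra hR
      push Not at hR
      have := mul_neg_of_neg_of_pos hR hs
      linarith [hx.2.2.1]
  · -- left derivative at `c`
    have key : ∀ᶠ x in nhdsWithin c (Iio c), 0 < c - x ∧ c - x ≤ 1 ∧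
        cos (c - x) ≤ cos (c - x) - V.L c * sin (c - x) ∧
        cos (c - x) - V.L c * sin (c - x) ≤ 1 := by
      filter_upwards [cap_no_atom_left V c, Ioo_mem_nhdsLT hac,
        Ioo_mem_nhdsLT (show c - 1 < c by linarith)] with x hx1 hx2 hx3
      have h1 := gap_L V hx2.2 hx1
      rw [hFc, one_mul] at h1
      have h2 : V.F x = cos (c - x) - V.L c * sin (c - x) := by linarith
      have hx : x ∈ Icc a c := ⟨hx2.1.le, hx2.2.le⟩
      rw [← h2]
      exact ⟨by linarith [hx2.2], by linarith [hx3.1], h.lower2 x hx, h.upper x hx⟩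
    apply le_antisymm
    · obtain ⟨x, hx⟩ := key.exists
      have hs : 0 < sin (c - x) := sin_pos_of_pos_of_lt_pi hx.1 (by
        have := pi_gt_three
        linarith [hx.2.1])
      by_contra hR
      push Not at hR
      have := mul_pos hR hs
      linarith [hx.2.2.1]
    · by_contra hR
      push Not at hR
      have h1 : ∀ᶠ x in nhdsWithin c (Iio c), c - x < -V.L c := by
        filter_upwards [Ioo_mem_nhdsLT (show c + V.L c < c by linarith)] with x hx
        linarith [hx.1]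
      obtain ⟨x, hx1, hx2⟩ := (key.and h1).exists
      exact cap_slope hx1.1 hx1.2.1 hx2 (by linarith [hx1.2.2.2])

/-- splitting the atoms at the first and the last one -/
theorem cap_split (V : Pw ι) {a c x y : ℝ} (hax : a < x) (hxy : x < y) (hyc : y < c)
    (h1 : ∀ i ∈ V.at' a c, x ≤ V.z i ∧ V.z i ≤ y) (f : ι → ℝ) :
    ∑ i ∈ V.at' a c, f i = ∑ i ∈ Finset.univ.filter (fun i => V.z i = x), f i +
      (∑ i ∈ V.at' x y, f i + ∑ i ∈ Finset.univ.filter (fun i => V.z i = y), f i) := by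
  classical
  have he : V.at' a c = Finset.univ.filter (fun i => V.z i = x) ∪
      (V.at' x y ∪ Finset.univ.filter (fun i => V.z i = y)) := by
    ext i
    rw [Finset.mem_union, Finset.mem_union, Finset.mem_filter, Finset.mem_filter, mem_at, mem_at]
    constructor
    · intro hi
      obtain ⟨h2, h3⟩ := h1 i ((mem_at V).2 hi)
      rcases h2.lt_or_eq with h4 | h4
      · rcases h3.lt_or_eq with h5 | h5
        · exact Or.inr (Or.inl ⟨h4, h5⟩)
        · exact Or.inr (Or.inr ⟨Finset.mem_univ _, h5⟩)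
      · exact Or.inl ⟨Finset.mem_univ _, h4.symm⟩
    · rintro (hi | hi | hi)
      · rw [hi.2]; exact ⟨hax, hxy.trans hyc⟩
      · exact ⟨hax.trans hi.1, hi.2.trans hyc⟩
      · rw [hi.2]; exact ⟨hax.trans hxy, hyc⟩
  rw [he, Finset.sum_union, Finset.sum_union]
  · rw [Finset.disjoint_left]
    intro i hi hi2
    rw [mem_at] at hi
    rw [Finset.mem_filter] at hi2
    linarith [hi.2, hi2.2]
  · rw [Finset.disjoint_left]
    intro i hi hi2
    rw [Finset.mem_filter] at hi
    rw [Finset.mem_union, Finset.mem_filter, mem_at] at hi2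
    rcases hi2 with h2 | h2
    · linarith [h2.1, hi.2]
    · linarith [h2.2, hi.2]

theorem cap_cot {N x : ℝ} : cos (x - (N - π / 2)) / sin (x - (N - π / 2)) = -tan (x - N) := by
  have h1 : x - (N - π / 2) = (x - N) + π / 2 := by ring
  rw [h1, cos_add_pi_div_two, sin_add_pi_div_two, tan_eq_sin_div_cos, neg_div]

theorem cap_ineq {V : Pw ι} {a c : ℝ} (h : V.IsCap a c) (ht : tan ((c - a) / 2) ≤ 4 / 5) :
    (-(sg * kp / 6) ≤ V.A c - V.A a + ∑ i ∈ V.at' a c, V.m i * (1 - V.F (V.z i)) -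
        sg * (c - a) + sg * kp * ((V.at' a c).card : ℝ)) ∧
    (0 ≤ V.A c - V.A a + 6 / 5 * ∑ i ∈ V.at' a c, V.m i * (1 - V.F (V.z i)) -
        sg * (c - a) + sg * kp * ((V.at' a c).card : ℝ)) := by
  classical
  obtain ⟨hFa, hFc, hRa, hLc⟩ := cap_ends h
  have hac := h.lt
  have hπ := h.lt_pi
  have hsk : 0 < sg * kp := mul_pos (by linarith [sg_gt_one]) kp_pos
  obtain ⟨X, hX⟩ : ∃ X : ℝ, X = (c - a) / 2 := ⟨_, rfl⟩
  obtain ⟨N, hN⟩ : ∃ N : ℝ, N = (a + c) / 2 := ⟨_, rfl⟩
  rw [← hX] at ht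
  have hX0 : 0 < X := by rw [hX]; linarith
  have hXπ : X < π / 2 := by rw [hX]; linarith
  -- there is an atom
  have hne : (V.at' a c).Nonempty := by
    rw [Finset.nonempty_iff_ne_empty]
    intro hem
    have h1 := gap_R V hac hem
    rw [hRa, zero_mul, hFc, hFa, one_mul] at h1
    have h2 : cos (c - a) < cos 0 :=
      cos_lt_cos_of_nonneg_of_le_pi le_rfl hπ.le (by linarith)
    rw [cos_zero] at h2
    linarith
  obtain ⟨i₁, hi₁, hmin⟩ := Finset.exists_min_image (V.at' a c) V.z hne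
  obtain ⟨i₂, hi₂, hmax⟩ := Finset.exists_max_image (V.at' a c) V.z hne
  obtain ⟨x, hx⟩ : ∃ x : ℝ, x = V.z i₁ := ⟨_, rfl⟩
  obtain ⟨y, hy⟩ : ∃ y : ℝ, y = V.z i₂ := ⟨_, rfl⟩
  rw [← hx] at hmin
  rw [← hy] at hmax
  have hx12 := (mem_at V).1 hi₁
  have hy12 := (mem_at V).1 hi₂
  rw [← hx] at hx12
  rw [← hy] at hy12
  have hxy : x ≤ y := by
    have := hmin i₂ hi₂
    rwa [← hy] at this
  have hemx : V.at' a x = ∅ := by
    rw [Finset.eq_empty_iff_forall_notMem]
    intro i hi
    rw [mem_at] at hi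
    have := hmin i ((mem_at V).2 ⟨hi.1, hi.2.trans hx12.2⟩)
    linarith [hi.2]
  have hemy : V.at' y c = ∅ := by
    rw [Finset.eq_empty_iff_forall_notMem]
    intro i hi
    rw [mem_at] at hi
    have := hmax i ((mem_at V).2 ⟨hy12.1.trans hi.1, hi.2⟩)
    linarith [hi.1]
  obtain ⟨D, hD⟩ : ∃ D : ℝ, D = x - a := ⟨_, rfl⟩
  obtain ⟨E, hE⟩ : ∃ E : ℝ, E = c - y := ⟨_, rfl⟩
  have hD0 : 0 < D := by rw [hD]; linarith [hx12.1]
  have hE0 : 0 < E := by rw [hE]; linarith [hy12.2]
  have hFx : V.F x = cos D := by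
    have h1 := gap_R V hx12.1 hemx
    rw [hRa, zero_mul, hFa, one_mul, ← hD] at h1
    linarith
  have hLx : V.L x = -sin D := by
    have h1 := L_evolve V hx12.1
    rw [hemx, hFa, hRa, ← hD, Finset.sum_empty] at h1
    rw [h1]; ring
  have hAx : V.A x - V.A a = sin D := by
    rw [A_sub V hx12.1, hemx, Finset.sum_empty, hRa, hLx]; ring
  have hFy : V.F y = cos E := by
    have h1 := gap_L V hy12.2 hemy
    rw [hLc, zero_mul, hFc, one_mul, ← hE] at h1
    linarith
  have hsE : 0 < sin E := sin_pos_of_pos_of_lt_pi hE0 (by rw [hE]; linarith [hy12.1])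
  have hRy : V.R y = sin E := by
    have h1 := gap_R V hy12.2 hemy
    rw [hFc, hFy, ← hE] at h1
    have h2 := sin_sq_add_cos_sq E
    have h3 : (V.R y - sin E) * sin E = 0 := by nlinarith
    rcases mul_eq_zero.1 h3 with h4 | h4
    · linarith
    · exact absurd h4 hsE.ne'
  have hAy : V.A c - V.A y = sin E := by
    rw [A_sub V hy12.2, hemy, Finset.sum_empty, hRy, hLc]; ring
  have hDX : D ≤ X := by
    have h1 := h.lower2 x ⟨hx12.1.le, hx12.2.le⟩
    rw [hFx] at h1
    by_contra h2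
    push Not at h2
    have h3 : cos D < cos (c - x) :=
      cos_lt_cos_of_nonneg_of_le_pi (by linarith [hx12.2]) (by rw [hD]; linarith [hx12.2])
        (by rw [hD] at h2 ⊢; rw [hX] at h2; linarith)
    linarith
  have hEX : E ≤ X := by
    have h1 := h.lower1 y ⟨hy12.1.le, hy12.2.le⟩
    rw [hFy] at h1
    by_contra h2
    push Not at h2
    have h3 : cos E < cos (y - a) :=
      cos_lt_cos_of_nonneg_of_le_pi (by linarith [hy12.1]) (by rw [hE]; linarith [hy12.1])
        (by rw [hE] at h2 ⊢; rw [hX] at h2; linarith)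
    linarith
  -- the two one-variable inequalities
  have hn1D := num1 hD0.le hDX hXπ ht
  have hn1E := num1 hE0.le hEX hXπ ht
  have hn2D := num2 hD0.le hDX hXπ ht
  have hn2E := num2 hE0.le hEX hXπ ht
  rcases hxy.lt_or_eq with hlt | heq
  · -- at least two positions
    have hsplit := cap_split V hx12.1 hlt hy12.2 (fun i hi => ⟨hmin i hi, hmax i hi⟩)
    obtain ⟨S, hS⟩ : ∃ S : ℝ, S = ∑ i ∈ V.at' a c, V.m i * (1 - V.F (V.z i)) := ⟨_, rfl⟩
    obtain ⟨S0, hS0⟩ : ∃ S0 : ℝ, S0 = ∑ i ∈ V.at' x y, V.m i * (1 - V.F (V.z i)) := ⟨_, rfl⟩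
    obtain ⟨k, hk⟩ : ∃ k : ℝ, k = ((V.at' a c).card : ℝ) := ⟨_, rfl⟩
    obtain ⟨k0, hk0⟩ : ∃ k0 : ℝ, k0 = ((V.at' x y).card : ℝ) := ⟨_, rfl⟩
    have hSx : ∀ w : ℝ, ∑ i ∈ Finset.univ.filter (fun i => V.z i = w),
        V.m i * (1 - V.F (V.z i)) = (1 - V.F w) * (V.R w - V.L w) := by
      intro w
      rw [R_sub_L, Finset.mul_sum]
      refine Finset.sum_congr rfl fun i hi => ?_
      rw [(Finset.mem_filter.1 hi).2]; ring
    have hS1 : S = (1 - cos D) * (V.R x + sin D) + (S0 + (1 - cos E) * (sin E - V.L y)) := by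
      rw [hS, hsplit, hSx, hSx, ← hS0, hFx, hFy, hLx, hRy]; ring
    have hk1 : k0 + 2 ≤ k := by
      have h1 := hsplit (fun _ => 1)
      simp only [Finset.sum_const, nsmul_eq_mul, mul_one] at h1
      rw [← hk, ← hk0] at h1
      have h2 : 1 ≤ (Finset.univ.filter (fun i => V.z i = x)).card :=
        Finset.card_pos.2 ⟨i₁, Finset.mem_filter.2 ⟨Finset.mem_univ _, hx.symm⟩⟩
      have h3 : 1 ≤ (Finset.univ.filter (fun i => V.z i = y)).card :=
        Finset.card_pos.2 ⟨i₂, Finset.mem_filter.2 ⟨Finset.mem_univ _, hy.symm⟩⟩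
      have h2' : (1 : ℝ) ≤ ((Finset.univ.filter (fun i => V.z i = x)).card : ℝ) := by
        exact_mod_cast h2
      have h3' : (1 : ℝ) ≤ ((Finset.univ.filter (fun i => V.z i = y)).card : ℝ) := by
        exact_mod_cast h3
      linarith
    have hp : N - π / 2 < x := by rw [hN]; linarith [hx12.1]
    have hq : y < N - π / 2 + π := by rw [hN]; linarith [hy12.2]
    have hxN : x - N = -(X - D) := by rw [hN, hX, hD]; ring
    have hyN : y - N = X - E := by rw [hN, hX, hE]; ring
    have hyx : y - x = (c - a) - D - E := by rw [hD, hE]; ring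
    have hL1 := lemS V hp hlt hq hsk.le (fun b hb0 hbπ => tan_line hb0 hbπ)
    have hL2 := lemS V hp hlt hq (le_refl 0) (fun b hb0 hbπ => tan_self hb0 hbπ)
    rw [cap_cot, cap_cot, hxN, hyN, tan_neg, hFx, hFy, ← hS0, ← hk0, hyx] at hL1 hL2
    have hAle := A_sub_le V hxy (c := 1) (fun u hu => h.upper u
      ⟨hx12.1.le.trans hu.1, hu.2.trans hy12.2.le⟩)
    rw [hyx] at hAle
    have hAtot : V.A c - V.A a = sin D + sin E + (V.A y - V.A x) := by linarith
    have hkk : sg * kp * (k0 + 2) ≤ sg * kp * k := mul_le_mul_of_nonneg_left hk1 hsk.le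
    -- first inequality
    have hmain : (sin D * (2 - cos D) - sg * D + sg * kp / 2 - (1 - cos D) ^ 2 * tan (X - D)) +
        (sin E * (2 - cos E) - sg * E + sg * kp / 2 - (1 - cos E) ^ 2 * tan (X - E)) ≤
        V.A c - V.A a + S - sg * (c - a) + sg * kp * k := by
      rw [hAtot, hS1]
      linarith [hL1, hkk]
    have hsum : (1 - cos D) * (sin D - (1 - cos D) * tan (X - D)) +
        (1 - cos E) * (sin E - (1 - cos E) * tan (X - E)) ≤ S := by
      rw [hS1]
      linarith [hL2, hAle]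
    rw [← hS, ← hk]
    constructor
    · linarith
    · linarith
  · -- a single position
    have hDE : D = X ∧ E = X := by
      have h1 : D + E = 2 * X := by rw [hD, hE, hX, heq]; ring
      constructor <;> linarith
    obtain ⟨hDX', hEX'⟩ := hDE
    have hall : V.at' a c = Finset.univ.filter (fun i => V.z i = x) := by
      ext i
      rw [Finset.mem_filter]
      constructor
      · intro hi
        refine ⟨Finset.mem_univ _, le_antisymm ?_ (hmin i hi)⟩
        rw [heq]
        exact hmax i hi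
      · intro hi
        rw [mem_at, hi.2]
        exact hx12
    have hRx : V.R x = sin X := by rw [heq, hRy, hEX']
    have hFx' : V.F x = cos X := by rw [hFx, hDX']
    have hS : ∑ i ∈ V.at' a c, V.m i * (1 - V.F (V.z i)) = (1 - cos X) * (2 * sin X) := by
      have h1 : V.R x - V.L x = 2 * sin X := by rw [hRx, hLx, hDX']; ring
      rw [hall, ← h1, R_sub_L, Finset.mul_sum]
      refine Finset.sum_congr rfl fun i hi => ?_
      rw [(Finset.mem_filter.1 hi).2, hFx']; ring
    have hk1 : (1 : ℝ) ≤ ((V.at' a c).card : ℝ) := by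
      exact_mod_cast Finset.card_pos.2 hne
    have hA : V.A c - V.A a = 2 * sin X := by
      rw [hDX'] at hAx
      rw [← heq, hEX'] at hAy
      linarith
    rw [hDX', sub_self, tan_zero] at hn1D hn2D
    have hca : c - a = 2 * X := by rw [hX]; ring
    have hkk : sg * kp * 1 ≤ sg * kp * ((V.at' a c).card : ℝ) :=
      mul_le_mul_of_nonneg_left hk1 hsk.le
    rw [hS, hA, hca]
    constructor
    · linarith
    · linarith

end Pw

end Pool.Agent.Hex
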