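import Pool.Agent.Work.MP_3c650e_co.PwBasic

/-! Module PwWron: Wronskian identity and an upper bound for the integral. -/

set_option autoImplicit false

open Real Set

namespace Pool.Agent.Hex

namespace Pw

variable {ι ι' : Type} [Fintype ι] [Fintype ι']

private theorem F_at (f : Pw ι) {a c u : ℝ} (hau : a < u) (huc : u < c) : f.F u =
    f.F a * cos (u - a) + f.R a * sin (u - a) +
      ∑ j ∈ f.at' a c, if f.z j < u then f.m j * sin (u - f.z j) else 0 := by
  rw [f.F_evolve hau.le, ← Finset.sum_filter]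
  congr 1
  apply Finset.sum_congr _ (fun _ _ => rfl)
  ext j
  rw [Finset.mem_filter, mem_at, mem_at]
  constructor
  · rintro ⟨h1, h2⟩
    exact ⟨⟨h1, h2.trans huc⟩, h2⟩
  · rintro ⟨⟨h1, _⟩, h2⟩
    exact ⟨h1, h2⟩

theorem wronskian (V : Pw ι) (f : Pw ι') {a c : ℝ} (hac : a < c)
    (h1 : V.F a = 1) (h2 : V.F c = 1) (h3 : V.R a = 0) (h4 : V.L c = 0) :
    f.A c - f.A a = ∑ i ∈ V.at' a c, V.m i * f.F (V.z i) +
      ∑ j ∈ f.at' a c, f.m j * (1 - V.F (f.z j)) := by
  set b := c - a with hb
  set SV := ∑ i ∈ V.at' a c, V.m i * sin (c - V.z i) with hSV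
  set CV := ∑ i ∈ V.at' a c, V.m i * cos (c - V.z i) with hCV
  set Sf := ∑ j ∈ f.at' a c, f.m j * sin (c - f.z j) with hSf
  set Cf := ∑ j ∈ f.at' a c, f.m j * cos (c - f.z j) with hCf
  have eV1 : SV = 1 - cos b := by
    have := V.F_evolve hac.le
    rw [h1, h2, h3] at this
    rw [← hSV, ← hb] at this
    linarith
  have eV2 : CV = sin b := by
    have := V.L_evolve hac
    rw [h1, h3, h4] at this
    rw [← hCV, ← hb] at this
    linarith
  have ef2 : f.L c = -(f.F a * sin b) + f.R a * cos b + Cf := f.L_evolve hac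
  have hsc := sin_sq_add_cos_sq b
  -- first sum
  have s1 : ∑ i ∈ V.at' a c, V.m i * f.F (V.z i) =
      f.F a * sin b + f.R a * (1 - cos b) +
      ∑ i ∈ V.at' a c, ∑ j ∈ f.at' a c,
        (if f.z j < V.z i then V.m i * f.m j * sin (V.z i - f.z j) else 0) := by
    have e : ∀ i ∈ V.at' a c, V.m i * f.F (V.z i) =
        (f.F a * cos b + f.R a * sin b) * (V.m i * cos (c - V.z i)) +
        (f.F a * sin b - f.R a * cos b) * (V.m i * sin (c - V.z i)) +
        ∑ j ∈ f.at' a c,
          (if f.z j < V.z i then V.m i * f.m j * sin (V.z i - f.z j) else 0) := by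
      intro i hi
      rw [mem_at] at hi
      rw [f.F_at hi.1 hi.2]
      have c1 : cos (V.z i - a) = cos b * cos (c - V.z i) + sin b * sin (c - V.z i) := by
        rw [← cos_sub]; congr 1; rw [hb]; ring
      have c2 : sin (V.z i - a) = sin b * cos (c - V.z i) - cos b * sin (c - V.z i) := by
        rw [← sin_sub]; congr 1; rw [hb]; ring
      rw [c1, c2, mul_add, Finset.mul_sum]
      have : ∀ j ∈ f.at' a c, V.m i * (if f.z j < V.z i then f.m j * sin (V.z i - f.z j) else 0) =
          (if f.z j < V.z i then V.m i * f.m j * sin (V.z i - f.z j) else 0) := by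
        intro j _
        split_ifs <;> ring
      rw [Finset.sum_congr rfl this]
      ring
    rw [Finset.sum_congr rfl e, Finset.sum_add_distrib, Finset.sum_add_distrib,
      ← Finset.mul_sum, ← Finset.mul_sum, ← hCV, ← hSV, eV1, eV2]
    linear_combination (f.R a) * hsc
  -- second sum
  have s2 : ∑ j ∈ f.at' a c, f.m j * (1 - V.F (f.z j)) =
      ∑ j ∈ f.at' a c, f.m j - (cos b * Cf + sin b * Sf) -
      ∑ i ∈ V.at' a c, ∑ j ∈ f.at' a c,
        (if V.z i < f.z j then V.m i * f.m j * sin (f.z j - V.z i) else 0) := by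
    have e : ∀ j ∈ f.at' a c, f.m j * (1 - V.F (f.z j)) =
        f.m j - (cos b * (f.m j * cos (c - f.z j)) + sin b * (f.m j * sin (c - f.z j))) -
        ∑ i ∈ V.at' a c,
          (if V.z i < f.z j then V.m i * f.m j * sin (f.z j - V.z i) else 0) := by
      intro j hj
      rw [mem_at] at hj
      rw [V.F_at hj.1 hj.2, h1, h3]
      have c1 : cos (f.z j - a) = cos b * cos (c - f.z j) + sin b * sin (c - f.z j) := by
        rw [← cos_sub]; congr 1; rw [hb]; ring
      rw [c1]
      have : ∀ i ∈ V.at' a c,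
          (if V.z i < f.z j then V.m i * f.m j * sin (f.z j - V.z i) else 0) =
          f.m j * (if V.z i < f.z j then V.m i * sin (f.z j - V.z i) else 0) := by
        intro j _
        split_ifs <;> ring
      rw [Finset.sum_congr rfl this, ← Finset.mul_sum]
      ring
    rw [Finset.sum_congr rfl e, Finset.sum_sub_distrib, Finset.sum_sub_distrib,
      Finset.sum_add_distrib, ← Finset.mul_sum, ← Finset.mul_sum, ← hCf, ← hSf,
      Finset.sum_comm]
  -- difference of double sums
  have s3 : ∑ i ∈ V.at' a c, ∑ j ∈ f.at' a c,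
        (if f.z j < V.z i then V.m i * f.m j * sin (V.z i - f.z j) else 0) -
      ∑ i ∈ V.at' a c, ∑ j ∈ f.at' a c,
        (if V.z i < f.z j then V.m i * f.m j * sin (f.z j - V.z i) else 0) =
      CV * Sf - SV * Cf := by
    rw [hCV, hSV, hSf, hCf, Finset.sum_mul_sum, Finset.sum_mul_sum, ← Finset.sum_sub_distrib,
      ← Finset.sum_sub_distrib]
    refine Finset.sum_congr rfl (fun i _ => ?_)
    rw [← Finset.sum_sub_distrib, ← Finset.sum_sub_distrib]
    refine Finset.sum_congr rfl (fun j _ => ?_)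
    have hs : V.m i * f.m j * sin (V.z i - f.z j) =
        V.m i * cos (c - V.z i) * (f.m j * sin (c - f.z j)) -
        V.m i * sin (c - V.z i) * (f.m j * cos (c - f.z j)) := by
      rw [show V.z i - f.z j = (c - f.z j) - (c - V.z i) by ring, sin_sub]; ring
    have hs' : sin (f.z j - V.z i) = - sin (V.z i - f.z j) := by
      rw [← sin_neg]; congr 1; ring
    rcases lt_trichotomy (f.z j) (V.z i) with h | h | h
    · rw [if_pos h, if_neg (not_lt.mpr h.le), ← hs]; ring
    · rw [if_neg (by rw [h]; exact lt_irrefl _), if_neg (by rw [h]; exact lt_irrefl _), ← hs, h]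
      simp
    · rw [if_neg (not_lt.mpr h.le), if_pos h, ← hs, hs']; ring
  rw [f.A_sub hac, s1, s2, ef2]
  rw [eV1, eV2] at s3
  linear_combination (-1 : ℝ) * s3

theorem sig_bound (f : Pw ι) (hm : ∀ i, 0 ≤ f.m i) {a c : ℝ} (hac : a < c) (hπ : c - a < π) :
    f.A c - f.A a ≤ (f.F a + f.F c) * tan ((c - a) / 2) := by
  set b := c - a with hb
  have hb0 : 0 < b := by rw [hb]; linarith
  have hs : 0 < sin b := sin_pos_of_pos_of_lt_pi hb0 hπ
  have hc : 0 < cos (b / 2) := cos_pos_of_mem_Ioo ⟨by linarith, by linarith⟩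
  have ht' : tan (b / 2) * cos (b / 2) = sin (b / 2) := by
    rw [tan_eq_sin_div_cos]; field_simp
  have ht : tan (b / 2) * sin b = 1 - cos b := by
    have h1 : sin b = 2 * sin (b / 2) * cos (b / 2) := by
      rw [← sin_two_mul]; congr 1; ring
    have h2 : cos b = 1 - 2 * sin (b / 2) ^ 2 := by
      have := cos_two_mul (b / 2)
      have h3 := sin_sq_add_cos_sq (b / 2)
      rw [show 2 * (b / 2) = b by ring] at this
      linarith
    rw [h1, h2]
    linear_combination (2 * sin (b / 2)) * ht'
  set T := tan (b / 2) with hT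
  set S := ∑ j ∈ f.at' a c, f.m j * sin (c - f.z j) with hS
  set C := ∑ j ∈ f.at' a c, f.m j * cos (c - f.z j) with hC
  set M := ∑ j ∈ f.at' a c, f.m j with hM
  have e1 : f.F c = f.F a * cos b + f.R a * sin b + S := f.F_evolve hac.le
  have e2 : f.L c = -(f.F a * sin b) + f.R a * cos b + C := f.L_evolve hac
  have e3 : f.A c - f.A a = f.R a - f.L c + M := f.A_sub hac
  have hnn : 0 ≤ T * S + C - M := by
    rw [hS, hC, hM, Finset.mul_sum, ← Finset.sum_add_distrib, ← Finset.sum_sub_distrib]
    refine Finset.sum_nonneg (fun j hj => ?_)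
    rw [mem_at] at hj
    have : T * (f.m j * sin (c - f.z j)) + f.m j * cos (c - f.z j) - f.m j =
        f.m j * (T * sin (c - f.z j) + cos (c - f.z j) - 1) := by ring
    rw [this]
    refine mul_nonneg (hm j) ?_
    have h5 : cos (b / 2) ≤ cos (b / 2 - (c - f.z j)) := by
      rw [← cos_abs (b / 2 - (c - f.z j))]
      apply cos_le_cos_of_nonneg_of_le_pi (abs_nonneg _)
      · linarith
      · rw [abs_le]; constructor <;> linarith [hj.1, hj.2]
    rw [cos_sub] at h5
    have h6 : 0 ≤ (T * sin (c - f.z j) + cos (c - f.z j) - 1) * cos (b / 2) := by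
      have : (T * sin (c - f.z j) + cos (c - f.z j) - 1) * cos (b / 2) =
        (T * cos (b / 2)) * sin (c - f.z j) + cos (b / 2) * cos (c - f.z j) - cos (b / 2) := by
        ring
      rw [this, ht']; linarith
    exact nonneg_of_mul_nonneg_left h6 hc
  have h7 : (f.A c - f.A a) = (f.F a + f.F c) * T - (T * S + C - M) := by
    have h8 : (f.A c - f.A a) * sin b = ((f.F a + f.F c) * T - (T * S + C - M)) * sin b := by
      rw [e3, e2, e1]
      have hsc := sin_sq_add_cos_sq b
      linear_combination (-(f.F a + f.F a * cos b + f.R a * sin b)) * ht + (f.F a) * hsc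
    exact mul_right_cancel₀ hs.ne' h8
  rw [h7]
  linarith

end Pw

end Pool.Agent.Hex
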