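import Pool.Agent.Work.MP_3c650e_co.PwZ
import Pool.Agent.Work.MP_3c650e_co.PwWron
import Pool.Agent.Work.MP_3c650e_co.PwComp

/-! Module Core: the analytic heart. -/

set_option autoImplicit false

open Real Set

namespace Pool.Agent.Hex

/-- Per-component facts. -/
private theorem comp_facts (Hp Hm : Pw (Fin 6)) (hsp : ∀ i, 0 < Hp.m i) (hsm : ∀ i, 0 < Hm.m i)
    {p q : ℝ} (hpq : p < q) (hlen : q - p < π) (ht : tan ((q - p) / 2) ≤ 4 / 5)
    (a b : ℝ) (hab : ∀ u ∈ Icc p q,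
        cos (u - p) ≤ Hp.F u + (a * cos u + b * sin u) ∧
        cos (q - u) ≤ Hp.F u + (a * cos u + b * sin u) ∧
        Hp.F u + (a * cos u + b * sin u) ≤ 1 ∧
        0 ≤ Hm.F u - (a * cos u + b * sin u)) :
    ∃ Λ Sg E : ℝ, (Hp.A q + Hm.A q) - (Hp.A p + Hm.A p) = Λ + Sg ∧
      1 ≤ Hp.F p + Hm.F p ∧ 1 ≤ Hp.F q + Hm.F q ∧
      Sg ≤ 4 / 5 * ((Hp.F p + Hm.F p - 1) + (Hp.F q + Hm.F q - 1)) ∧
      -(sg * kp / 6) ≤ Λ + E - sg * (q - p) + sg * kp * ((Hp.at' p q).card : ℝ) ∧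
      0 ≤ Λ + 6 / 5 * E - sg * (q - p) + sg * kp * ((Hp.at' p q).card : ℝ) ∧
      E + ∑ j ∈ Hm.at' p q, Hm.m j * max 0 (1 - (Hp.F (Hm.z j) + Hm.F (Hm.z j))) -
        ∑ i ∈ Hp.at' p q, Hp.m i * max 0 (1 - (Hp.F (Hp.z i) + Hm.F (Hp.z i))) ≤ Sg := by
  set V : Pw (Fin 6) := Hp.shift a b with hV
  set f : Pw (Fin 6) := Hm.shift (-a) (-b) with hf
  have hVF : ∀ u, V.F u = Hp.F u + (a * cos u + b * sin u) := fun u => Hp.shift_F a b u
  have hfF : ∀ u, f.F u = Hm.F u - (a * cos u + b * sin u) := fun u => by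
    rw [hf, Hm.shift_F]; ring
  have hVA : ∀ u, V.A u = Hp.A u + (a * sin u - b * cos u) := fun u => Hp.shift_A a b u
  have hfA : ∀ u, f.A u = Hm.A u - (a * sin u - b * cos u) := fun u => by
    rw [hf, Hm.shift_A]; ring
  have hcap : V.IsCap p q :=
    ⟨hpq, hlen, fun u hu => by rw [hVF]; exact (hab u hu).1,
      fun u hu => by rw [hVF]; exact (hab u hu).2.1,
      fun u hu => by rw [hVF]; exact (hab u hu).2.2.1⟩
  obtain ⟨e1, e2, e3, e4⟩ := Pw.cap_ends hcap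
  obtain ⟨i1, i2⟩ := Pw.cap_ineq hcap ht
  have hwr := V.wronskian f hpq e1 e2 e3 e4
  have hsb := f.sig_bound (fun i => (hsm i).le) hpq hlen
  have hfp : 0 ≤ f.F p := by rw [hfF]; exact (hab p ⟨le_rfl, hpq.le⟩).2.2.2
  have hfq : 0 ≤ f.F q := by rw [hfF]; exact (hab q ⟨hpq.le, le_rfl⟩).2.2.2
  have hWp : Hp.F p + Hm.F p = 1 + f.F p := by rw [← e1, hVF, hfF]; ring
  have hWq : Hp.F q + Hm.F q = 1 + f.F q := by rw [← e2, hVF, hfF]; ring
  refine ⟨V.A q - V.A p, f.A q - f.A p, ∑ i ∈ V.at' p q, V.m i * (1 - V.F (V.z i)),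
    ?_, ?_, ?_, ?_, ?_, ?_, ?_⟩
  · rw [hVA, hVA, hfA, hfA]; ring
  · linarith
  · linarith
  · rw [hWp, hWq]
    have := mul_le_mul_of_nonneg_left ht (add_nonneg hfp hfq)
    linarith
  · exact i1
  · exact i2
  · rw [hwr]
    have h1 : ∑ j ∈ Hm.at' p q, Hm.m j * max 0 (1 - (Hp.F (Hm.z j) + Hm.F (Hm.z j))) ≤
        ∑ j ∈ f.at' p q, f.m j * (1 - V.F (f.z j)) := by
      refine Finset.sum_le_sum (fun j hj => ?_)
      obtain ⟨hj1, hj2⟩ := Hm.mem_at.1 hj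
      have hu := hab (Hm.z j) ⟨hj1.le, hj2.le⟩
      refine mul_le_mul_of_nonneg_left ?_ (hsm j).le
      rw [hVF]
      refine max_le ?_ ?_
      · have := hu.2.2.1
        exact sub_nonneg.2 this
      · have := hu.2.2.2
        change 1 - (Hp.F (Hm.z j) + Hm.F (Hm.z j)) ≤
          1 - (Hp.F (Hm.z j) + (a * cos (Hm.z j) + b * sin (Hm.z j)))
        linarith
    have h2 : ∑ i ∈ V.at' p q, V.m i * (1 - V.F (V.z i)) -
        ∑ i ∈ Hp.at' p q, Hp.m i * max 0 (1 - (Hp.F (Hp.z i) + Hm.F (Hp.z i))) ≤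
        ∑ i ∈ V.at' p q, V.m i * f.F (V.z i) := by
      have : ∑ i ∈ Hp.at' p q, Hp.m i * max 0 (1 - (Hp.F (Hp.z i) + Hm.F (Hp.z i))) =
        ∑ i ∈ V.at' p q, Hp.m i * max 0 (1 - (Hp.F (Hp.z i) + Hm.F (Hp.z i))) := rfl
      rw [this, ← Finset.sum_sub_distrib]
      refine Finset.sum_le_sum (fun i hi => ?_)
      change Hp.m i * (1 - V.F (Hp.z i)) - Hp.m i * max 0 (1 - (Hp.F (Hp.z i) + Hm.F (Hp.z i))) ≤
        Hp.m i * f.F (Hp.z i)
      rw [← mul_sub]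
      refine mul_le_mul_of_nonneg_left ?_ (hsp i).le
      have := le_max_right 0 (1 - (Hp.F (Hp.z i) + Hm.F (Hp.z i)))
      rw [hVF, hfF]
      linarith
    linarith

/-- Double counting. -/
private theorem double_count (H : Pw (Fin 6)) (𝒯 : Finset (ℝ × ℝ)) (g : Fin 6 → ℝ) :
    ∑ C ∈ 𝒯, ∑ i ∈ H.at' C.1 C.2, g i =
      ∑ i, g i * ((𝒯.filter (fun C => C.1 < H.z i ∧ H.z i < C.2)).card : ℝ) := by
  have h1 : ∀ C ∈ 𝒯, ∑ i ∈ H.at' C.1 C.2, g i =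
      ∑ i, if C.1 < H.z i ∧ H.z i < C.2 then g i else 0 := by
    intro C _
    rw [Pw.at', Finset.sum_filter]
  rw [Finset.sum_congr rfl h1, Finset.sum_comm]
  refine Finset.sum_congr rfl (fun i _ => ?_)
  rw [← Finset.sum_filter, Finset.sum_const, nsmul_eq_mul, mul_comm]

private theorem card_le_one_of_disj (𝒯 : Finset (ℝ × ℝ))
    (hd : ∀ C ∈ 𝒯, ∀ C' ∈ 𝒯, C ≠ C' → C.2 ≤ C'.1 ∨ C'.2 ≤ C.1) (x : ℝ) :
    (𝒯.filter (fun C => C.1 < x ∧ x < C.2)).card ≤ 1 := by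
  rw [Finset.card_le_one]
  intro C hC D hD
  rw [Finset.mem_filter] at hC hD
  by_contra hne
  rcases hd C hC.1 D hD.1 hne with h | h
  · linarith [hC.2.1, hC.2.2, hD.2.1, hD.2.2]
  · linarith [hC.2.1, hC.2.2, hD.2.1, hD.2.2]

theorem core (s zp zm : Fin 6 → ℝ) (hs : ∀ i, 0 < s i) (t₀ αp βp αm βm : ℝ)
    (hzp : ∀ i, zp i ∈ Ioc t₀ (t₀ + 2 * π)) (hzm : ∀ i, zm i ∈ Ioc t₀ (t₀ + 2 * π))
    (c1 : ∑ i, s i * cos (zp i) = 0) (c2 : ∑ i, s i * sin (zp i) = 0)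
    (c3 : ∑ i, s i * cos (zm i) = 0) (c4 : ∑ i, s i * sin (zm i) = 0)
    (hW : ∀ i, (Pw.mk αp βp s zp).F (zp i) + (Pw.mk αm βm s zm).F (zp i) =
      (Pw.mk αp βp s zp).F (zm i) + (Pw.mk αm βm s zm).F (zm i))
    (harc : ∀ u w, t₀ ≤ u → w ≤ t₀ + 2 * π → π ≤ w - u → ∃ i, u < zm i ∧ zm i < w)
    (𝒯 : Finset (ℝ × ℝ))
    (hT : ∀ C ∈ 𝒯, t₀ ≤ C.1 ∧ C.1 < C.2 ∧ C.2 ≤ t₀ + 2 * π ∧ C.2 - C.1 < π ∧
      tan ((C.2 - C.1) / 2) ≤ 4 / 5 ∧ (∃ i, C.1 < zm i ∧ zm i < C.2) ∧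
      ∃ a b : ℝ, ∀ u ∈ Icc C.1 C.2,
        cos (u - C.1) ≤ (Pw.mk αp βp s zp).F u + (a * cos u + b * sin u) ∧
        cos (C.2 - u) ≤ (Pw.mk αp βp s zp).F u + (a * cos u + b * sin u) ∧
        (Pw.mk αp βp s zp).F u + (a * cos u + b * sin u) ≤ 1 ∧
        0 ≤ (Pw.mk αm βm s zm).F u - (a * cos u + b * sin u))
    (hd : ∀ C ∈ 𝒯, ∀ C' ∈ 𝒯, C ≠ C' → C.2 ≤ C'.1 ∨ C'.2 ≤ C.1)
    (hcov : ∀ i, (Pw.mk αp βp s zp).F (zm i) + (Pw.mk αm βm s zm).F (zm i) < 1 →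
      ∃ C ∈ 𝒯, C.1 < zm i ∧ zm i < C.2)
    (hstart : (∃ C ∈ 𝒯, C.1 = t₀) ∨ (𝒯 = ∅ ∧ ∃ i, zm i = t₀ + 2 * π)) :
    3 * sg ≤ ∑ i, s i := by
  classical
  have hy := y1_pos
  have hsg : 0 < sg := by linarith [sg_gt_one]
  have hkp := kp_pos
  have hsk : 0 < sg * kp := mul_pos hsg hkp
  have hkdef : sg * (2 * π) - 12 * (sg * kp) = 6 * sg := by unfold kp; ring
  have hpi := pi_pos
  set Hp : Pw (Fin 6) := Pw.mk αp βp s zp with hHp
  set Hm : Pw (Fin 6) := Pw.mk αm βm s zm with hHm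
  set W : Pw (Fin 6 ⊕ Fin 6) := Hp.add Hm with hWdef
  have hWF : ∀ u, W.F u = Hp.F u + Hm.F u := fun u => Hp.add_F Hm u
  have hWA : ∀ u, W.A u = Hp.A u + Hm.A u := fun u => Hp.add_A Hm u
  have hWm : ∀ i, 0 ≤ W.m i := by
    rintro (i | i)
    · exact (hs i).le
    · exact (hs i).le
  have hWz : ∀ i, W.z i ∈ Ioc t₀ (t₀ + 2 * π) := by
    rintro (i | i)
    · exact hzp i
    · exact hzm i
  have hzl : ∀ i, W.z (Sum.inl i) = zp i := fun _ => rfl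
  have hzr : ∀ i, W.z (Sum.inr i) = zm i := fun _ => rfl
  have hml : ∀ i, W.m (Sum.inl i) = s i := fun _ => rfl
  have hmr : ∀ i, W.m (Sum.inr i) = s i := fun _ => rfl
  obtain ⟨hcl1, hcl2⟩ := W.closing hWz
    (by rw [Fintype.sum_sum_type]; simp only [hzl, hzr, hml, hmr]; rw [c1, c3, add_zero])
    (by rw [Fintype.sum_sum_type]; simp only [hzl, hzr, hml, hmr]; rw [c2, c4, add_zero])
  have hmass : ∑ i, W.m i = 2 * ∑ i, s i := by
    rw [Fintype.sum_sum_type]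
    simp only [hml, hmr]
    ring
  rw [hmass] at hcl2
  -- `ε`
  set ε : Fin 6 → ℝ := fun i => max 0 (1 - W.F (zp i)) with hε
  have hεm : ∀ i, max 0 (1 - W.F (zm i)) = ε i := by
    intro i
    simp only [hε]
    rw [hWF, hWF, hW i]
  have hε0 : ∀ i, 0 ≤ ε i := fun i => le_max_left _ _
  rcases hstart with ⟨C₀, hC₀, hC₀1⟩ | ⟨hT0, i₀, hi₀⟩
  · -- main case
    have hex : ∀ C ∈ 𝒯, ∃ Λ Sg E : ℝ, (Hp.A C.2 + Hm.A C.2) - (Hp.A C.1 + Hm.A C.1) = Λ + Sg ∧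
        1 ≤ Hp.F C.1 + Hm.F C.1 ∧ 1 ≤ Hp.F C.2 + Hm.F C.2 ∧
        Sg ≤ 4 / 5 * ((Hp.F C.1 + Hm.F C.1 - 1) + (Hp.F C.2 + Hm.F C.2 - 1)) ∧
        -(sg * kp / 6) ≤ Λ + E - sg * (C.2 - C.1) + sg * kp * ((Hp.at' C.1 C.2).card : ℝ) ∧
        0 ≤ Λ + 6 / 5 * E - sg * (C.2 - C.1) + sg * kp * ((Hp.at' C.1 C.2).card : ℝ) ∧
        E + ∑ j ∈ Hm.at' C.1 C.2, s j * ε j - ∑ i ∈ Hp.at' C.1 C.2, s i * ε i ≤ Sg := by
      intro C hC
      obtain ⟨_, t2, _, t4, t5, _, a, b, hab⟩ := hT C hC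
      obtain ⟨Λ, Sg, E, f1, f2, f3, f4, f5, f6, f7⟩ := comp_facts Hp Hm hs hs t2 t4 t5 a b hab
      refine ⟨Λ, Sg, E, f1, f2, f3, f4, f5, f6, ?_⟩
      have g1 : ∑ j ∈ Hm.at' C.1 C.2, Hm.m j * max 0 (1 - (Hp.F (Hm.z j) + Hm.F (Hm.z j))) =
          ∑ j ∈ Hm.at' C.1 C.2, s j * ε j := by
        refine Finset.sum_congr rfl (fun j _ => ?_)
        rw [← hεm j, hWF]
      have g2 : ∑ i ∈ Hp.at' C.1 C.2, Hp.m i * max 0 (1 - (Hp.F (Hp.z i) + Hm.F (Hp.z i))) =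
          ∑ i ∈ Hp.at' C.1 C.2, s i * ε i := by
        refine Finset.sum_congr rfl (fun i _ => ?_)
        simp only [hε]
        rw [hWF]
      rw [← g1, ← g2]
      exact f7
    choose! Λ Sg E f1 f2 f3 f4 f5 f6 f7 using hex
    obtain ⟨a1, a2, a3, a4, a5, a6, a7⟩ := hT C₀ hC₀
    set 𝒞 := 𝒯.erase C₀ with h𝒞
    have hsumC : ∀ g : ℝ × ℝ → ℝ, ∑ C ∈ 𝒯, g C = g C₀ + ∑ C ∈ 𝒞, g C := fun g =>
      (Finset.add_sum_erase 𝒯 g hC₀).symm
    have hcardC : (𝒯.card : ℝ) = 1 + (𝒞.card : ℝ) := by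
      have := hsumC (fun _ => 1)
      simpa using this
    have hmemC : ∀ C ∈ 𝒞, C ∈ 𝒯 ∧ C ≠ C₀ := fun C hC =>
      ⟨Finset.mem_of_mem_erase hC, Finset.ne_of_mem_erase hC⟩
    have hright : ∀ C ∈ 𝒞, C₀.2 ≤ C.1 := by
      intro C hC
      obtain ⟨h1, h2⟩ := hmemC C hC
      rcases hd C h1 C₀ hC₀ h2 with h | h
      · have := (hT C h1).1
        have := (hT C h1).2.1
        linarith
      · exact h
    have hq1 : 1 ≤ W.F (t₀ + 2 * π) := by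
      rw [hcl1, ← hC₀1, hWF]; exact f2 C₀ hC₀
    have hz := W.zlem hWm 𝒞 (p := C₀.2) (q := t₀ + 2 * π) a3 (by rw [hWF]; exact f3 C₀ hC₀) hq1
      (fun C hC => by
        obtain ⟨h1, h2⟩ := hmemC C hC
        obtain ⟨b1, b2, b3, _⟩ := hT C h1
        exact ⟨hright C hC, b2, b3, by rw [hWF]; exact f2 C h1, by rw [hWF]; exact f3 C h1⟩)
      (fun C hC D hD h => hd C (hmemC C hC).1 D (hmemC D hD).1 h)
      (fun u w hu hw h => by
        obtain ⟨i, hi1, hi2⟩ := harc u w (by linarith) hw h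
        refine ⟨Sum.inr i, hi1, hi2, ?_⟩
        by_cases hc : W.F (zm i) < 1
        · right
          rw [hWF] at hc
          obtain ⟨C, hC, hC1, hC2⟩ := hcov i hc
          refine ⟨C, ?_, hC1, hC2⟩
          rw [h𝒞, Finset.mem_erase]
          refine ⟨?_, hC⟩
          rintro rfl
          linarith
        · left
          exact not_lt.1 hc)
    -- notation
    set U : ℝ := ∑ i ∈ W.out 𝒞 C₀.2 (t₀ + 2 * π), W.m i * max 0 (1 - W.F (W.z i)) with hU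
    set nP : Fin 6 → ℝ := fun i => ((𝒯.filter (fun C => C.1 < Hp.z i ∧ Hp.z i < C.2)).card : ℝ)
      with hnP
    set nQ : Fin 6 → ℝ := fun i => ((𝒯.filter (fun C => C.1 < Hm.z i ∧ Hm.z i < C.2)).card : ℝ)
      with hnQ
    set oP : Fin 6 → ℝ := fun i => if Sum.inl i ∈ W.out 𝒞 C₀.2 (t₀ + 2 * π) then 1 else 0 with hoP
    set oQ : Fin 6 → ℝ := fun i => if Sum.inr i ∈ W.out 𝒞 C₀.2 (t₀ + 2 * π) then 1 else 0 with hoQ
    have hout : ∀ g : Fin 6 ⊕ Fin 6 → ℝ, ∑ i ∈ W.out 𝒞 C₀.2 (t₀ + 2 * π), g i =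
        ∑ i, oP i * g (Sum.inl i) + ∑ i, oQ i * g (Sum.inr i) := by
      intro g
      have h1 : ∑ i ∈ W.out 𝒞 C₀.2 (t₀ + 2 * π), g i =
          ∑ i, if i ∈ W.out 𝒞 C₀.2 (t₀ + 2 * π) then g i else 0 := by
        rw [Finset.sum_ite_mem, Finset.univ_inter]
      rw [h1, Fintype.sum_sum_type]
      congr 1
      · refine Finset.sum_congr rfl (fun i _ => ?_)
        simp only [hoP, ite_mul, one_mul, zero_mul]
      · refine Finset.sum_congr rfl (fun i _ => ?_)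
        simp only [hoQ, ite_mul, one_mul, zero_mul]
    have hoP01 : ∀ i, 0 ≤ oP i ∧ oP i ≤ 1 := by
      intro i; simp only [hoP]; split_ifs <;> norm_num
    have hoQ01 : ∀ i, 0 ≤ oQ i ∧ oQ i ≤ 1 := by
      intro i; simp only [hoQ]; split_ifs <;> norm_num
    have hnP0 : ∀ i, 0 ≤ nP i := fun i => Nat.cast_nonneg _
    have hnQ0 : ∀ i, 0 ≤ nQ i := fun i => Nat.cast_nonneg _
    have hnP1 : ∀ i, nP i ≤ 1 := fun i => by
      simp only [hnP]
      exact_mod_cast card_le_one_of_disj 𝒯 hd (Hp.z i)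
    have hnQ1 : ∀ i, nQ i ≤ 1 := fun i => by
      simp only [hnQ]
      exact_mod_cast card_le_one_of_disj 𝒯 hd (Hm.z i)
    have hzero : ∀ i : Fin 6 ⊕ Fin 6, i ∈ W.out 𝒞 C₀.2 (t₀ + 2 * π) →
        (𝒯.filter (fun C => C.1 < W.z i ∧ W.z i < C.2)).card = 0 := by
      intro i hi
      obtain ⟨⟨h1, h2⟩, h3⟩ := W.mem_out.1 hi
      rw [Finset.card_eq_zero, Finset.filter_eq_empty_iff]
      intro C hC hC'
      by_cases hCC : C = C₀
      · rw [hCC] at hC'; linarith [hC'.2]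
      · exact h3 C (Finset.mem_erase.2 ⟨hCC, hC⟩) hC'
    have hPsum : ∀ i, oP i + nP i ≤ 1 := by
      intro i
      by_cases hi : Sum.inl i ∈ W.out 𝒞 C₀.2 (t₀ + 2 * π)
      · have := hzero _ hi
        have h1 : nP i = 0 := by simp only [hnP]; exact_mod_cast this
        rw [h1]; linarith [(hoP01 i).2]
      · have h1 : oP i = 0 := by simp only [hoP, if_neg hi]
        rw [h1]; linarith [hnP1 i]
    have hQsum : ∀ i, oQ i + nQ i ≤ 1 := by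
      intro i
      by_cases hi : Sum.inr i ∈ W.out 𝒞 C₀.2 (t₀ + 2 * π)
      · have := hzero _ hi
        have h1 : nQ i = 0 := by simp only [hnQ]; exact_mod_cast this
        rw [h1]; linarith [(hoQ01 i).2]
      · have h1 : oQ i = 0 := by simp only [hoQ, if_neg hi]
        rw [h1]; linarith [hnQ1 i]
    have hεQ : ∀ j, ε j ≤ ε j * nQ j := by
      intro j
      rcases eq_or_lt_of_le (hε0 j) with h | h
      · rw [← h]; simp
      · have h1 : W.F (zm j) < 1 := by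
          rw [← hεm j] at h
          by_contra hcon
          push Not at hcon
          rw [max_eq_left (by linarith)] at h
          exact lt_irrefl _ h
        rw [hWF] at h1
        obtain ⟨C, hC, hC1, hC2⟩ := hcov j h1
        have h2 : (1:ℝ) ≤ nQ j := by
          simp only [hnQ]
          have : 0 < (𝒯.filter (fun C => C.1 < Hm.z j ∧ Hm.z j < C.2)).card := by
            rw [Finset.card_pos]
            exact ⟨C, Finset.mem_filter.2 ⟨hC, hC1, hC2⟩⟩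
          exact_mod_cast this
        nlinarith
    have hoQε : ∀ j, oQ j * ε j = 0 := by
      intro j
      by_cases hi : Sum.inr j ∈ W.out 𝒞 C₀.2 (t₀ + 2 * π)
      · have h1 : nQ j = 0 := by simp only [hnQ]; exact_mod_cast hzero _ hi
        have h2 := hεQ j
        rw [h1, mul_zero] at h2
        have : ε j = 0 := le_antisymm h2 (hε0 j)
        rw [this, mul_zero]
      · have h1 : oQ j = 0 := by simp only [hoQ, if_neg hi]
        rw [h1, zero_mul]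
    have hUeq : U = ∑ i, s i * ε i * oP i := by
      rw [hU, hout (fun i => W.m i * max 0 (1 - W.F (W.z i)))]
      have h1 : ∑ i, oQ i * (W.m (Sum.inr i) * max 0 (1 - W.F (W.z (Sum.inr i)))) = 0 := by
        apply Finset.sum_eq_zero
        intro i _
        rw [hzr, hmr, hεm i]
        have := hoQε i
        calc oQ i * (s i * ε i) = s i * (oQ i * ε i) := by ring
          _ = 0 := by rw [this, mul_zero]
      rw [h1, add_zero]
      refine Finset.sum_congr rfl (fun i _ => ?_)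
      rw [hzl, hml]
      ring
    have hU0 : 0 ≤ U := by
      rw [hUeq]
      exact Finset.sum_nonneg (fun i _ => mul_nonneg (mul_nonneg (hs i).le (hε0 i)) (hoP01 i).1)
    -- (1)
    have hS : ∑ C ∈ 𝒯, E C + U ≤ ∑ C ∈ 𝒯, Sg C := by
      have h1 : ∑ C ∈ 𝒯, (E C + ∑ j ∈ Hm.at' C.1 C.2, s j * ε j -
          ∑ i ∈ Hp.at' C.1 C.2, s i * ε i) ≤ ∑ C ∈ 𝒯, Sg C := Finset.sum_le_sum f7
      rw [Finset.sum_sub_distrib, Finset.sum_add_distrib,
        double_count Hm 𝒯 (fun j => s j * ε j), double_count Hp 𝒯 (fun i => s i * ε i)] at h1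
      have h2 : ∑ i, s i * ε i ≤ ∑ i, s i * ε i * nQ i := by
        refine Finset.sum_le_sum (fun i _ => ?_)
        have := mul_le_mul_of_nonneg_left (hεQ i) (hs i).le
        linarith
      have h3 : U + ∑ i, s i * ε i * nP i ≤ ∑ i, s i * ε i := by
        rw [hUeq, ← Finset.sum_add_distrib]
        refine Finset.sum_le_sum (fun i _ => ?_)
        have := mul_le_mul_of_nonneg_left (hPsum i) (mul_nonneg (hs i).le (hε0 i))
        linarith
      linarith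
    -- counts
    have hr : ∑ C ∈ 𝒯, ((Hp.at' C.1 C.2).card : ℝ) = ∑ i, nP i := by
      have := double_count Hp 𝒯 (fun _ => 1)
      simpa using this
    have hν : ∑ C ∈ 𝒯, ((Hm.at' C.1 C.2).card : ℝ) = ∑ i, nQ i := by
      have := double_count Hm 𝒯 (fun _ => 1)
      simpa using this
    have hν1 : (𝒯.card : ℝ) ≤ ∑ C ∈ 𝒯, ((Hm.at' C.1 C.2).card : ℝ) := by
      have : ∑ C ∈ 𝒯, (1:ℝ) ≤ ∑ C ∈ 𝒯, ((Hm.at' C.1 C.2).card : ℝ) := by
        refine Finset.sum_le_sum (fun C hC => ?_)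
        obtain ⟨_, _, _, _, _, ⟨i, hi1, hi2⟩, _⟩ := hT C hC
        have : 0 < (Hm.at' C.1 C.2).card := by
          rw [Finset.card_pos]
          exact ⟨i, Hm.mem_at.2 ⟨hi1, hi2⟩⟩
        exact_mod_cast this
      simpa using this
    have hocard : ((W.out 𝒞 C₀.2 (t₀ + 2 * π)).card : ℝ) = ∑ i, oP i + ∑ i, oQ i := by
      have := hout (fun _ => 1)
      simpa using this
    have hsumP : ∑ i, oP i + ∑ i, nP i ≤ 6 := by
      rw [← Finset.sum_add_distrib]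
      refine (Finset.sum_le_sum (fun i _ => hPsum i)).trans ?_
      simp
    have hsumQ : ∑ i, oQ i + ∑ i, nQ i ≤ 6 := by
      rw [← Finset.sum_add_distrib]
      refine (Finset.sum_le_sum (fun i _ => hQsum i)).trans ?_
      simp
    have hoQ0 : 0 ≤ ∑ i, oQ i := Finset.sum_nonneg (fun i _ => (hoQ01 i).1)
    have hcardT6 : (𝒯.card : ℝ) ≤ 6 := by linarith
    have hcount : 1 + (𝒞.card : ℝ) + ((W.out 𝒞 C₀.2 (t₀ + 2 * π)).card : ℝ) ≤
        12 - ∑ C ∈ 𝒯, ((Hp.at' C.1 C.2).card : ℝ) := by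
      rw [← hcardC, hocard, hr]
      linarith
    have hcount' := mul_le_mul_of_nonneg_left hcount hsk.le
    -- rewriting hz
    have hA1 : W.A (t₀ + 2 * π) - W.A C₀.2 - ∑ C ∈ 𝒞, (W.A C.2 - W.A C.1) =
        2 * ∑ i, s i - ∑ C ∈ 𝒯, (Λ C + Sg C) := by
      have h1 : ∑ C ∈ 𝒯, (Λ C + Sg C) = ∑ C ∈ 𝒯, (W.A C.2 - W.A C.1) := by
        refine Finset.sum_congr rfl (fun C hC => ?_)
        rw [hWA, hWA, ← f1 C hC]
      rw [h1, hsumC (fun C => W.A C.2 - W.A C.1), ← hcl2]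
      simp only [hC₀1]
      ring
    have hlen : t₀ + 2 * π - C₀.2 - ∑ C ∈ 𝒞, (C.2 - C.1) = 2 * π - ∑ C ∈ 𝒯, (C.2 - C.1) := by
      rw [hsumC (fun C => C.2 - C.1)]
      simp only [hC₀1]
      ring
    have hφ : (W.F C₀.2 - 1) + (W.F (t₀ + 2 * π) - 1) +
        ∑ C ∈ 𝒞, ((W.F C.1 - 1) + (W.F C.2 - 1)) =
        ∑ C ∈ 𝒯, ((W.F C.1 - 1) + (W.F C.2 - 1)) := by
      rw [hsumC (fun C => (W.F C.1 - 1) + (W.F C.2 - 1)), hcl1]
      simp only [hC₀1]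
      ring
    rw [hA1, hlen, hφ] at hz
    set φ : ℝ := ∑ C ∈ 𝒯, ((W.F C.1 - 1) + (W.F C.2 - 1)) with hφdef
    have hφ0 : 0 ≤ φ := by
      apply Finset.sum_nonneg
      intro C hC
      have h1 := f2 C hC
      have h2 := f3 C hC
      rw [← hWF] at h1 h2
      linarith
    have hSφ : ∑ C ∈ 𝒯, Sg C ≤ 4 / 5 * φ := by
      rw [hφdef, Finset.mul_sum]
      refine Finset.sum_le_sum (fun C hC => ?_)
      have := f4 C hC
      rw [hWF, hWF]
      exact this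
    have hG1 : -(sg * kp / 6) * (𝒯.card : ℝ) ≤ ∑ C ∈ 𝒯, Λ C + ∑ C ∈ 𝒯, E C -
        sg * ∑ C ∈ 𝒯, (C.2 - C.1) + sg * kp * ∑ C ∈ 𝒯, ((Hp.at' C.1 C.2).card : ℝ) := by
      have h1 : ∑ C ∈ 𝒯, (-(sg * kp / 6)) ≤ ∑ C ∈ 𝒯, (Λ C + E C - sg * (C.2 - C.1) +
          sg * kp * ((Hp.at' C.1 C.2).card : ℝ)) := Finset.sum_le_sum f5
      rw [Finset.sum_add_distrib, Finset.sum_sub_distrib, Finset.sum_add_distrib,
        ← Finset.mul_sum, ← Finset.mul_sum, Finset.sum_const, nsmul_eq_mul, mul_comm] at h1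
      exact h1
    have hG2 : 0 ≤ ∑ C ∈ 𝒯, Λ C + 6 / 5 * ∑ C ∈ 𝒯, E C -
        sg * ∑ C ∈ 𝒯, (C.2 - C.1) + sg * kp * ∑ C ∈ 𝒯, ((Hp.at' C.1 C.2).card : ℝ) := by
      have h1 : ∑ C ∈ 𝒯, (0:ℝ) ≤ ∑ C ∈ 𝒯, (Λ C + 6 / 5 * E C - sg * (C.2 - C.1) +
          sg * kp * ((Hp.at' C.1 C.2).card : ℝ)) := Finset.sum_le_sum f6
      rw [Finset.sum_add_distrib, Finset.sum_sub_distrib, Finset.sum_add_distrib,
        ← Finset.mul_sum, ← Finset.mul_sum, ← Finset.mul_sum, Finset.sum_const_zero] at h1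
      exact h1
    rw [Finset.sum_add_distrib] at hz
    rcases le_total (y1 * φ) (sg * kp) with hreg | hreg
    · rw [min_eq_left hreg] at hz
      have hyφ : 1 / 5 * ∑ C ∈ 𝒯, Sg C ≤ y1 * φ := by
        have h1 := mul_le_mul_of_nonneg_right y1_ge hφ0
        linarith
      nlinarith
    · rw [min_eq_right hreg] at hz
      have h1 := mul_le_mul_of_nonneg_left hcardT6 hsk.le
      nlinarith
  · -- no components
    have hge : ∀ i, 1 ≤ W.F (zm i) := by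
      intro i
      by_contra hcon
      push Not at hcon
      rw [hWF] at hcon
      obtain ⟨C, hC, _⟩ := hcov i hcon
      rw [hT0] at hC
      simp at hC
    have hge' : ∀ i, 1 ≤ W.F (W.z i) := by
      rintro (i | i)
      · rw [hzl, hWF, hW i, ← hWF]; exact hge i
      · rw [hzr]; exact hge i
    have hq1 : 1 ≤ W.F (t₀ + 2 * π) := by rw [← hi₀]; exact hge i₀
    have hp1 : 1 ≤ W.F t₀ := by rw [← hcl1]; exact hq1
    have hz := W.zbase (p := t₀) (q := t₀ + 2 * π) (by linarith) hp1 hq1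
      (fun u w hu hw h => by
        obtain ⟨i, hi1, hi2⟩ := harc u w hu hw h
        exact ⟨Sum.inr i, hi1, hi2, hge i⟩)
    have hsum0 : ∑ i ∈ W.at' t₀ (t₀ + 2 * π), W.m i * max 0 (1 - W.F (W.z i)) = 0 := by
      apply Finset.sum_eq_zero
      intro i _
      rw [max_eq_left (by linarith [hge' i]), mul_zero]
    have hcard : (W.at' t₀ (t₀ + 2 * π)).card ≤ 11 := by
      have hsub : W.at' t₀ (t₀ + 2 * π) ⊆ Finset.univ.erase (Sum.inr i₀) := by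
        intro i hi
        rw [Finset.mem_erase]
        refine ⟨?_, Finset.mem_univ _⟩
        rintro rfl
        have := (W.mem_at.1 hi).2
        rw [hzr, hi₀] at this
        exact lt_irrefl _ this
      have := Finset.card_le_card hsub
      rw [Finset.card_erase_of_mem (Finset.mem_univ _)] at this
      simpa using this
    have hcard' : ((W.at' t₀ (t₀ + 2 * π)).card : ℝ) ≤ 11 := by exact_mod_cast hcard
    have hmul := mul_le_mul_of_nonneg_left hcard' hsk.le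
    have hmin : 0 ≤ min (y1 * ((W.F t₀ - 1) + (W.F (t₀ + 2 * π) - 1))) (sg * kp) :=
      le_min (mul_nonneg hy.le (by linarith)) hsk.le
    rw [hsum0, hcl2] at hz
    nlinarith

end Pool.Agent.Hex
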