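import Mathlib

/-!
# MP_3c650e: common definitions

Piecewise sinusoidal functions (`Pw`), support function of a hexagon, constants.
-/

set_option autoImplicit false

open Real Set

namespace Pool.Agent.Hex

/-! ### Constants -/

/-- `σ = 4 (2 - √3) = 1 / cos² (π/12)`. -/
noncomputable def sg : ℝ := 4 * (2 - √3)

/-- `κ = π/6 - 1/2`. -/
noncomputable def kp : ℝ := π / 6 - 1 / 2

/-- `y₁ = σκ / (2(σ-1))`. -/
noncomputable def y1 : ℝ := sg * kp / (2 * (sg - 1))

/-! ### Piecewise sinusoidal functions -/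

/-- Data of a solution of `F'' + F = ∑ m_i δ_{z_i}`. -/
structure Pw (ι : Type) where
  α : ℝ
  β : ℝ
  m : ι → ℝ
  z : ι → ℝ

namespace Pw

variable {ι : Type} [Fintype ι]

/-- The function. -/
noncomputable def F (P : Pw ι) (u : ℝ) : ℝ :=
  P.α * cos u + P.β * sin u + ∑ i, P.m i * (if P.z i ≤ u then sin (u - P.z i) else 0)

/-- Right derivative. -/
noncomputable def R (P : Pw ι) (u : ℝ) : ℝ :=
  -(P.α * sin u) + P.β * cos u + ∑ i, P.m i * (if P.z i ≤ u then cos (u - P.z i) else 0)

/-- Left derivative. -/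
noncomputable def L (P : Pw ι) (u : ℝ) : ℝ :=
  -(P.α * sin u) + P.β * cos u + ∑ i, P.m i * (if P.z i < u then cos (u - P.z i) else 0)

/-- An antiderivative of `F`. -/
noncomputable def A (P : Pw ι) (u : ℝ) : ℝ :=
  P.α * sin u - P.β * cos u + ∑ i, P.m i * (if P.z i ≤ u then 1 - cos (u - P.z i) else 0)

/-- The atoms in the open interval `(p, q)`. -/
noncomputable def at' (P : Pw ι) (p q : ℝ) : Finset ι :=
  Finset.univ.filter (fun i => p < P.z i ∧ P.z i < q)

/-- Sum of two piecewise sinusoidal functions. -/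
def add {κ : Type} (P : Pw ι) (Q : Pw κ) : Pw (ι ⊕ κ) :=
  ⟨P.α + Q.α, P.β + Q.β, Sum.elim P.m Q.m, Sum.elim P.z Q.z⟩

/-- Add the sinusoid `a cos u + b sin u`. -/
def shift (P : Pw ι) (a b : ℝ) : Pw ι := ⟨P.α + a, P.β + b, P.m, P.z⟩

end Pw

/-! ### Plane geometry -/

/-- The Euclidean plane. -/
abbrev E : Type := EuclideanSpace ℝ (Fin 2)

/-- Unit vector of direction `u`. -/
noncomputable def e (u : ℝ) : E := !₂[cos u, sin u]

/-- The derivative of `e`: unit vector of direction `u + π/2`. -/
noncomputable def e' (u : ℝ) : E := !₂[-sin u, cos u]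

/-- Inner product of `P` with `e u`. -/
noncomputable def dt (P : E) (u : ℝ) : ℝ := P 0 * cos u + P 1 * sin u

/-- Cross product. -/
noncomputable def cross (a b : E) : ℝ := a 0 * b 1 - a 1 * b 0

/-- Counterclockwise strictly convex hexagons: every vertex other than the two ends lies strictly to
the left of each directed side. -/
def CCW (v : Fin 6 → E) : Prop :=
  ∀ i j : Fin 6, j ≠ i → j ≠ i + 1 → 0 < cross (v (i + 1) - v i) (v j - v i)

/-- Perimeter of a closed hexagon. -/
noncomputable def perim (v : Fin 6 → E) : ℝ := ∑ i, dist (v i) (v (i + 1))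

/-- Support function. -/
noncomputable def hs (v : Fin 6 → E) (u : ℝ) : ℝ :=
  Finset.univ.sup' Finset.univ_nonempty (fun j => dt (v j) u)

/-- The data of normals: increasing angles `μ`, side lengths `s`. -/
structure Normals (v : Fin 6 → E) (μ s : Fin 6 → ℝ) : Prop where
  pos : ∀ i, 0 < s i
  mono : StrictMono μ
  last : μ 5 < μ 0 + 2 * π
  edge : ∀ i, v (i + 1) - v i = s i • e' (μ i)

/-- Components: `y` is a point at distance `≤ 1` from all vertices, `y + e a` and `y + e c` are
vertices and no vertex is `y + e t` with `a < t < c`. -/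
structure IsComp (v : Fin 6 → E) (y : E) (a c : ℝ) : Prop where
  ball : ∀ j, dist y (v j) ≤ 1
  lt : a < c
  left : ∃ j, v j = y + e a
  right : ∃ j, v j = y + e c
  mid : ∀ t, a < t → t < c → ∀ j, v j ≠ y + e t

end Pool.Agent.Hex
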