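import Pool.Agent.Work.MP_3c650e_co.GeoCore

/-! Module Final. -/

set_option autoImplicit false

open Real Set
open scoped Pointwise

namespace Pool.Agent.Hex

/-- The hexagon with vertices `v 0, …, v 5` in this cyclic order is convex with all interior angles
smaller than `π`: all other vertices lie strictly on the same side of each side line. -/
def IsConvexHexagon (v : Fin 6 → E) : Prop :=
  (∀ i j : Fin 6, j ≠ i → j ≠ i + 1 → 0 < cross (v (i + 1) - v i) (v j - v i)) ∨
  (∀ i j : Fin 6, j ≠ i → j ≠ i + 1 → cross (v (i + 1) - v i) (v j - v i) < 0)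

/-- The self Chebyshev radius of a set `M`: the infimum over `y ∈ M` of `sup_{x ∈ M} |x - y|`. -/
noncomputable def selfChebyshevRadius (M : Set E) : ℝ :=
  sInf ((fun y => sSup ((fun x => dist x y) '' M)) '' M)

private theorem isCompact_hull (v : Fin 6 → E) : IsCompact (convexHull ℝ (range v)) :=
  (Set.finite_range v).isCompact_convexHull ℝ

private theorem frontier_subset_hull (v : Fin 6 → E) :
    frontier (convexHull ℝ (range v)) ⊆ convexHull ℝ (range v) :=
  (isCompact_hull v).isClosed.frontier_subset

/-- Every point of the boundary has a vertex at distance at least the self Chebyshev radius. -/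
private theorem exists_far_vertex (v : Fin 6 → E) {x : E}
    (hx : x ∈ frontier (convexHull ℝ (range v))) :
    ∃ j, selfChebyshevRadius (frontier (convexHull ℝ (range v))) ≤ dist x (v j) := by
  set Γ := frontier (convexHull ℝ (range v)) with hΓ
  obtain ⟨j, -, hj⟩ := Finset.exists_max_image Finset.univ (fun j => dist x (v j))
    ⟨0, Finset.mem_univ _⟩
  refine ⟨j, ?_⟩
  have h1 : selfChebyshevRadius Γ ≤ sSup ((fun x' => dist x' x) '' Γ) := by
    apply csInf_le
    · refine ⟨0, ?_⟩
      rintro _ ⟨y, _, rfl⟩
      apply Real.sSup_nonneg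
      rintro _ ⟨z, _, rfl⟩
      exact dist_nonneg
    · exact ⟨x, hx, rfl⟩
  refine h1.trans (csSup_le ⟨_, x, hx, rfl⟩ ?_)
  rintro _ ⟨x', hx', rfl⟩
  obtain ⟨z, ⟨k, rfl⟩, hz⟩ := convexHull_exists_dist_ge (frontier_subset_hull v hx') x
  refine hz.trans ?_
  rw [dist_comm]
  exact hj k (Finset.mem_univ _)

private theorem ccw_case (v : Fin 6 → E) (hv : CCW v) :
    3 * sg * selfChebyshevRadius (frontier (convexHull ℝ (range v))) ≤ perim v := by
  have hsg := sg_gt_one
  have hper : 0 ≤ perim v := Finset.sum_nonneg (fun _ _ => dist_nonneg)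
  set δ := selfChebyshevRadius (frontier (convexHull ℝ (range v))) with hδ
  rcases le_or_gt δ 0 with h0 | h0
  · nlinarith
  · have hδi : 0 < δ⁻¹ := inv_pos.2 h0
    set w : Fin 6 → E := fun i => δ⁻¹ • v i with hw
    have hCCW : CCW w := by
      intro i j h1 h2
      have := hv i j h1 h2
      have h3 : cross (w (i + 1) - w i) (w j - w i) =
          δ⁻¹ ^ 2 * cross (v (i + 1) - v i) (v j - v i) := by
        simp only [hw, cross, PiLp.sub_apply, PiLp.smul_apply, smul_eq_mul]
        ring
      rw [h3]
      positivity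
    have hrange : range w = δ⁻¹ • range v := by
      rw [hw]
      ext x
      simp only [mem_range, mem_smul_set]
      constructor
      · rintro ⟨i, rfl⟩; exact ⟨v i, ⟨i, rfl⟩, rfl⟩
      · rintro ⟨_, ⟨i, rfl⟩, rfl⟩; exact ⟨i, rfl⟩
    have hfront : frontier (convexHull ℝ (range w)) =
        δ⁻¹ • frontier (convexHull ℝ (range v)) := by
      rw [hrange, convexHull_smul]
      have := (Homeomorph.smulOfNeZero δ⁻¹ hδi.ne' (α := E)).image_frontier
        (convexHull ℝ (range v))
      exact this.symm
    have hgeo := geo_core w hCCW (by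
      intro x hx
      rw [hfront] at hx
      obtain ⟨x', hx', rfl⟩ := hx
      obtain ⟨j, hj⟩ := exists_far_vertex v hx'
      refine ⟨j, ?_⟩
      simp only [hw]
      rw [dist_smul₀, Real.norm_of_nonneg hδi.le]
      calc (1:ℝ) = δ⁻¹ * δ := (inv_mul_cancel₀ h0.ne').symm
        _ ≤ δ⁻¹ * dist x' (v j) := by gcongr)
    have hp : perim w = δ⁻¹ * perim v := by
      unfold perim
      rw [Finset.mul_sum]
      refine Finset.sum_congr rfl (fun i _ => ?_)
      simp only [hw]
      rw [dist_smul₀, Real.norm_of_nonneg hδi.le]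
    rw [hp] at hgeo
    have := mul_le_mul_of_nonneg_left hgeo h0.le
    have h5 : δ * (δ⁻¹ * perim v) = perim v := by
      rw [← mul_assoc, mul_inv_cancel₀ h0.ne', one_mul]
    rw [h5] at this
    linarith

private theorem fin_aux : ∀ i : Fin 6, -(i + 1) + 1 = -i := by decide

private theorem fin_aux2 : ∀ i : Fin 6, -(-i - 1) = i + 1 := by decide

private theorem fin_aux3 : ∀ i : Fin 6, -(-i - 1 + 1) = i := by decide

theorem final (v : Fin 6 → E) (hv : IsConvexHexagon v) :
    12 * (2 - √3) * selfChebyshevRadius (frontier (convexHull ℝ (range v))) ≤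
      ∑ i, dist (v i) (v (i + 1)) := by
  have h3 : 12 * (2 - √3) = 3 * sg := by unfold sg; ring
  rw [h3]
  rcases hv with hv | hv
  · exact ccw_case v hv
  · set w : Fin 6 → E := fun i => v (-i) with hw
    have hCCW : CCW w := by
      intro i j h1 h2
      have h4 := hv (-(i + 1)) (-j) (fun h => h2 (neg_injective h))
        (fun h => h1 (by
          have : -(i + 1) + 1 = -i := fin_aux i
          rw [this] at h
          exact neg_injective h))
      have h5 : -(i + 1) + 1 = -i := fin_aux i
      rw [h5] at h4
      simp only [hw]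
      simp only [cross, PiLp.sub_apply] at h4 ⊢
      linarith
    have hrange : range w = range v := by
      ext x
      constructor
      · rintro ⟨i, rfl⟩; exact ⟨-i, rfl⟩
      · rintro ⟨i, rfl⟩; exact ⟨-i, by simp [hw]⟩
    have hp : perim w = ∑ i, dist (v i) (v (i + 1)) := by
      unfold perim
      rw [← Equiv.sum_comp ((Equiv.neg (Fin 6)).trans (Equiv.subRight (1 : Fin 6)))]
      refine Finset.sum_congr rfl (fun i _ => ?_)
      simp only [Equiv.trans_apply, Equiv.neg_apply, Equiv.subRight_apply, hw]
      rw [dist_comm, fin_aux2, fin_aux3]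
    have := ccw_case w hCCW
    rw [hrange, hp] at this
    exact this

end Pool.Agent.Hex
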