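import Pool.Agent.Work.MP_3c650e_co.Defs

/-! Module Perim: perimeter lower bounds. -/

set_option autoImplicit false

open Real Set

namespace Pool.Agent.Hex

namespace Perim

/-- vertices indexed by natural numbers -/
def f (v : Fin 6 → E) (n : ℕ) : E := v (Fin.ofNat 6 n)

/-- arc length -/
noncomputable def arc (v : Fin 6 → E) (m n : ℕ) : ℝ :=
  ∑ i ∈ Finset.Ico m n, dist (f v i) (f v (i + 1))

theorem arc_add (v : Fin 6 → E) {l m n : ℕ} (h : l ≤ m) (h' : m ≤ n) :
    arc v l m + arc v m n = arc v l n := by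
  unfold arc
  exact Finset.sum_Ico_consecutive _ h h'

theorem dist_le_arc (v : Fin 6 → E) {m n : ℕ} (h : m ≤ n) : dist (f v m) (f v n) ≤ arc v m n :=
  dist_le_Ico_sum_dist _ h

theorem perim_eq (v : Fin 6 → E) : perim v = arc v 0 6 := by
  unfold perim arc f
  rw [Fin.sum_univ_six]
  simp only [Finset.sum_Ico_eq_sum_range, Nat.sub_zero, Finset.sum_range_succ, Finset.sum_range_zero]
  simp
  rfl

theorem f_val (v : Fin 6 → E) (i : Fin 6) : f v i.val = v i := by
  unfold f
  congr 1
  ext
  simp [Fin.ofNat, Nat.mod_eq_of_lt i.2]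

theorem f_six (v : Fin 6 → E) : f v 6 = f v 0 := rfl

theorem sorted (v : Fin 6 → E) {a b c : ℕ} (hab : a ≤ b) (hbc : b ≤ c) (hc : c ≤ 6) :
    dist (f v a) (f v b) + dist (f v b) (f v c) + dist (f v c) (f v a) ≤ perim v := by
  have h1 := dist_le_arc v hab
  have h2 := dist_le_arc v hbc
  have h3 := dist_le_arc v hc
  have h4 := dist_le_arc v (Nat.zero_le a)
  have h5 := arc_add v (Nat.zero_le a) hab
  have h6 := arc_add v (Nat.zero_le b) hbc
  have h7 := arc_add v (Nat.zero_le c) hc
  rw [f_six] at h3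
  have h8 := dist_triangle (f v c) (f v 0) (f v a)
  rw [perim_eq]
  linarith

end Perim

open Perim

/-- The perimeter of a closed hexagon is at least the perimeter of the triangle of three of its
vertices. -/
theorem perim_ge_triangle (v : Fin 6 → E) (i j k : Fin 6) :
    dist (v i) (v j) + dist (v j) (v k) + dist (v k) (v i) ≤ perim v := by
  rw [← f_val v i, ← f_val v j, ← f_val v k]
  have hi := i.2
  have hj := j.2
  have hk := k.2
  generalize (i : ℕ) = a at *
  generalize (j : ℕ) = b at *
  generalize (k : ℕ) = c at *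
  have e1 := dist_comm (f v a) (f v b)
  have e2 := dist_comm (f v b) (f v c)
  have e3 := dist_comm (f v c) (f v a)
  rcases le_total a b with h1 | h1 <;> rcases le_total b c with h2 | h2 <;>
    rcases le_total a c with h3 | h3
  · have := sorted v h1 h2 hk.le; linarith
  · have := sorted v h1 h2 hk.le; linarith
  · have := sorted v h3 h2 hj.le; linarith
  · have := sorted v h3 h1 hj.le; linarith
  · have := sorted v h1 h3 hk.le; linarith
  · have := sorted v h2 h3 hi.le; linarith
  · have := sorted v h2 h1 hi.le; linarith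
  · have := sorted v h2 h1 hi.le; linarith

namespace Perim

theorem e_zero (u : ℝ) : e u 0 = cos u := by simp [e]

theorem e_one (u : ℝ) : e u 1 = sin u := by simp [e]

theorem dist_y (y : E) (a : ℝ) : dist (y + e a) y = 1 := by
  rw [EuclideanSpace.dist_eq, Real.sqrt_eq_one]
  simp only [Fin.sum_univ_two, Real.dist_eq, sq_abs, PiLp.add_apply, e_zero, e_one]
  have := sin_sq_add_cos_sq a
  linarith

theorem dist_ee (y : E) {a c : ℝ} (hac : a ≤ c) (hπ : c - a ≤ π) :
    dist (y + e c) (y + e a) = 2 * sin ((c - a) / 2) := by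
  have h0 : 0 ≤ sin ((c - a) / 2) := sin_nonneg_of_nonneg_of_le_pi (by linarith) (by linarith [pi_pos])
  refine (sq_eq_sq₀ dist_nonneg (by positivity)).mp ?_
  rw [EuclideanSpace.dist_eq, Real.sq_sqrt (by positivity)]
  simp only [Fin.sum_univ_two, Real.dist_eq, sq_abs, PiLp.add_apply, e_zero, e_one]
  have h1 : cos (c - a) = 1 - 2 * sin ((c - a) / 2) ^ 2 := by
    have h2 := cos_two_mul ((c - a) / 2)
    have h3 := sin_sq_add_cos_sq ((c - a) / 2)
    rw [mul_div_cancel₀ (c - a) (two_ne_zero)] at h2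
    linarith
  have h2 := cos_sub c a
  have h3 := sin_sq_add_cos_sq a
  have h4 := sin_sq_add_cos_sq c
  nlinarith

end Perim

/-- If `y` is in the hull and two vertices are `y + e a`, `y + e c`, `0 ≤ c - a ≤ π`, then
`2 + 2 sin ((c-a)/2) ≤ L`. -/
theorem perim_ge (v : Fin 6 → E) {y : E} {a c : ℝ} (hy : y ∈ convexHull ℝ (range v))
    (ha : ∃ j, v j = y + e a) (hc : ∃ j, v j = y + e c) (hac : a ≤ c) (hπ : c - a ≤ π) :
    2 + 2 * sin ((c - a) / 2) ≤ perim v := by
  obtain ⟨i, hi⟩ := ha
  obtain ⟨j, hj⟩ := hc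
  have hcv : ConvexOn ℝ (convexHull ℝ (range v)) fun w : E => dist (v i) w + dist w (v j) := by
    have h1 := (convexOn_dist (v i) (convex_convexHull ℝ (range v)))
    have h2 := (convexOn_dist (v j) (convex_convexHull ℝ (range v)))
    have h3 := h1.add h2
    refine h3.congr ?_
    intro w _
    simp only [Pi.add_apply]
    rw [dist_comm w (v i)]
  obtain ⟨w, hw, hw'⟩ := hcv.exists_ge_of_mem_convexHull (subset_convexHull ℝ _) hy
  obtain ⟨k, rfl⟩ := hw
  have h1 := perim_ge_triangle v i k j
  have h2 : dist (v i) y = 1 := by rw [hi]; exact dist_y y a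
  have h3 : dist y (v j) = 1 := by rw [hj, dist_comm]; exact dist_y y c
  have h4 : dist (v j) (v i) = 2 * sin ((c - a) / 2) := by
    rw [hi, hj]
    exact dist_ee y hac hπ
  linarith

end Pool.Agent.Hex
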