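import Pool.Agent.Work.MP_3c650e_co.Defs

/-! Module Step1: points at distance `≤ 1` from all vertices. -/

set_option autoImplicit false

open Real Set

namespace Pool.Agent.Hex

namespace Step1

/-- vertices indexed by natural numbers -/
def f (v : Fin 6 → E) (n : ℕ) : E := v (Fin.ofNat 6 n)

/-- arc length -/
noncomputable def arc (v : Fin 6 → E) (m n : ℕ) : ℝ :=
  ∑ i ∈ Finset.Ico m n, dist (f v i) (f v (i + 1))

theorem arc_add (v : Fin 6 → E) {l m n : ℕ} (h : l ≤ m) (h' : m ≤ n) :
    arc v l m + arc v m n = arc v l n := by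
  unfold arc
  exact Finset.sum_Ico_consecutive _ h h'

theorem dist_le_arc (v : Fin 6 → E) {m n : ℕ} (h : m ≤ n) : dist (f v m) (f v n) ≤ arc v m n :=
  dist_le_Ico_sum_dist _ h

theorem perim_eq (v : Fin 6 → E) : perim v = arc v 0 6 := by
  unfold perim arc f
  rw [Fin.sum_univ_six]
  simp only [Finset.sum_Ico_eq_sum_range, Nat.sub_zero, Finset.sum_range_succ, Finset.sum_range_zero]
  simp
  rfl

theorem f_val (v : Fin 6 → E) (i : Fin 6) : f v i.val = v i := by
  unfold f
  congr 1
  ext
  simp [Fin.ofNat, Nat.mod_eq_of_lt i.2]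

theorem f_six (v : Fin 6 → E) : f v 6 = f v 0 := rfl

theorem f_mem (v : Fin 6 → E) (n : ℕ) : f v n ∈ convexHull ℝ (range v) :=
  subset_convexHull ℝ _ ⟨_, rfl⟩

/-- the point of the boundary at arc length `t` -/
theorem exists_point (v : Fin 6 → E) (t : ℝ) (h0 : 0 ≤ t) (hL : t ≤ arc v 0 6) :
    ∃ k < 6, ∃ Q ∈ convexHull ℝ (range v), dist (f v k) Q ≤ t - arc v 0 k ∧
      dist Q (f v (k + 1)) ≤ arc v 0 (k + 1) - t := by
  classical
  have hex : ∃ n, t ≤ arc v 0 n := ⟨6, hL⟩
  have hspec := Nat.find_spec hex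
  have hmin := fun m => Nat.find_min (m := m) hex
  have hle : Nat.find hex ≤ 6 := Nat.find_min' hex hL
  generalize Nat.find hex = n at *
  rcases Nat.eq_zero_or_pos n with hn | hn
  · subst hn
    have h1 : arc v 0 0 = 0 := by simp [arc]
    have ht : t = 0 := by linarith
    refine ⟨0, by norm_num, f v 0, f_mem v 0, ?_, ?_⟩
    · rw [dist_self, ht, h1]; norm_num
    · have := dist_le_arc v (Nat.zero_le 1)
      rw [ht]
      simpa using this
  · obtain ⟨k, rfl⟩ : ∃ k, n = k + 1 := ⟨n - 1, by omega⟩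
    have hk := hmin k (by omega)
    push Not at hk
    have hs : arc v 0 (k + 1) = arc v 0 k + dist (f v k) (f v (k + 1)) := by
      rw [← arc_add v (Nat.zero_le k) (Nat.le_succ k)]
      congr 1
      simp [arc]
    set s := dist (f v k) (f v (k + 1)) with hsdef
    have hs0 : 0 < s := by linarith
    refine ⟨k, by omega, AffineMap.lineMap (f v k) (f v (k + 1)) ((t - arc v 0 k) / s), ?_, ?_, ?_⟩
    · apply (convex_convexHull ℝ (range v)).segment_subset (f_mem v k) (f_mem v (k + 1))
      rw [segment_eq_image_lineMap]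
      refine ⟨_, ⟨by apply div_nonneg <;> linarith, ?_⟩, rfl⟩
      rw [div_le_one hs0]
      linarith
    · rw [dist_left_lineMap, Real.norm_eq_abs, abs_of_nonneg (by apply div_nonneg <;> linarith),
        ← hsdef, div_mul_cancel₀ _ hs0.ne']
    · rw [dist_lineMap_right, Real.norm_eq_abs, ← hsdef]
      have h1 : 0 ≤ 1 - (t - arc v 0 k) / s := by
        rw [sub_nonneg, div_le_one hs0]
        linarith
      rw [abs_of_nonneg h1, sub_mul, div_mul_cancel₀ _ hs0.ne']
      linarith

end Step1

open Step1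

/-- A point of the hull at distance `≤ L/4` from all vertices (midpoint of `v 0` and of the
antipodal point of the perimeter). -/
theorem exists_center (v : Fin 6 → E) :
    ∃ P ∈ convexHull ℝ (range v), ∀ j, dist P (v j) ≤ perim v / 4 := by
  have hL0 : 0 ≤ arc v 0 6 := Finset.sum_nonneg fun _ _ => dist_nonneg
  obtain ⟨k, hk, Q, hQ, h1, h2⟩ := exists_point v (arc v 0 6 / 2) (by linarith) (by linarith)
  refine ⟨midpoint ℝ (f v 0) Q, ?_, ?_⟩
  · exact (convex_convexHull ℝ (range v)).midpoint_mem (f_mem v 0) hQ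
  · intro j
    rw [perim_eq, ← f_val v j]
    have hj := j.2
    generalize (j : ℕ) = b at *
    have h3 : dist (midpoint ℝ (f v 0) Q) (f v b) ≤
        (dist (f v 0) (f v b) + dist Q (f v b)) / 2 := by
      have h4 := dist_midpoint_midpoint_le (f v 0) Q (f v b) (f v b) (V := E)
      rw [midpoint_self] at h4
      exact h4
    have h5 : dist (f v 0) (f v b) + dist Q (f v b) ≤ arc v 0 6 / 2 := by
      rcases Nat.lt_or_ge k b with hb | hb
      · have e1 := dist_le_arc v (show k + 1 ≤ b from hb)
        have e2 := dist_le_arc v hj.le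
        have e3 := arc_add v (Nat.zero_le (k + 1)) (show k + 1 ≤ b from hb)
        have e4 := arc_add v (Nat.zero_le b) hj.le
        have e5 := dist_triangle Q (f v (k + 1)) (f v b)
        rw [f_six, dist_comm] at e2
        linarith
      · have e1 := dist_le_arc v hb
        have e2 := dist_le_arc v (Nat.zero_le b)
        have e3 := arc_add v (Nat.zero_le b) hb
        have e5 := dist_triangle Q (f v k) (f v b)
        rw [dist_comm Q (f v k), dist_comm (f v k) (f v b)] at e5
        linarith
    linarith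

theorem step1 (v : Fin 6 → E) (hL : perim v < 4)
    (hf : ∀ x ∈ frontier (convexHull ℝ (range v)), ∃ j, 1 ≤ dist x (v j)) :
    (∃ P : E, ∀ j, dist P (v j) ≤ 1) ∧
      ∀ P : E, (∀ j, dist P (v j) ≤ 1) → P ∈ convexHull ℝ (range v) := by
  obtain ⟨P₀, hP₀, h0⟩ := exists_center v
  have h0' : ∀ j, dist P₀ (v j) < 1 := fun j => lt_of_le_of_lt (h0 j) (by linarith)
  refine ⟨⟨P₀, fun j => (h0' j).le⟩, ?_⟩
  intro P hP
  by_contra hcon
  have hcl : IsClosed (convexHull ℝ (range v)) := (finite_range v).isClosed_convexHull ℝ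
  -- the first exit
  have hpre : IsPreconnected (segment ℝ P₀ P) := (convex_segment P₀ P).isPreconnected
  have hne : ¬ Disjoint (segment ℝ P₀ P) (frontier (convexHull ℝ (range v))) := by
    intro hd
    have hP₀i : P₀ ∈ interior (convexHull ℝ (range v)) := by
      by_contra hni
      have : P₀ ∈ frontier (convexHull ℝ (range v)) := ⟨subset_closure hP₀, hni⟩
      obtain ⟨j, hj⟩ := hf P₀ this
      exact absurd (h0' j) (not_lt.mpr hj)
    obtain ⟨x, _, hx1, hx2⟩ := hpre (interior (convexHull ℝ (range v)))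
      (convexHull ℝ (range v))ᶜ isOpen_interior hcl.isOpen_compl (by
        intro x hx
        by_cases hxi : x ∈ interior (convexHull ℝ (range v))
        · exact Or.inl hxi
        · refine Or.inr fun hxh => ?_
          exact Set.disjoint_left.mp hd hx ⟨subset_closure hxh, hxi⟩)
      ⟨P₀, left_mem_segment ℝ P₀ P, hP₀i⟩ ⟨P, right_mem_segment ℝ P₀ P, hcon⟩
    exact hx2 (interior_subset hx1)
  obtain ⟨x, hx, hxf⟩ := Set.not_disjoint_iff.mp hne
  obtain ⟨a, b, ha, hb, hab, rfl⟩ := hx
  obtain ⟨j, hj⟩ := hf _ hxf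
  have ha0 : 0 < a := by
    rcases ha.lt_or_eq with h | h
    · exact h
    · exfalso
      rw [← h, zero_add] at hab
      rw [← h, hab, zero_smul, one_smul, zero_add] at hxf
      exact hcon (hcl.frontier_subset hxf)
  have h1 : dist (a • P₀ + b • P) (v j) ≤ a * dist P₀ (v j) + b * dist P (v j) := by
    have := (convexOn_dist (v j) convex_univ).2 (mem_univ P₀) (mem_univ P) ha hb hab
    simpa [smul_eq_mul] using this
  have h2 := h0' j
  have h3 := hP j
  nlinarith

end Pool.Agent.Hex
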