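import Pool.Agent.Work.MP_3c650e_co.SuppA

/-! Module Supp (board name SuppB): representation of the support function as a `Pw`. -/

set_option autoImplicit false

open Real Set

namespace Pool.Agent.Hex

theorem transfer_aux (g : ℝ → ℝ) (hper : ∀ u, g (u + 2 * π) = g u) (s μ : Fin 6 → ℝ)
    (h1 : ∑ i, s i * cos (μ i) = 0) (h2 : ∑ i, s i * sin (μ i) = 0) (b : ℝ)
    (hb : ∀ i, μ i ∈ Ioc b (b + 2 * π)) (α β : ℝ)
    (hrep : ∀ u ∈ Icc b (b + 2 * π), g u = (Pw.mk α β s μ).F u) (t₁ : ℝ)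
    (ht₁ : t₁ ∈ Ico b (b + 2 * π)) (z : Fin 6 → ℝ)
    (hz : ∀ i, z i = if t₁ < μ i then μ i else μ i + 2 * π) :
    ∃ α' β' : ℝ, ∀ u ∈ Icc t₁ (t₁ + 2 * π), g u = (Pw.mk α' β' s z).F u := by
  have hclose : ∀ u, ∑ i, s i * sin (u - μ i) = 0 := by
    intro u
    have : ∀ i, s i * sin (u - μ i) = sin u * (s i * cos (μ i)) - cos u * (s i * sin (μ i)) := by
      intro i; rw [Real.sin_sub]; ring
    rw [Finset.sum_congr rfl (fun i _ => this i), Finset.sum_sub_distrib, ← Finset.mul_sum,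
      ← Finset.mul_sum, h1, h2]
    ring
  refine ⟨α - ∑ i, (if μ i ≤ t₁ then s i * sin (μ i) else 0),
    β + ∑ i, (if μ i ≤ t₁ then s i * cos (μ i) else 0), ?_⟩
  intro u hu
  have hexp : (α - ∑ i, (if μ i ≤ t₁ then s i * sin (μ i) else 0)) * cos u +
      (β + ∑ i, (if μ i ≤ t₁ then s i * cos (μ i) else 0)) * sin u =
      α * cos u + β * sin u + ∑ i, (if μ i ≤ t₁ then s i * sin (u - μ i) else 0) := by
    have : ∀ i, (if μ i ≤ t₁ then s i * sin (u - μ i) else 0) =
        (if μ i ≤ t₁ then s i * cos (μ i) else 0) * sin u -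
        (if μ i ≤ t₁ then s i * sin (μ i) else 0) * cos u := by
      intro i
      by_cases h : μ i ≤ t₁
      · simp only [h, if_true]; rw [Real.sin_sub]; ring
      · simp only [h, if_false]; ring
    rw [Finset.sum_congr rfl (fun i _ => this i), Finset.sum_sub_distrib, ← Finset.sum_mul,
      ← Finset.sum_mul]
    ring
  show g u = (α - ∑ i, (if μ i ≤ t₁ then s i * sin (μ i) else 0)) * cos u +
      (β + ∑ i, (if μ i ≤ t₁ then s i * cos (μ i) else 0)) * sin u +
      ∑ i, s i * (if z i ≤ u then sin (u - z i) else 0)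
  rw [hexp]
  have hpi := Real.pi_pos
  rcases le_or_gt u (b + 2 * π) with hub | hub
  · rw [hrep u ⟨by linarith [ht₁.1, hu.1], hub⟩]
    show α * cos u + β * sin u + ∑ i, s i * (if μ i ≤ u then sin (u - μ i) else 0) = _
    rw [add_assoc (α * cos u + β * sin u), ← Finset.sum_add_distrib]
    congr 1
    refine Finset.sum_congr rfl (fun i _ => ?_)
    rw [hz i]
    by_cases h : μ i ≤ t₁
    · have h' : ¬ t₁ < μ i := not_lt.mpr h
      have h3 : μ i ≤ u := h.trans hu.1
      have h4 : ¬ (μ i + 2 * π ≤ u) := by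
        have := (hb i).1
        intro h5
        linarith
      simp only [h, h', h3, h4, if_true, if_false]
      ring
    · have h' : t₁ < μ i := not_le.mp h
      simp only [h, h', if_true, if_false]
      ring
  · have hg : g u = g (u - 2 * π) := by
      have := hper (u - 2 * π)
      rwa [sub_add_cancel] at this
    rw [hg, hrep (u - 2 * π) ⟨by linarith, by linarith [hu.2, ht₁.2]⟩]
    show α * cos (u - 2 * π) + β * sin (u - 2 * π) +
      ∑ i, s i * (if μ i ≤ u - 2 * π then sin (u - 2 * π - μ i) else 0) = _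
    rw [Real.cos_sub_two_pi, Real.sin_sub_two_pi, add_assoc (α * cos u + β * sin u),
      ← Finset.sum_add_distrib]
    congr 1
    rw [eq_comm, ← sub_eq_zero, ← Finset.sum_sub_distrib]
    refine Eq.trans (Finset.sum_congr rfl (fun i _ => ?_)) (hclose u)
    rw [hz i]
    have e1 : sin (u - 2 * π - μ i) = sin (u - μ i) := by
      rw [show u - 2 * π - μ i = (u - μ i) - 2 * π by ring, Real.sin_sub_two_pi]
    have e2 : sin (u - (μ i + 2 * π)) = sin (u - μ i) := by
      rw [show u - (μ i + 2 * π) = (u - μ i) - 2 * π by ring, Real.sin_sub_two_pi]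
    rw [e1]
    by_cases h : μ i ≤ t₁
    · have h' : ¬ t₁ < μ i := not_lt.mpr h
      simp only [h, h', if_true, if_false]
      rw [e2]
      by_cases h3 : μ i ≤ u - 2 * π
      · have h4 : μ i + 2 * π ≤ u := by linarith
        simp only [h3, h4, if_true]
        ring
      · have h4 : ¬ (μ i + 2 * π ≤ u) := by
          intro h5; exact h3 (by linarith)
        simp only [h3, h4, if_false]
        ring
    · have h' : t₁ < μ i := not_le.mp h
      have h3 : ¬ (μ i ≤ u - 2 * π) := by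
        intro h5
        have := hu.2
        linarith
      have h4 : μ i ≤ u := by
        have := (hb i).2
        linarith
      simp only [h, h', h3, h4, if_true, if_false]
      ring

/-- Change of window for `2π`-periodic functions. -/
theorem rep_transfer (g : ℝ → ℝ) (hper : ∀ u, g (u + 2 * π) = g u) (s μ : Fin 6 → ℝ)
    (h1 : ∑ i, s i * cos (μ i) = 0) (h2 : ∑ i, s i * sin (μ i) = 0) (b : ℝ)
    (hb : ∀ i, μ i ∈ Ioc b (b + 2 * π)) (α β : ℝ)
    (hrep : ∀ u ∈ Icc b (b + 2 * π), g u = (Pw.mk α β s μ).F u) (t₀ : ℝ) :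
    ∃ α' β' : ℝ, ∀ u ∈ Icc t₀ (t₀ + 2 * π),
      g u = (Pw.mk α' β' s (fun i => toIocMod two_pi_pos t₀ (μ i))).F u := by
  have hpi := Real.pi_pos
  set t₁ := toIcoMod two_pi_pos b t₀ with ht₁
  set k := toIcoDiv two_pi_pos b t₀ with hk
  have ht₁m : t₁ ∈ Ico b (b + 2 * π) := toIcoMod_mem_Ico two_pi_pos b t₀
  have ht₀ : t₀ = t₁ + k * (2 * π) := by
    have := toIcoMod_add_toIcoDiv_zsmul two_pi_pos b t₀
    rw [zsmul_eq_mul] at this
    exact this.symm
  have hz : ∀ i, toIocMod two_pi_pos t₁ (μ i) = if t₁ < μ i then μ i else μ i + 2 * π := by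
    intro i
    have hbi := hb i
    by_cases h : t₁ < μ i
    · rw [if_pos h]
      rw [toIocMod_eq_self]
      exact ⟨h, by linarith [hbi.2, ht₁m.1]⟩
    · rw [if_neg h]
      rw [not_lt] at h
      rw [← toIocMod_add_right two_pi_pos t₁ (μ i), toIocMod_eq_self]
      exact ⟨by linarith [hbi.1, ht₁m.2], by linarith⟩
  obtain ⟨α', β', hab⟩ := transfer_aux g hper s μ h1 h2 b hb α β hrep t₁ ht₁m
    (fun i => toIocMod two_pi_pos t₁ (μ i)) hz
  refine ⟨α', β', ?_⟩
  intro u hu
  have hgk : g u = g (u - k * (2 * π)) := by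
    have hp : Function.Periodic g (2 * π) := hper
    exact (hp.sub_int_mul_eq k).symm
  rw [hgk, hab (u - k * (2 * π)) ⟨by linarith [hu.1], by linarith [hu.2]⟩]
  have hm : ∀ i, toIocMod two_pi_pos t₀ (μ i) = toIocMod two_pi_pos t₁ (μ i) + k * (2 * π) := by
    intro i
    have := toIocMod_add_zsmul' two_pi_pos t₁ (μ i) k
    rw [zsmul_eq_mul] at this
    rw [ht₀, this]
  show α' * cos (u - k * (2 * π)) + β' * sin (u - k * (2 * π)) +
      ∑ i, s i * (if toIocMod two_pi_pos t₁ (μ i) ≤ u - k * (2 * π) then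
        sin (u - k * (2 * π) - toIocMod two_pi_pos t₁ (μ i)) else 0) =
    α' * cos u + β' * sin u + ∑ i, s i * (if toIocMod two_pi_pos t₀ (μ i) ≤ u then
        sin (u - toIocMod two_pi_pos t₀ (μ i)) else 0)
  rw [Real.cos_sub_int_mul_two_pi, Real.sin_sub_int_mul_two_pi]
  congr 1
  refine Finset.sum_congr rfl (fun i _ => ?_)
  rw [hm i]
  have e1 : u - k * (2 * π) - toIocMod two_pi_pos t₁ (μ i) =
      u - (toIocMod two_pi_pos t₁ (μ i) + k * (2 * π)) := by ring
  rw [e1]
  by_cases h : toIocMod two_pi_pos t₁ (μ i) ≤ u - k * (2 * π)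
  · rw [if_pos h, if_pos (by linarith)]
  · rw [if_neg h, if_neg (by intro h'; exact h (by linarith))]

theorem hs_periodic (v : Fin 6 → E) (u : ℝ) : hs v (u + 2 * π) = hs v u := by
  simp only [hs, dt, Real.cos_add_two_pi, Real.sin_add_two_pi]

theorem Normals.rep {v : Fin 6 → E} {μ s : Fin 6 → ℝ} (h : Normals v μ s) (t₀ : ℝ) :
    ∃ α β : ℝ, ∀ u ∈ Icc t₀ (t₀ + 2 * π),
      hs v u = (Pw.mk α β s (fun i => toIocMod two_pi_pos t₀ (μ i))).F u := by
  refine rep_transfer (hs v) (hs_periodic v) s μ h.closing_cos h.closing_sin (μ 5 - 2 * π) ?_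
    (v 0 0) (v 0 1) ?_ t₀
  · intro i
    have h0 : μ 0 ≤ μ i := h.mono.monotone (Fin.zero_le i)
    have h5 : μ i ≤ μ 5 := h.mono.monotone (by
      have : (5 : Fin 6) = Fin.last 5 := rfl
      rw [this]; exact Fin.le_last i)
    exact ⟨by linarith [h.last], by linarith⟩
  · intro u hu
    rw [h.rep_base (u := u) ⟨hu.1, by linarith [hu.2]⟩]
    rfl

theorem Normals.rep_pi {v : Fin 6 → E} {μ s : Fin 6 → ℝ} (h : Normals v μ s) (t₀ : ℝ) :
    ∃ α β : ℝ, ∀ u ∈ Icc t₀ (t₀ + 2 * π),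
      hs v (u + π) = (Pw.mk α β s (fun i => toIocMod two_pi_pos t₀ (μ i + π))).F u := by
  obtain ⟨α, β, hab⟩ := h.rep (t₀ + π)
  refine ⟨-α, -β, ?_⟩
  intro u hu
  rw [hab (u + π) ⟨by linarith [hu.1], by linarith [hu.2]⟩]
  have hm : ∀ i, toIocMod two_pi_pos (t₀ + π) (μ i) =
      toIocMod two_pi_pos t₀ (μ i + π) + π := by
    intro i
    have h1 := toIocMod_add_right_eq_add two_pi_pos t₀ (μ i) π
    have h2 := toIocMod_add_right' two_pi_pos (t₀ - π) (μ i)
    rw [show t₀ - π + 2 * π = t₀ + π by ring] at h2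
    rw [h1, h2]; ring
  show α * cos (u + π) + β * sin (u + π) +
      ∑ i, s i * (if toIocMod two_pi_pos (t₀ + π) (μ i) ≤ u + π then
        sin (u + π - toIocMod two_pi_pos (t₀ + π) (μ i)) else 0) =
    -α * cos u + -β * sin u + ∑ i, s i * (if toIocMod two_pi_pos t₀ (μ i + π) ≤ u then
        sin (u - toIocMod two_pi_pos t₀ (μ i + π)) else 0)
  rw [Real.cos_add_pi, Real.sin_add_pi]
  have : ∑ i, s i * (if toIocMod two_pi_pos (t₀ + π) (μ i) ≤ u + π then
        sin (u + π - toIocMod two_pi_pos (t₀ + π) (μ i)) else 0) =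
      ∑ i, s i * (if toIocMod two_pi_pos t₀ (μ i + π) ≤ u then
        sin (u - toIocMod two_pi_pos t₀ (μ i + π)) else 0) := by
    refine Finset.sum_congr rfl (fun i _ => ?_)
    rw [hm i]
    rw [show u + π - (toIocMod two_pi_pos t₀ (μ i + π) + π) =
      u - toIocMod two_pi_pos t₀ (μ i + π) by ring]
    by_cases h : toIocMod two_pi_pos t₀ (μ i + π) ≤ u
    · rw [if_pos h, if_pos (by linarith)]
    · rw [if_neg h, if_neg (by intro h'; exact h (by linarith))]
  rw [this]
  ring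

end Pool.Agent.Hex
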