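import Pool.Agent.Work.MP_3c650e_co.Core
import Pool.Agent.Work.MP_3c650e_co.Ang
import Pool.Agent.Work.MP_3c650e_co.Supp
import Pool.Agent.Work.MP_3c650e_co.Perim
import Pool.Agent.Work.MP_3c650e_co.CompEx
import Pool.Agent.Work.MP_3c650e_co.CompDisj
import Pool.Agent.Work.MP_3c650e_co.Step1

/-! Module GeoCore: the theorem for counterclockwise hexagons and radius one. -/

set_option autoImplicit false

open Real Set

namespace Pool.Agent.Hex

private theorem toIocMod_eq (t x : ℝ) (k : ℤ) (h : x + k * (2 * π) ∈ Ioc t (t + 2 * π)) :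
    toIocMod two_pi_pos t x = x + k * (2 * π) := by
  rw [toIocMod_eq_iff]
  refine ⟨h, -k, ?_⟩
  rw [zsmul_eq_mul]
  push_cast
  ring

private theorem exists_toIocMod (t x : ℝ) : ∃ k : ℤ,
    toIocMod two_pi_pos t x = x + k * (2 * π) := by
  refine ⟨-toIocDiv two_pi_pos t x, ?_⟩
  rw [← self_sub_toIocDiv_zsmul, zsmul_eq_mul]
  push_cast
  ring

/-- the width function -/
private noncomputable def wd (v : Fin 6 → E) (u : ℝ) : ℝ := hs v u + hs v (u + π)

private theorem hs_int (v : Fin 6 → E) (u : ℝ) (k : ℤ) : hs v (u + k * (2 * π)) = hs v u := by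
  have hp : Function.Periodic (hs v) (2 * π) := hs_periodic v
  have := hp.int_mul k u
  exact this

private theorem wd_int (v : Fin 6 → E) (u : ℝ) (k : ℤ) : wd v (u + k * (2 * π)) = wd v u := by
  unfold wd
  rw [hs_int, show u + k * (2 * π) + π = (u + π) + k * (2 * π) by ring, hs_int]

private theorem wd_pi (v : Fin 6 → E) (u : ℝ) : wd v (u + π) = wd v u := by
  unfold wd
  rw [show u + π + π = u + 2 * π by ring, hs_periodic]
  ring

private theorem dt_add (P Q : E) (u : ℝ) : dt (P + Q) u = dt P u + dt Q u := by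
  simp only [dt, PiLp.add_apply]
  ring

private theorem dt_e (a u : ℝ) : dt (e a) u = cos (u - a) := by
  simp only [dt, e, cos_sub]
  simp
  ring

private theorem dt_le_hs' (v : Fin 6 → E) (j : Fin 6) (u : ℝ) : dt (v j) u ≤ hs v u :=
  Finset.le_sup' (fun j => dt (v j) u) (Finset.mem_univ j)

/-- the key estimates for a component -/
private theorem comp_bounds (v : Fin 6 → E) {y : E} {a c : ℝ} (h : IsComp v y a c)
    (hy : y ∈ convexHull ℝ (range v)) (u : ℝ) :
    cos (u - a) ≤ hs v u + ((-y 0) * cos u + (-y 1) * sin u) ∧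
    cos (c - u) ≤ hs v u + ((-y 0) * cos u + (-y 1) * sin u) ∧
    hs v u + ((-y 0) * cos u + (-y 1) * sin u) ≤ 1 ∧
    0 ≤ hs v (u + π) - ((-y 0) * cos u + (-y 1) * sin u) := by
  have hdt : dt y u = y 0 * cos u + y 1 * sin u := rfl
  refine ⟨?_, ?_, ?_, ?_⟩
  · obtain ⟨j, hj⟩ := h.left
    have h1 := dt_le_hs' v j u
    rw [hj, dt_add, dt_e, hdt] at h1
    linarith
  · obtain ⟨j, hj⟩ := h.right
    have h1 := dt_le_hs' v j u
    rw [hj, dt_add, dt_e, hdt, show u - c = -(c - u) by ring, cos_neg] at h1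
    linarith
  · have h1 := hs_le_of_ball v h.ball u
    rw [hdt] at h1
    linarith
  · have h1 := dt_le_hs v hy (u + π)
    have h2 : dt y (u + π) = -(y 0 * cos u + y 1 * sin u) := by
      simp only [dt, cos_add_pi, sin_add_pi]; ring
    rw [h2] at h1
    linarith

theorem geo_core (v : Fin 6 → E) (h : CCW v)
    (hf : ∀ x ∈ frontier (convexHull ℝ (range v)), ∃ j, 1 ≤ dist x (v j)) :
    3 * sg ≤ perim v := by
  classical
  by_contra hcon
  push Not at hcon
  have hL4 : perim v < 4 := hcon.trans three_sg_lt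
  obtain ⟨hne, hK⟩ := step1 v hL4 hf
  obtain ⟨μ, hN⟩ := exists_normals v h
  have hpi := pi_pos
  set s : Fin 6 → ℝ := fun i => dist (v i) (v (i + 1)) with hsdef
  -- components of lossy sides
  have hex : ∀ i, wd v (μ i) < 1 → ∃ (y : E) (a c : ℝ), IsComp v y a c ∧ c - a < π ∧
      a < μ i + π ∧ μ i + π < c ∧ tan ((c - a) / 2) ≤ 4 / 5 := by
    intro i hi
    have h1 : hs v (μ i + π) + hs v (μ i + π + π) < 1 := by
      have := wd_pi v (μ i)
      unfold wd at this hi
      rw [this]; exact hi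
    obtain ⟨y, a, c, hc1, hc2, hc3, hc4⟩ := exists_comp v hK hne (μ i + π) h1
    have hp := perim_ge v (hK y hc1.ball) hc1.left hc1.right hc1.lt.le hc2
    obtain ⟨t1, t2⟩ := tan_of_sin (X := (c - a) / 2) (by linarith [hc1.lt]) (by linarith)
      (by linarith)
    exact ⟨y, a, c, hc1, by linarith, hc3, hc4, t2⟩
  choose! y a c hcomp hlen hza hzc htan using hex
  -- the window part, common to both cases
  have main : ∀ (t₀ : ℝ) (𝒯 : Finset (ℝ × ℝ)),
      (∀ C ∈ 𝒯, t₀ ≤ C.1 ∧ C.1 < C.2 ∧ C.2 ≤ t₀ + 2 * π ∧ C.2 - C.1 < π ∧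
        tan ((C.2 - C.1) / 2) ≤ 4 / 5 ∧
        (∃ i, C.1 < toIocMod two_pi_pos t₀ (μ i + π) ∧
          toIocMod two_pi_pos t₀ (μ i + π) < C.2) ∧ ∃ y : E, IsComp v y C.1 C.2) →
      (∀ C ∈ 𝒯, ∀ C' ∈ 𝒯, C ≠ C' → C.2 ≤ C'.1 ∨ C'.2 ≤ C.1) →
      (∀ i, wd v (μ i) < 1 → ∃ C ∈ 𝒯, C.1 < toIocMod two_pi_pos t₀ (μ i + π) ∧
        toIocMod two_pi_pos t₀ (μ i + π) < C.2) →
      ((∃ C ∈ 𝒯, C.1 = t₀) ∨ (𝒯 = ∅ ∧ ∃ i, toIocMod two_pi_pos t₀ (μ i + π) = t₀ + 2 * π)) →
      3 * sg ≤ ∑ i, s i := by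
    intro t₀ 𝒯 hT hd hcov hstart
    obtain ⟨αp, βp, hp⟩ := hN.rep t₀
    obtain ⟨αm, βm, hm⟩ := hN.rep_pi t₀
    set zp : Fin 6 → ℝ := fun i => toIocMod two_pi_pos t₀ (μ i) with hzp
    set zm : Fin 6 → ℝ := fun i => toIocMod two_pi_pos t₀ (μ i + π) with hzm
    have hzpI : ∀ i, zp i ∈ Ioc t₀ (t₀ + 2 * π) := fun i => toIocMod_mem_Ioc two_pi_pos t₀ _
    have hzmI : ∀ i, zm i ∈ Ioc t₀ (t₀ + 2 * π) := fun i => toIocMod_mem_Ioc two_pi_pos t₀ _
    have hzpk : ∀ i, ∃ k : ℤ, zp i = μ i + k * (2 * π) := fun i => exists_toIocMod t₀ (μ i)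
    have hzmk : ∀ i, ∃ k : ℤ, zm i = (μ i + π) + k * (2 * π) :=
      fun i => exists_toIocMod t₀ (μ i + π)
    have hWu : ∀ u ∈ Icc t₀ (t₀ + 2 * π),
        (Pw.mk αp βp s zp).F u + (Pw.mk αm βm s zm).F u = wd v u := by
      intro u hu
      unfold wd
      rw [hp u hu, hm u hu]
    have hWp : ∀ i, (Pw.mk αp βp s zp).F (zp i) + (Pw.mk αm βm s zm).F (zp i) = wd v (μ i) := by
      intro i
      rw [hWu _ (Ioc_subset_Icc_self (hzpI i))]
      obtain ⟨k, hk⟩ := hzpk i
      rw [hk, wd_int]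
    have hWm : ∀ i, (Pw.mk αp βp s zp).F (zm i) + (Pw.mk αm βm s zm).F (zm i) = wd v (μ i) := by
      intro i
      rw [hWu _ (Ioc_subset_Icc_self (hzmI i))]
      obtain ⟨k, hk⟩ := hzmk i
      rw [hk, wd_int, wd_pi]
    have hcosp : ∀ i, cos (zp i) = cos (μ i) := fun i => by
      obtain ⟨k, hk⟩ := hzpk i
      rw [hk, cos_add_int_mul_two_pi]
    have hsinp : ∀ i, sin (zp i) = sin (μ i) := fun i => by
      obtain ⟨k, hk⟩ := hzpk i
      rw [hk, sin_add_int_mul_two_pi]
    have hcosm : ∀ i, cos (zm i) = -cos (μ i) := fun i => by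
      obtain ⟨k, hk⟩ := hzmk i
      rw [hk, cos_add_int_mul_two_pi, cos_add_pi]
    have hsinm : ∀ i, sin (zm i) = -sin (μ i) := fun i => by
      obtain ⟨k, hk⟩ := hzmk i
      rw [hk, sin_add_int_mul_two_pi, sin_add_pi]
    have hcl1 := hN.closing_cos
    have hcl2 := hN.closing_sin
    refine core s zp zm hN.pos t₀ αp βp αm βm hzpI hzmI ?_ ?_ ?_ ?_ ?_ ?_ 𝒯 ?_ hd ?_ ?_
    · simp only [hcosp]; exact hcl1
    · simp only [hsinp]; exact hcl2
    · simp only [hcosm, mul_neg, Finset.sum_neg_distrib]; rw [hcl1, neg_zero]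
    · simp only [hsinm, mul_neg, Finset.sum_neg_distrib]; rw [hcl2, neg_zero]
    · intro i
      rw [hWp, hWm]
    · intro u w hu hw huw
      obtain ⟨i, k, h1, h2⟩ := hN.arc (u := u - π) (w := w - π) (by linarith)
      have h3 : zm i = (μ i + π) + k * (2 * π) := by
        apply toIocMod_eq
        constructor <;> linarith
      exact ⟨i, by rw [h3]; linarith, by rw [h3]; linarith⟩
    · intro C hC
      obtain ⟨g1, g2, g3, g4, g5, g6, y, g7⟩ := hT C hC
      refine ⟨g1, g2, g3, g4, g5, g6, -y 0, -y 1, fun u hu => ?_⟩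
      have hu' : u ∈ Icc t₀ (t₀ + 2 * π) := ⟨g1.trans hu.1, hu.2.trans g3⟩
      rw [← hp u hu', ← hm u hu']
      exact comp_bounds v g7 (hK y g7.ball) u
    · intro i hi
      rw [hWm] at hi
      exact hcov i hi
    · exact hstart
  have hres : 3 * sg ≤ ∑ i, s i := by
    by_cases hI : ∃ i₀, wd v (μ i₀) < 1
    · obtain ⟨i₀, hi₀⟩ := hI
      set t₀ := a i₀ with ht₀
      -- shifts
      have hk : ∀ i, ∃ k : ℤ, a i + k * (2 * π) ∈ Ico t₀ (t₀ + 2 * π) := by
        intro i
        refine ⟨-toIcoDiv two_pi_pos t₀ (a i), ?_⟩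
        have h1 := toIcoMod_mem_Ico two_pi_pos t₀ (a i)
        rw [← self_sub_toIcoDiv_zsmul, zsmul_eq_mul] at h1
        push_cast
        rw [show a i + -(toIcoDiv two_pi_pos t₀ (a i) : ℝ) * (2 * π) =
          a i - (toIcoDiv two_pi_pos t₀ (a i) : ℝ) * (2 * π) by ring]
        exact h1
      choose k hk using hk
      set A : Fin 6 → ℝ := fun i => a i + k i * (2 * π) with hA
      set B : Fin 6 → ℝ := fun i => c i + k i * (2 * π) with hB
      have hAB : ∀ i, wd v (μ i) < 1 → IsComp v (y i) (A i) (B i) := fun i hi =>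
        (hcomp i hi).shift (k i)
      have hlenAB : ∀ i, wd v (μ i) < 1 → B i - A i < π := fun i hi => by
        have := hlen i hi
        simp only [hA, hB]; linarith
      have hk0 : A i₀ = t₀ := by
        have h1 := hk i₀
        rw [← ht₀] at h1
        have h2 : (k i₀ : ℝ) * (2 * π) < 1 * (2 * π) := by linarith [h1.2]
        have h3 : (-1 : ℝ) * (2 * π) < (k i₀ : ℝ) * (2 * π) := by linarith [h1.1]
        have h4 : (k i₀ : ℝ) < 1 := lt_of_mul_lt_mul_right h2 (by linarith)
        have h5 : (-1 : ℝ) < (k i₀ : ℝ) := lt_of_mul_lt_mul_right h3 (by linarith)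
        have h6 : k i₀ < 1 := by exact_mod_cast h4
        have h7 : -1 < k i₀ := by exact_mod_cast h5
        have h8 : k i₀ = 0 := by omega
        simp only [hA]
        rw [h8, ← ht₀]
        simp
      have hB2 : ∀ i, wd v (μ i) < 1 → B i ≤ t₀ + 2 * π := by
        intro i hi
        by_contra hcon2
        push Not at hcon2
        have hc0 := (hAB i₀ hi₀).shift 1
        rw [hk0] at hc0
        have hlt := (hAB i₀ hi₀).lt
        rw [hk0] at hlt
        set m := min (B i) (B i₀ + (1:ℤ) * (2 * π)) with hm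
        have hm1 : t₀ + 2 * π < m := lt_min hcon2 (by push_cast; linarith)
        have hu1 : t₀ + 2 * π < (t₀ + 2 * π + m) / 2 := by linarith
        have hu2 : (t₀ + 2 * π + m) / 2 < m := by linarith
        have := (hAB i hi).unique hc0 (hlenAB i hi)
          (by have := hlenAB i₀ hi₀; rw [hk0] at this; linarith)
          (u := (t₀ + 2 * π + m) / 2) (by linarith [(hk i).2])
          (lt_of_lt_of_le hu2 (min_le_left _ _)) (by push_cast; linarith)
          (lt_of_lt_of_le hu2 (min_le_right _ _))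
        have h1 := this.2.1
        have h2 := (hk i).2
        push_cast at h1
        simp only [hA] at h1
        linarith
      have hzm : ∀ i, wd v (μ i) < 1 → A i < toIocMod two_pi_pos t₀ (μ i + π) ∧
          toIocMod two_pi_pos t₀ (μ i + π) < B i := by
        intro i hi
        have h1 := hza i hi
        have h2 := hzc i hi
        have h3 : toIocMod two_pi_pos t₀ (μ i + π) = μ i + π + k i * (2 * π) := by
          apply toIocMod_eq
          have h4 := (hk i).1
          have h5 := hB2 i hi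
          simp only [hB] at h5
          constructor <;> linarith
        rw [h3]
        simp only [hA, hB]
        constructor <;> linarith
      set 𝒯 : Finset (ℝ × ℝ) :=
        (Finset.univ.filter (fun i => wd v (μ i) < 1)).image (fun i => (A i, B i)) with h𝒯
      have hmem : ∀ C ∈ 𝒯, ∃ i, wd v (μ i) < 1 ∧ C = (A i, B i) := by
        intro C hC
        rw [h𝒯, Finset.mem_image] at hC
        obtain ⟨i, hi, rfl⟩ := hC
        exact ⟨i, (Finset.mem_filter.1 hi).2, rfl⟩
      have hmem' : ∀ i, wd v (μ i) < 1 → (A i, B i) ∈ 𝒯 := fun i hi => by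
        rw [h𝒯, Finset.mem_image]
        exact ⟨i, Finset.mem_filter.2 ⟨Finset.mem_univ _, hi⟩, rfl⟩
      refine main t₀ 𝒯 ?_ ?_ ?_ ?_
      · intro C hC
        obtain ⟨i, hi, rfl⟩ := hmem C hC
        refine ⟨(hk i).1, (hAB i hi).lt, hB2 i hi, hlenAB i hi, ?_, ⟨i, hzm i hi⟩, y i, hAB i hi⟩
        have h1 : (B i - A i) / 2 = (c i - a i) / 2 := by simp only [hA, hB]; ring
        simp only [h1]
        exact htan i hi
      · intro C hC C' hC' hne'
        obtain ⟨i, hi, rfl⟩ := hmem C hC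
        obtain ⟨j, hj, rfl⟩ := hmem C' hC'
        by_contra hcon2
        push Not at hcon2
        obtain ⟨h1, h2⟩ := hcon2
        simp only at h1 h2
        have h3 := (hAB i hi).lt
        have h4 := (hAB j hj).lt
        have h5 : max (A i) (A j) < min (B i) (B j) :=
          max_lt (lt_min h3 h2) (lt_min h1 h4)
        set u := (max (A i) (A j) + min (B i) (B j)) / 2 with hu
        have h6 : max (A i) (A j) < u := by linarith
        have h7 : u < min (B i) (B j) := by linarith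
        have := (hAB i hi).unique (hAB j hj) (hlenAB i hi) (hlenAB j hj) (u := u)
          (lt_of_le_of_lt (le_max_left _ _) h6) (lt_of_lt_of_le h7 (min_le_left _ _))
          (lt_of_le_of_lt (le_max_right _ _) h6) (lt_of_lt_of_le h7 (min_le_right _ _))
        apply hne'
        rw [this.2.1, this.2.2]
      · intro i hi
        exact ⟨(A i, B i), hmem' i hi, hzm i hi⟩
      · left
        exact ⟨(A i₀, B i₀), hmem' i₀ hi₀, hk0⟩
    · push Not at hI
      refine main (μ 0 - π) ∅ ?_ ?_ ?_ ?_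
      · intro C hC; simp at hC
      · intro C hC; simp at hC
      · intro i hi
        exact absurd hi (not_lt.2 (hI i))
      · right
        refine ⟨rfl, 0, ?_⟩
        rw [toIocMod_eq (μ 0 - π) (μ 0 + π) 0 (by push_cast; constructor <;> linarith)]
        push_cast
        ring
  have : perim v = ∑ i, s i := rfl
  linarith

end Pool.Agent.Hex
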