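import Pool.Agent.Work.MP_3c650e_co.Defs

/-! Module PwBasic: calculus of piecewise sinusoidal functions. -/

set_option autoImplicit false

open Real Set

namespace Pool.Agent.Hex

namespace Pw

variable {ι : Type} [Fintype ι]

theorem mem_at (P : Pw ι) {p q : ℝ} {i : ι} : i ∈ P.at' p q ↔ p < P.z i ∧ P.z i < q := by
  simp [at']

private theorem cos_split (p q : ℝ) :
    cos q = cos p * cos (q - p) - sin p * sin (q - p) := by
  rw [← cos_add]; ring_nf

private theorem sin_split (p q : ℝ) :
    sin q = sin p * cos (q - p) + cos p * sin (q - p) := by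
  rw [← sin_add]; ring_nf

theorem F_evolve (P : Pw ι) {p q : ℝ} (h : p ≤ q) : P.F q =
    P.F p * cos (q - p) + P.R p * sin (q - p) + ∑ i ∈ P.at' p q, P.m i * sin (q - P.z i) := by
  have key : ∀ i, P.m i * (if P.z i ≤ q then sin (q - P.z i) else 0) =
      P.m i * (if P.z i ≤ p then sin (p - P.z i) else 0) * cos (q - p) +
      P.m i * (if P.z i ≤ p then cos (p - P.z i) else 0) * sin (q - p) +
      (if p < P.z i ∧ P.z i < q then P.m i * sin (q - P.z i) else 0) := by
    intro i
    by_cases h1 : P.z i ≤ p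
    · have h2 : P.z i ≤ q := h1.trans h
      have h3 : ¬ (p < P.z i ∧ P.z i < q) := by intro h'; linarith [h'.1]
      simp only [if_pos h1, if_pos h2, if_neg h3]
      have : q - P.z i = (p - P.z i) + (q - p) := by ring
      rw [this, sin_add]; ring
    · rw [if_neg h1, if_neg h1]
      push Not at h1
      by_cases h2 : P.z i < q
      · have h5 : p < P.z i ∧ P.z i < q := ⟨h1, h2⟩
        simp only [if_pos h2.le, if_pos h5]; ring
      · have h5 : ¬ (p < P.z i ∧ P.z i < q) := fun h' => h2 h'.2
        simp only [if_neg h5]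
        by_cases h4 : P.z i ≤ q
        · simp only [if_pos h4]
          have : P.z i = q := le_antisymm h4 (not_lt.mp h2)
          rw [this]; simp
        · simp only [if_neg h4]; ring
  unfold F R at'
  rw [Finset.sum_filter, Finset.sum_congr rfl (fun i _ => key i), Finset.sum_add_distrib,
    Finset.sum_add_distrib, ← Finset.sum_mul, ← Finset.sum_mul, cos_split p q, sin_split p q]
  ring

theorem L_evolve (P : Pw ι) {p q : ℝ} (h : p < q) : P.L q =
    -(P.F p * sin (q - p)) + P.R p * cos (q - p) + ∑ i ∈ P.at' p q, P.m i * cos (q - P.z i) := by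
  have key : ∀ i, P.m i * (if P.z i < q then cos (q - P.z i) else 0) =
      -(P.m i * (if P.z i ≤ p then sin (p - P.z i) else 0) * sin (q - p)) +
      P.m i * (if P.z i ≤ p then cos (p - P.z i) else 0) * cos (q - p) +
      (if p < P.z i ∧ P.z i < q then P.m i * cos (q - P.z i) else 0) := by
    intro i
    by_cases h1 : P.z i ≤ p
    · have h2 : P.z i < q := lt_of_le_of_lt h1 h
      have h3 : ¬ (p < P.z i ∧ P.z i < q) := by intro h'; linarith [h'.1]
      simp only [if_pos h1, if_pos h2, if_neg h3]
      have : q - P.z i = (p - P.z i) + (q - p) := by ring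
      rw [this, cos_add]; ring
    · rw [if_neg h1, if_neg h1]
      push Not at h1
      by_cases h2 : P.z i < q
      · have h5 : p < P.z i ∧ P.z i < q := ⟨h1, h2⟩
        simp only [if_pos h2, if_pos h5]; ring
      · have h5 : ¬ (p < P.z i ∧ P.z i < q) := fun h' => h2 h'.2
        simp only [if_neg h5, if_neg h2]; ring
  unfold F L R at'
  rw [Finset.sum_filter, Finset.sum_congr rfl (fun i _ => key i), Finset.sum_add_distrib,
    Finset.sum_add_distrib, Finset.sum_neg_distrib, ← Finset.sum_mul, ← Finset.sum_mul,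
    cos_split p q, sin_split p q]
  ring

theorem A_sub (P : Pw ι) {p q : ℝ} (h : p < q) :
    P.A q - P.A p = P.R p - P.L q + ∑ i ∈ P.at' p q, P.m i := by
  have key : ∀ i, P.m i * (if P.z i ≤ q then 1 - cos (q - P.z i) else 0) =
      P.m i * (if P.z i ≤ p then 1 - cos (p - P.z i) else 0) +
      P.m i * (if P.z i ≤ p then cos (p - P.z i) else 0) -
      P.m i * (if P.z i < q then cos (q - P.z i) else 0) +
      (if p < P.z i ∧ P.z i < q then P.m i else 0) := by
    intro i
    by_cases h1 : P.z i ≤ p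
    · have h2 : P.z i < q := lt_of_le_of_lt h1 h
      have h3 : ¬ (p < P.z i ∧ P.z i < q) := by intro h'; linarith [h'.1]
      simp only [if_pos h1, if_pos h2, if_pos h2.le, if_neg h3]
      ring
    · rw [if_neg h1, if_neg h1]
      push Not at h1
      by_cases h2 : P.z i < q
      · have h5 : p < P.z i ∧ P.z i < q := ⟨h1, h2⟩
        simp only [if_pos h2, if_pos h5, if_pos h2.le]; ring
      · have h5 : ¬ (p < P.z i ∧ P.z i < q) := fun h' => h2 h'.2
        simp only [if_neg h5, if_neg h2]
        by_cases h4 : P.z i ≤ q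
        · simp only [if_pos h4]
          have : P.z i = q := le_antisymm h4 (not_lt.mp h2)
          rw [this]; simp
        · simp only [if_neg h4]; ring
  unfold A L R at'
  rw [Finset.sum_filter, Finset.sum_congr rfl (fun i _ => key i), Finset.sum_add_distrib,
    Finset.sum_sub_distrib, Finset.sum_add_distrib]
  ring

theorem R_sub_L (P : Pw ι) (u : ℝ) :
    P.R u - P.L u = ∑ i ∈ Finset.univ.filter (fun i => P.z i = u), P.m i := by
  have key : ∀ i, P.m i * (if P.z i ≤ u then cos (u - P.z i) else 0) =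
      P.m i * (if P.z i < u then cos (u - P.z i) else 0) + (if P.z i = u then P.m i else 0) := by
    intro i
    rcases lt_trichotomy (P.z i) u with h | h | h
    · rw [if_pos h.le, if_pos h, if_neg h.ne]; ring
    · rw [if_pos h.le, if_neg (by rw [h]; exact lt_irrefl _), if_pos h, h]; simp
    · rw [if_neg (not_le.mpr h), if_neg (not_lt.mpr h.le), if_neg h.ne']; ring
  unfold R L
  rw [Finset.sum_filter, Finset.sum_congr rfl (fun i _ => key i), Finset.sum_add_distrib]
  ring

private theorem hasDerivAt_k (z u : ℝ) :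
    HasDerivAt (fun u => if z ≤ u then 1 - cos (u - z) else (0 : ℝ))
      (if z ≤ u then sin (u - z) else 0) u := by
  have hg : ∀ x : ℝ, HasDerivAt (fun u => 1 - cos (u - z)) (sin (x - z)) x := by
    intro x
    have h1 : HasDerivAt (fun u : ℝ => u - z) 1 x := (hasDerivAt_id x).sub_const z
    have h2 := (h1.cos).const_sub 1
    have h3 : sin (x - z) = -(-sin (x - z) * 1) := by ring
    rw [h3]
    exact h2
  rcases lt_trichotomy z u with h | h | h
  · rw [if_pos h.le]
    refine (hg u).congr_of_eventuallyEq ?_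
    filter_upwards [lt_mem_nhds h] with x hx
    rw [if_pos hx.le]
  · subst h
    rw [if_pos le_rfl]
    have hA : HasDerivWithinAt (fun u => if z ≤ u then 1 - cos (u - z) else (0 : ℝ))
        (sin (z - z)) (Ici z) z := by
      refine (hg z).hasDerivWithinAt.congr ?_ ?_
      · intro x hx
        rw [if_pos (show z ≤ x from hx)]
      · rw [if_pos le_rfl]
    have hB : HasDerivWithinAt (fun u => if z ≤ u then 1 - cos (u - z) else (0 : ℝ))
        (sin (z - z)) (Iic z) z := by
      have h0 : HasDerivWithinAt (fun _ : ℝ => (0 : ℝ)) (sin (z - z)) (Iic z) z := by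
        rw [sub_self, sin_zero]
        exact hasDerivWithinAt_const _ _ _
      refine h0.congr ?_ ?_
      · intro x hx
        rcases eq_or_lt_of_le (show x ≤ z from hx) with h | h
        · rw [h, if_pos le_rfl]; simp
        · rw [if_neg (not_le.mpr h)]
      · rw [if_pos le_rfl]; simp
    have := hB.union hA
    rw [Iic_union_Ici] at this
    exact this.hasDerivAt (by simp)
  · rw [if_neg (not_le.mpr h)]
    refine (hasDerivAt_const u (0 : ℝ)).congr_of_eventuallyEq ?_
    filter_upwards [gt_mem_nhds h] with x hx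
    rw [if_neg (not_le.mpr hx)]

theorem hasDerivAt_A (P : Pw ι) (u : ℝ) : HasDerivAt P.A (P.F u) u := by
  unfold A F
  have h1 : HasDerivAt (fun u : ℝ => P.α * sin u - P.β * cos u)
      (P.α * cos u + P.β * sin u) u := by
    have := ((hasDerivAt_sin u).const_mul P.α).sub ((hasDerivAt_cos u).const_mul P.β)
    have h3 : P.α * cos u + P.β * sin u = P.α * cos u - P.β * -sin u := by ring
    rw [h3]
    exact this
  refine h1.add ?_
  have h2 : ∀ i ∈ (Finset.univ : Finset ι), HasDerivAt
      (fun u => P.m i * (if P.z i ≤ u then 1 - cos (u - P.z i) else (0 : ℝ)))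
      (P.m i * (if P.z i ≤ u then sin (u - P.z i) else 0)) u := by
    intro i _
    exact (hasDerivAt_k (P.z i) u).const_mul (P.m i)
  have := HasDerivAt.fun_sum h2
  exact this

theorem A_sub_le (P : Pw ι) {p q c : ℝ} (h : p ≤ q) (hF : ∀ u ∈ Icc p q, P.F u ≤ c) :
    P.A q - P.A p ≤ c * (q - p) := by
  refine (convex_Icc p q).image_sub_le_mul_sub_of_deriv_le ?_ ?_ ?_ p (left_mem_Icc.mpr h) q
    (right_mem_Icc.mpr h) h
  · exact fun x _ => (P.hasDerivAt_A x).continuousAt.continuousWithinAt
  · exact fun x _ => (P.hasDerivAt_A x).differentiableAt.differentiableWithinAt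
  · intro x hx
    rw [(P.hasDerivAt_A x).deriv]
    exact hF x (interior_subset hx)

theorem gap_R (P : Pw ι) {p q : ℝ} (h : p < q) (hat : P.at' p q = ∅) :
    P.R p * sin (q - p) = P.F q - P.F p * cos (q - p) := by
  rw [P.F_evolve h.le, hat]
  simp

theorem gap_L (P : Pw ι) {p q : ℝ} (h : p < q) (hat : P.at' p q = ∅) :
    P.L q * sin (q - p) = P.F q * cos (q - p) - P.F p := by
  rw [P.L_evolve h, P.F_evolve h.le, hat]
  simp only [Finset.sum_empty, add_zero]
  have := sin_sq_add_cos_sq (q - p)
  linear_combination (-P.F p) * this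

private theorem tan_half_mul_sin {b : ℝ} (h0 : 0 < b) (hπ : b < π) :
    tan (b / 2) * sin b = 1 - cos b := by
  have hc : cos (b / 2) ≠ 0 := (cos_pos_of_mem_Ioo ⟨by linarith, by linarith⟩).ne'
  have h1 : sin b = 2 * sin (b / 2) * cos (b / 2) := by
    rw [← sin_two_mul]; congr 1; ring
  have h2 : cos b = 1 - 2 * sin (b / 2) ^ 2 := by
    have := cos_two_mul (b / 2)
    have h3 := sin_sq_add_cos_sq (b / 2)
    rw [show 2 * (b / 2) = b by ring] at this
    linarith
  have h4 : tan (b / 2) * cos (b / 2) = sin (b / 2) := by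
    rw [tan_eq_sin_div_cos]; field_simp
  rw [h1, h2]
  linear_combination (2 * sin (b / 2)) * h4

theorem gap_A (P : Pw ι) {p q : ℝ} (h : p ≤ q) (hπ : q - p < π) (hat : P.at' p q = ∅) :
    P.A q - P.A p = (P.F p + P.F q) * tan ((q - p) / 2) := by
  rcases eq_or_lt_of_le h with h | h
  · subst h; simp
  · have hs : 0 < sin (q - p) := sin_pos_of_pos_of_lt_pi (by linarith) hπ
    have ht := tan_half_mul_sin (show 0 < q - p by linarith) hπ
    rw [P.A_sub h, hat]
    have h1 := P.gap_R h hat
    have h2 := P.gap_L h hat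
    have h3 : (P.R p - P.L q + ∑ i ∈ (∅ : Finset ι), P.m i) * sin (q - p) =
        ((P.F p + P.F q) * tan ((q - p) / 2)) * sin (q - p) := by
      rw [Finset.sum_empty]
      linear_combination h1 - h2 - (P.F p + P.F q) * ht
    exact mul_right_cancel₀ hs.ne' h3

theorem closing (P : Pw ι) {t : ℝ} (hz : ∀ i, P.z i ∈ Ioc t (t + 2 * π))
    (h1 : ∑ i, P.m i * cos (P.z i) = 0) (h2 : ∑ i, P.m i * sin (P.z i) = 0) :
    P.F (t + 2 * π) = P.F t ∧ P.A (t + 2 * π) - P.A t = ∑ i, P.m i := by
  have n1 : ∀ i, ¬ P.z i ≤ t := fun i => not_le.mpr (hz i).1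
  have n2 : ∀ i, P.z i ≤ t + 2 * π := fun i => (hz i).2
  have s1 : ∀ i, sin (t + 2 * π - P.z i) = sin t * cos (P.z i) - cos t * sin (P.z i) := by
    intro i
    rw [show t + 2 * π - P.z i = (t - P.z i) + 2 * π by ring, sin_add_two_pi, sin_sub]
  have c1 : ∀ i, cos (t + 2 * π - P.z i) = cos t * cos (P.z i) + sin t * sin (P.z i) := by
    intro i
    rw [show t + 2 * π - P.z i = (t - P.z i) + 2 * π by ring, cos_add_two_pi, cos_sub]
  constructor
  · unfold F
    rw [cos_add_two_pi, sin_add_two_pi]
    congr 1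
    have e1 : ∀ i, P.m i * (if P.z i ≤ t + 2 * π then sin (t + 2 * π - P.z i) else 0) =
        sin t * (P.m i * cos (P.z i)) - cos t * (P.m i * sin (P.z i)) := by
      intro i
      rw [if_pos (n2 i), s1 i]; ring
    have e2 : ∀ i, P.m i * (if P.z i ≤ t then sin (t - P.z i) else 0) = 0 := by
      intro i
      rw [if_neg (n1 i)]; ring
    rw [Finset.sum_congr rfl (fun i _ => e1 i), Finset.sum_congr rfl (fun i _ => e2 i),
      Finset.sum_sub_distrib, ← Finset.mul_sum, ← Finset.mul_sum, h1, h2]
    simp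
  · unfold A
    rw [cos_add_two_pi, sin_add_two_pi]
    have e1 : ∀ i, P.m i * (if P.z i ≤ t + 2 * π then 1 - cos (t + 2 * π - P.z i) else 0) =
        P.m i - (cos t * (P.m i * cos (P.z i)) + sin t * (P.m i * sin (P.z i))) := by
      intro i
      rw [if_pos (n2 i), c1 i]; ring
    have e2 : ∀ i, P.m i * (if P.z i ≤ t then 1 - cos (t - P.z i) else 0) = 0 := by
      intro i
      rw [if_neg (n1 i)]; ring
    rw [Finset.sum_congr rfl (fun i _ => e1 i), Finset.sum_congr rfl (fun i _ => e2 i),
      Finset.sum_sub_distrib, Finset.sum_add_distrib, ← Finset.mul_sum, ← Finset.mul_sum, h1, h2]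
    simp

variable {ι' : Type} [Fintype ι']

theorem add_F (P : Pw ι) (Q : Pw ι') (u : ℝ) : (P.add Q).F u = P.F u + Q.F u := by
  simp only [F, add, Fintype.sum_sum_type, Sum.elim_inl, Sum.elim_inr]
  ring

theorem add_R (P : Pw ι) (Q : Pw ι') (u : ℝ) : (P.add Q).R u = P.R u + Q.R u := by
  simp only [R, add, Fintype.sum_sum_type, Sum.elim_inl, Sum.elim_inr]
  ring

theorem add_L (P : Pw ι) (Q : Pw ι') (u : ℝ) : (P.add Q).L u = P.L u + Q.L u := by
  simp only [L, add, Fintype.sum_sum_type, Sum.elim_inl, Sum.elim_inr]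
  ring

theorem add_A (P : Pw ι) (Q : Pw ι') (u : ℝ) : (P.add Q).A u = P.A u + Q.A u := by
  simp only [A, add, Fintype.sum_sum_type, Sum.elim_inl, Sum.elim_inr]
  ring

theorem shift_F (P : Pw ι) (a b u : ℝ) :
    (P.shift a b).F u = P.F u + (a * cos u + b * sin u) := by
  simp only [F, shift]
  ring

theorem shift_A (P : Pw ι) (a b u : ℝ) :
    (P.shift a b).A u = P.A u + (a * sin u - b * cos u) := by
  simp only [A, shift]
  ring

end Pw

end Pool.Agent.Hex
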