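import Pool.Agent.Work.MP_3c650e_co.PwLemS
import Pool.Agent.Work.MP_3c650e_co.Num

/-! Module PwChain. -/

set_option autoImplicit false

open Real Set

namespace Pool.Agent.Hex

namespace Pw

variable {ι : Type} [Fintype ι]

/-- superadditivity of `x ↦ min x K` for nonnegative arguments -/
theorem min_add_le {x y K : ℝ} (hx : 0 ≤ x) (hy : 0 ≤ y) (hK : 0 ≤ K) :
    min (x + y) K ≤ min x K + min y K := by
  rcases le_total x K with h1 | h1 <;> rcases le_total y K with h2 | h2 <;>
    rcases le_total (x + y) K with h3 | h3 <;>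
    simp only [min_eq_left, min_eq_right, h1, h2, h3] <;> linarith

/-- end gap on the left -/
private theorem left_gap (P : Pw ι) {p z : ℝ} (h : p < z) (hπ : z - p < π)
    (hat : P.at' p z = ∅) (hp : 1 ≤ P.F p) (hz : P.F z ≤ 1) :
    (2 + (P.F p - 1)) * tan ((z - p) / 2) + (1 - P.F z) ^ 2 * (cos (z - p) / sin (z - p)) ≤
      P.A z - P.A p - (1 - P.F z) * P.L z := by
  have hb0 : 0 < z - p := by linarith
  have hsb : 0 < sin (z - p) := sin_pos_of_pos_of_lt_pi hb0 hπ
  have hA := P.gap_A h.le hπ hat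
  have hL := P.gap_L h hat
  have ht := tan_half_mul_sin hb0.le hπ
  set sb := sin (z - p)
  set cb := cos (z - p)
  set T := tan ((z - p) / 2)
  have hL' : P.L z = (P.F z * cb - P.F p) / sb := by
    rw [eq_div_iff hsb.ne']; exact hL
  have ht' : T = (1 - cb) / sb := by
    rw [eq_div_iff hsb.ne']; exact ht
  have key : P.A z - P.A p - (1 - P.F z) * P.L z =
      (2 + (P.F p - 1)) * T + (1 - P.F z) ^ 2 * (cb / sb) + (1 - P.F z) * (P.F p - 1) / sb := by
    rw [hA, hL', ht']
    field_simp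
    ring
  rw [key]
  have : 0 ≤ (1 - P.F z) * (P.F p - 1) / sb :=
    div_nonneg (mul_nonneg (by linarith) (by linarith)) hsb.le
  linarith

/-- end gap on the right -/
private theorem right_gap (P : Pw ι) {z q : ℝ} (h : z < q) (hπ : q - z < π)
    (hat : P.at' z q = ∅) (hq : 1 ≤ P.F q) (hz : P.F z ≤ 1) :
    (2 + (P.F q - 1)) * tan ((q - z) / 2) + (1 - P.F z) ^ 2 * (cos (q - z) / sin (q - z)) ≤
      P.A q - P.A z + (1 - P.F z) * P.R z := by
  have hb0 : 0 < q - z := by linarith
  have hsb : 0 < sin (q - z) := sin_pos_of_pos_of_lt_pi hb0 hπ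
  have hA := P.gap_A h.le hπ hat
  have hR := P.gap_R h hat
  have ht := tan_half_mul_sin hb0.le hπ
  set sb := sin (q - z)
  set cb := cos (q - z)
  set T := tan ((q - z) / 2)
  have hR' : P.R z = (P.F q - P.F z * cb) / sb := by
    rw [eq_div_iff hsb.ne']; exact hR
  have ht' : T = (1 - cb) / sb := by
    rw [eq_div_iff hsb.ne']; exact ht
  have key : P.A q - P.A z + (1 - P.F z) * P.R z =
      (2 + (P.F q - 1)) * T + (1 - P.F z) ^ 2 * (cb / sb) + (1 - P.F z) * (P.F q - 1) / sb := by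
    rw [hA, hR', ht']
    field_simp
    ring
  rw [key]
  have : 0 ≤ (1 - P.F z) * (P.F q - 1) / sb :=
    div_nonneg (mul_nonneg (by linarith) (by linarith)) hsb.le
  linarith

theorem chain (P : Pw ι) {p q : ℝ} (hpq : p ≤ q) (hlen : q - p < π) (hp : 1 ≤ P.F p)
    (hq : 1 ≤ P.F q) (hloss : ∀ i ∈ P.at' p q, P.F (P.z i) ≤ 1) :
    sg * (q - p) - sg * kp * (1 + ((P.at' p q).card : ℝ)) +
        min (y1 * ((P.F p - 1) + (P.F q - 1))) (sg * kp) ≤
      P.A q - P.A p + ∑ i ∈ P.at' p q, P.m i * (1 - P.F (P.z i)) := by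
  have hy := y1_pos
  have hsg : 0 < sg := by linarith [sg_gt_one]
  have hkp := kp_pos
  have hsk : 0 < sg * kp := mul_pos hsg hkp
  have hmin : min (y1 * ((P.F p - 1) + (P.F q - 1))) (sg * kp) ≤
      min (y1 * (P.F p - 1)) (sg * kp) + min (y1 * (P.F q - 1)) (sg * kp) := by
    rw [mul_add]
    exact min_add_le (mul_nonneg hy.le (by linarith)) (mul_nonneg hy.le (by linarith)) hsk.le
  rcases Finset.eq_empty_or_nonempty (P.at' p q) with h0 | hne
  · rw [h0, Finset.card_empty, Finset.sum_empty]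
    have hA := P.gap_A hpq hlen h0
    have hb := tan_bonus (b := q - p) (φ := (P.F p - 1) + (P.F q - 1)) (by linarith) hlen
      (by linarith)
    rw [hA, add_zero]
    have : (P.F p + P.F q) = 2 + ((P.F p - 1) + (P.F q - 1)) := by ring
    rw [this]
    simpa using hb
  · -- extreme atoms
    obtain ⟨i, hi, hmin1⟩ := Finset.exists_min_image (P.at' p q) P.z hne
    obtain ⟨j, hj, hmax1⟩ := Finset.exists_max_image (P.at' p q) P.z hne
    obtain ⟨hi1, hi2⟩ := P.mem_at.1 hi
    obtain ⟨hj1, hj2⟩ := P.mem_at.1 hj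
    set z₁ := P.z i with hz1
    set z₂ := P.z j with hz2
    have hz12 : z₁ ≤ z₂ := hmin1 j hj
    have he1 : P.at' p z₁ = ∅ := by
      rw [Finset.eq_empty_iff_forall_notMem]
      intro k hk
      obtain ⟨hk1, hk2⟩ := P.mem_at.1 hk
      have := hmin1 k (P.mem_at.2 ⟨hk1, hk2.trans hi2⟩)
      linarith
    have he2 : P.at' z₂ q = ∅ := by
      rw [Finset.eq_empty_iff_forall_notMem]
      intro k hk
      obtain ⟨hk1, hk2⟩ := P.mem_at.1 hk
      have := hmax1 k (P.mem_at.2 ⟨hj1.trans hk1, hk2⟩)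
      linarith
    have hF1 : P.F z₁ ≤ 1 := hloss i hi
    have hF2 : P.F z₂ ≤ 1 := hloss j hj
    have hL := P.left_gap hi1 (by linarith) he1 hp hF1
    have hR := P.right_gap hj2 (by linarith) he2 hq hF2
    have hb1 := tan_bonus (b := z₁ - p) (φ := P.F p - 1) (by linarith) (by linarith) (by linarith)
    have hb2 := tan_bonus (b := q - z₂) (φ := P.F q - 1) (by linarith) (by linarith) (by linarith)
    have hcot : 0 ≤ cos (z₂ - p) / sin (z₂ - p) + cos (q - z₂) / sin (q - z₂) := by
      have h1 : 0 < sin (z₂ - p) := sin_pos_of_pos_of_lt_pi (by linarith) (by linarith)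
      have h2 : 0 < sin (q - z₂) := sin_pos_of_pos_of_lt_pi (by linarith) (by linarith)
      have h3 : 0 ≤ sin (q - p) := sin_nonneg_of_nonneg_of_le_pi (by linarith) (by linarith)
      have h4 : sin (q - p) = sin (z₂ - p) * cos (q - z₂) + cos (z₂ - p) * sin (q - z₂) := by
        rw [← sin_add]; congr 1; ring
      have : cos (z₂ - p) / sin (z₂ - p) + cos (q - z₂) / sin (q - z₂) =
          sin (q - p) / (sin (z₂ - p) * sin (q - z₂)) := by
        rw [h4]; field_simp; ring
      rw [this]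
      positivity
    have hsplit1 := P.sum_at_split hi1 hi2 (fun i => P.m i * (1 - P.F (P.z i)))
    have hcard1 := P.card_at_split hi1 hi2
    rw [P.sum_eqAt_mul z₁, he1, Finset.sum_empty, zero_add] at hsplit1
    rw [he1, Finset.card_empty, zero_add] at hcard1
    have hpos1 : 1 ≤ (P.eqAt z₁).card := by
      rw [Nat.one_le_iff_ne_zero, ← Nat.pos_iff_ne_zero, Finset.card_pos]
      exact ⟨i, P.mem_eqAt.2 rfl⟩
    rcases eq_or_lt_of_le hz12 with heq | hlt
    · -- one position
      rw [← heq] at hR hb2 he2 hcot hj2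
      rw [he2, Finset.sum_empty, add_zero] at hsplit1
      rw [he2, Finset.card_empty, add_zero] at hcard1
      rw [hsplit1, hcard1]
      have hc : (1:ℝ) ≤ ((P.eqAt z₁).card : ℝ) := by exact_mod_cast hpos1
      have h5 : 0 ≤ (1 - P.F z₁) ^ 2 *
          (cos (z₁ - p) / sin (z₁ - p) + cos (q - z₁) / sin (q - z₁)) :=
        mul_nonneg (sq_nonneg _) hcot
      nlinarith [mul_le_mul_of_nonneg_left hc hsk.le]
    · -- two positions
      have hsplit2 := P.sum_at_split hlt hj2 (fun i => P.m i * (1 - P.F (P.z i)))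
      have hcard2 := P.card_at_split hlt hj2
      rw [P.sum_eqAt_mul z₂, he2, Finset.sum_empty, add_zero] at hsplit2
      rw [he2, Finset.card_empty, add_zero] at hcard2
      have hpos2 : 1 ≤ (P.eqAt z₂).card := by
        rw [Nat.one_le_iff_ne_zero, ← Nat.pos_iff_ne_zero, Finset.card_pos]
        exact ⟨j, P.mem_eqAt.2 rfl⟩
      have hS := P.lemS (p₀ := p) (lam := sg) (tau := sg * kp) hi1 hlt (by linarith) hsk.le
        (fun b h1 h2 => tan_line h1 h2)
      rw [hsplit1, hcard1, hsplit2, hcard2]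
      have hc1 : (1:ℝ) ≤ ((P.eqAt z₁).card : ℝ) := by exact_mod_cast hpos1
      have hc2 : (1:ℝ) ≤ ((P.eqAt z₂).card : ℝ) := by exact_mod_cast hpos2
      have h5 : 0 ≤ (1 - P.F z₂) ^ 2 *
          (cos (z₂ - p) / sin (z₂ - p) + cos (q - z₂) / sin (q - z₂)) :=
        mul_nonneg (sq_nonneg _) hcot
      push_cast
      nlinarith [mul_le_mul_of_nonneg_left hc1 hsk.le, mul_le_mul_of_nonneg_left hc2 hsk.le]

end Pw

end Pool.Agent.Hex
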