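import Pool.Agent.Work.MP_3c650e_co.PwBasic

/-! Module PwLemS: the master inequality along an interval of length `< π`. -/

set_option autoImplicit false

open Real Set

namespace Pool.Agent.Hex

namespace Pw

variable {ι : Type} [Fintype ι]

/-- The atoms at the point `z`. -/
noncomputable def eqAt (P : Pw ι) (z : ℝ) : Finset ι := Finset.univ.filter (fun i => P.z i = z)

theorem mem_eqAt (P : Pw ι) {z : ℝ} {i : ι} : i ∈ P.eqAt z ↔ P.z i = z := by
  simp [eqAt]

/-- Splitting sums over the atoms of an open interval at an interior point. -/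
theorem sum_at_split (P : Pw ι) {p z q : ℝ} (h1 : p < z) (h2 : z < q) (g : ι → ℝ) :
    ∑ i ∈ P.at' p q, g i =
      ∑ i ∈ P.at' p z, g i + ∑ i ∈ P.eqAt z, g i + ∑ i ∈ P.at' z q, g i := by
  unfold at' eqAt
  rw [Finset.sum_filter, Finset.sum_filter, Finset.sum_filter, Finset.sum_filter,
    ← Finset.sum_add_distrib, ← Finset.sum_add_distrib]
  refine Finset.sum_congr rfl (fun i _ => ?_)
  rcases lt_trichotomy (P.z i) z with h | h | h
  · have h3 : P.z i < q := h.trans h2
    simp [h, h3, h.ne, h.not_gt]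
  · simp [h, h1, h2]
  · have h3 : p < P.z i := h1.trans h
    simp [h, h3, h.ne', h.not_gt]

/-- The same for cardinalities. -/
theorem card_at_split (P : Pw ι) {p z q : ℝ} (h1 : p < z) (h2 : z < q) :
    (P.at' p q).card = (P.at' p z).card + (P.eqAt z).card + (P.at' z q).card := by
  have := P.sum_at_split h1 h2 (fun _ => (1:ℝ))
  simp only [Finset.sum_const, nsmul_eq_mul, mul_one] at this
  exact_mod_cast this

theorem sum_eqAt (P : Pw ι) (z : ℝ) : ∑ i ∈ P.eqAt z, P.m i = P.R z - P.L z :=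
  (P.R_sub_L z).symm

theorem sum_eqAt_mul (P : Pw ι) (z : ℝ) :
    ∑ i ∈ P.eqAt z, P.m i * (1 - P.F (P.z i)) = (1 - P.F z) * (P.R z - P.L z) := by
  rw [← P.sum_eqAt z, Finset.mul_sum]
  refine Finset.sum_congr rfl (fun i hi => ?_)
  rw [P.mem_eqAt.1 hi]
  ring

theorem tan_half_mul_sin {b : ℝ} (h0 : 0 ≤ b) (h1 : b < π) : tan (b / 2) * sin b = 1 - cos b := by
  have hc : 0 < cos (b / 2) := cos_pos_of_mem_Ioo ⟨by linarith [pi_pos], by linarith⟩
  have hb : b = 2 * (b / 2) := by ring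
  have h2 : sin b = 2 * sin (b / 2) * cos (b / 2) := by
    conv_lhs => rw [hb]
    exact sin_two_mul _
  have h3 : cos b = 1 - 2 * sin (b / 2) ^ 2 := by
    conv_lhs => rw [hb]
    rw [cos_two_mul]
    have := sin_sq_add_cos_sq (b / 2)
    linarith
  rw [tan_eq_sin_div_cos, h2, h3]
  field_simp
  ring

/-- The base case: no atoms in the interval. -/
theorem lemS_gap (P : Pw ι) {p₀ p q lam tau : ℝ} (hp : p₀ < p) (hpq : p < q) (hq : q < p₀ + π)
    (hT : ∀ b, 0 ≤ b → b < π → lam * b - tau ≤ 2 * tan (b / 2)) (hat : P.at' p q = ∅) :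
    lam * (q - p) - tau +
        (1 - P.F q) ^ 2 * (cos (q - p₀) / sin (q - p₀)) -
        (1 - P.F p) ^ 2 * (cos (p - p₀) / sin (p - p₀)) ≤
      P.A q - P.A p + (1 - P.F p) * P.R p - (1 - P.F q) * P.L q := by
  have hb0 : 0 < q - p := by linarith
  have hbπ : q - p < π := by linarith
  have hsb : 0 < sin (q - p) := sin_pos_of_pos_of_lt_pi hb0 hbπ
  have hsx : 0 < sin (p - p₀) := sin_pos_of_pos_of_lt_pi (by linarith) (by linarith)
  have hsy : 0 < sin (q - p₀) := sin_pos_of_pos_of_lt_pi (by linarith) (by linarith)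
  have hT' := hT (q - p) hb0.le hbπ
  have hA := P.gap_A hpq.le hbπ hat
  have hR := P.gap_R hpq hat
  have hL := P.gap_L hpq hat
  have ht := tan_half_mul_sin hb0.le hbπ
  have hyx : q - p₀ = (p - p₀) + (q - p) := by ring
  have hsy' : sin (q - p₀) = sin (p - p₀) * cos (q - p) + cos (p - p₀) * sin (q - p) := by
    rw [hyx, sin_add]
  have hcy' : cos (q - p₀) = cos (p - p₀) * cos (q - p) - sin (p - p₀) * sin (q - p) := by
    rw [hyx, cos_add]
  have hb1 := sin_sq_add_cos_sq (q - p)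
  set sb := sin (q - p) with hsbdef
  set cb := cos (q - p) with hcbdef
  set sx := sin (p - p₀)
  set cx := cos (p - p₀)
  set sy := sin (q - p₀)
  set cy := cos (q - p₀)
  set T := tan ((q - p) / 2)
  set Fp := P.F p
  set Fq := P.F q
  have hR' : P.R p = (Fq - Fp * cb) / sb := by
    rw [eq_div_iff hsb.ne']; exact hR
  have hL' : P.L q = (Fq * cb - Fp) / sb := by
    rw [eq_div_iff hsb.ne']; exact hL
  have ht' : T = (1 - cb) / sb := by
    rw [eq_div_iff hsb.ne']; exact ht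
  have hcot1 : cb / sb + cx / sx = sy / (sb * sx) := by
    rw [hsy']; field_simp
  have hcot2 : cb / sb - cy / sy = sx / (sb * sy) := by
    have : cb * sy - cy * sb = sx := by
      rw [hsy', hcy']
      linear_combination sx * hb1
    field_simp
    linarith
  have key : (Fp + Fq) * T + (1 - Fp) * P.R p - (1 - Fq) * P.L q
      - ((1 - Fq) ^ 2 * (cy / sy) - (1 - Fp) ^ 2 * (cx / sx)) =
      2 * T + ((1 - Fp) * sy - (1 - Fq) * sx) ^ 2 / (sb * sx * sy) := by
    have e1 : (Fp + Fq) * T + (1 - Fp) * P.R p - (1 - Fq) * P.L q = 2 * T +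
        (((1 - Fp) ^ 2 + (1 - Fq) ^ 2) * (cb / sb) - 2 * (1 - Fp) * (1 - Fq) / sb) := by
      rw [hR', hL', ht']
      field_simp
      ring
    have e2 : ((1 - Fp) ^ 2 + (1 - Fq) ^ 2) * (cb / sb) - 2 * (1 - Fp) * (1 - Fq) / sb
        - ((1 - Fq) ^ 2 * (cy / sy) - (1 - Fp) ^ 2 * (cx / sx)) =
        (1 - Fp) ^ 2 * (cb / sb + cx / sx) + (1 - Fq) ^ 2 * (cb / sb - cy / sy)
          - 2 * (1 - Fp) * (1 - Fq) / sb := by ring
    rw [e1]
    have e3 : (1 - Fp) ^ 2 * (sy / (sb * sx)) + (1 - Fq) ^ 2 * (sx / (sb * sy))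
          - 2 * (1 - Fp) * (1 - Fq) / sb = ((1 - Fp) * sy - (1 - Fq) * sx) ^ 2 / (sb * sx * sy) := by
      field_simp
      ring
    rw [← e3, ← hcot1, ← hcot2]
    ring
  have hpos : 0 ≤ ((1 - Fp) * sy - (1 - Fq) * sx) ^ 2 / (sb * sx * sy) := by positivity
  rw [hA]
  linarith

theorem lemS (P : Pw ι) {p₀ p q lam tau : ℝ} (hp : p₀ < p) (hpq : p < q) (hq : q < p₀ + π)
    (htau : 0 ≤ tau) (hT : ∀ b, 0 ≤ b → b < π → lam * b - tau ≤ 2 * tan (b / 2)) :
    lam * (q - p) - tau * (1 + ((P.at' p q).card : ℝ)) +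
        (1 - P.F q) ^ 2 * (cos (q - p₀) / sin (q - p₀)) -
        (1 - P.F p) ^ 2 * (cos (p - p₀) / sin (p - p₀)) ≤
      P.A q - P.A p + ∑ i ∈ P.at' p q, P.m i * (1 - P.F (P.z i)) +
        (1 - P.F p) * P.R p - (1 - P.F q) * P.L q := by
  induction hn : (P.at' p q).card using Nat.strong_induction_on generalizing p q with
  | _ n ih =>
    rcases Finset.eq_empty_or_nonempty (P.at' p q) with h0 | ⟨i₀, hi₀⟩
    · have := P.lemS_gap hp hpq hq hT h0
      rw [← hn, h0]
      simp only [Finset.card_empty, Nat.cast_zero, add_zero, mul_one, Finset.sum_empty]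
      linarith
    · obtain ⟨h1, h2⟩ := P.mem_at.1 hi₀
      set z := P.z i₀ with hz
      have hcard := P.card_at_split h1 h2
      have hpos : 1 ≤ (P.eqAt z).card := by
        rw [Nat.one_le_iff_ne_zero, ← Nat.pos_iff_ne_zero, Finset.card_pos]
        exact ⟨i₀, P.mem_eqAt.2 rfl⟩
      have hsum := P.sum_at_split h1 h2 (fun i => P.m i * (1 - P.F (P.z i)))
      have IH1 := ih _ (by omega) hp h1 (h2.trans hq) rfl
      have IH2 := ih _ (by omega) (hp.trans h1) h2 hq rfl
      rw [P.sum_eqAt_mul z] at hsum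
      have hc' : ((P.at' p z).card : ℝ) + 1 + ((P.at' z q).card : ℝ) ≤ (n : ℝ) := by
        exact_mod_cast (by omega)
      rw [hsum]
      have : tau * (((P.at' p z).card : ℝ) + 1 + ((P.at' z q).card : ℝ)) ≤ tau * n :=
        mul_le_mul_of_nonneg_left hc' htau
      nlinarith

end Pw

end Pool.Agent.Hex
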