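import Pool.Agent.Work.MP_3c650e_co.PwChain

/-! Module PwZ: the inequality on the complement of a family of disjoint intervals. -/

set_option autoImplicit false

open Real Set

namespace Pool.Agent.Hex

namespace Pw

variable {ι : Type} [Fintype ι]

open Classical in
/-- Atoms of `(p, q)` outside of the open intervals of the family `𝒞`. -/
noncomputable def out (P : Pw ι) (𝒞 : Finset (ℝ × ℝ)) (p q : ℝ) : Finset ι :=
  (P.at' p q).filter (fun i => ∀ C ∈ 𝒞, ¬ (C.1 < P.z i ∧ P.z i < C.2))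

theorem mem_out (P : Pw ι) {𝒞 : Finset (ℝ × ℝ)} {p q : ℝ} {i : ι} :
    i ∈ P.out 𝒞 p q ↔ (p < P.z i ∧ P.z i < q) ∧ ∀ C ∈ 𝒞, ¬ (C.1 < P.z i ∧ P.z i < C.2) := by
  classical
  unfold out
  rw [Finset.mem_filter, P.mem_at]

theorem out_empty (P : Pw ι) (p q : ℝ) : P.out ∅ p q = P.at' p q := by
  ext i
  rw [P.mem_out, P.mem_at]
  simp

/-- no intervals -/
theorem zbase (P : Pw ι) {p q : ℝ} (hpq : p ≤ q)
    (hp : 1 ≤ P.F p) (hq : 1 ≤ P.F q)
    (hπ : ∀ u w, p ≤ u → w ≤ q → π ≤ w - u → ∃ i, u < P.z i ∧ P.z i < w ∧ 1 ≤ P.F (P.z i)) :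
    sg * (q - p) - sg * kp * (1 + ((P.at' p q).card : ℝ)) +
        min (y1 * ((P.F p - 1) + (P.F q - 1))) (sg * kp) ≤
      P.A q - P.A p + ∑ i ∈ P.at' p q, P.m i * max 0 (1 - P.F (P.z i)) := by
  have hy := y1_pos
  have hsg : 0 < sg := by linarith [sg_gt_one]
  have hkp := kp_pos
  have hsk : 0 < sg * kp := mul_pos hsg hkp
  induction hn : (P.at' p q).card using Nat.strong_induction_on generalizing p q with
  | _ n ih =>
    by_cases hex : ∃ i ∈ P.at' p q, 1 ≤ P.F (P.z i)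
    · obtain ⟨i, hi, hFi⟩ := hex
      obtain ⟨h1, h2⟩ := P.mem_at.1 hi
      set z := P.z i with hz
      have hcard := P.card_at_split h1 h2
      have hpos : 1 ≤ (P.eqAt z).card := by
        rw [Nat.one_le_iff_ne_zero, ← Nat.pos_iff_ne_zero, Finset.card_pos]
        exact ⟨i, P.mem_eqAt.2 rfl⟩
      have hsum := P.sum_at_split h1 h2 (fun i => P.m i * max 0 (1 - P.F (P.z i)))
      have hzero : ∑ i ∈ P.eqAt z, P.m i * max 0 (1 - P.F (P.z i)) = 0 := by
        apply Finset.sum_eq_zero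
        intro j hj
        rw [P.mem_eqAt.1 hj, max_eq_left (by linarith), mul_zero]
      rw [hzero, add_zero] at hsum
      have IH1 := ih _ (by omega) h1.le hp hFi
        (fun u w hu hw h => hπ u w hu (hw.trans h2.le) h) rfl
      have IH2 := ih _ (by omega) h2.le hFi hq
        (fun u w hu hw h => hπ u w (h1.le.trans hu) hw h) rfl
      have hc' : ((P.at' p z).card : ℝ) + 1 + ((P.at' z q).card : ℝ) ≤ (n : ℝ) := by
        exact_mod_cast (by omega)
      have hmul := mul_le_mul_of_nonneg_left hc' hsk.le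
      have hmin : min (y1 * ((P.F p - 1) + (P.F q - 1))) (sg * kp) ≤
          min (y1 * ((P.F p - 1) + (P.F z - 1))) (sg * kp) +
          min (y1 * ((P.F z - 1) + (P.F q - 1))) (sg * kp) := by
        have h3 := min_add_le (x := y1 * ((P.F p - 1) + (P.F z - 1)))
          (y := y1 * ((P.F z - 1) + (P.F q - 1))) (K := sg * kp)
          (mul_nonneg hy.le (by linarith)) (mul_nonneg hy.le (by linarith)) hsk.le
        refine le_trans (min_le_min_right _ ?_) h3
        nlinarith [mul_nonneg hy.le (by linarith : 0 ≤ P.F z - 1)]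
      rw [hsum]
      nlinarith
    · push Not at hex
      have hlen : q - p < π := by
        by_contra hcon
        push Not at hcon
        obtain ⟨i, hi1, hi2, hi3⟩ := hπ p q le_rfl le_rfl hcon
        have := hex i (P.mem_at.2 ⟨hi1, hi2⟩)
        linarith
      have hch := P.chain hpq hlen hp hq (fun i hi => (hex i hi).le)
      rw [← hn]
      have hs : ∑ i ∈ P.at' p q, P.m i * max 0 (1 - P.F (P.z i)) =
          ∑ i ∈ P.at' p q, P.m i * (1 - P.F (P.z i)) := by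
        refine Finset.sum_congr rfl (fun i hi => ?_)
        rw [max_eq_right (by linarith [hex i hi])]
      rw [hs]
      exact hch

theorem zlem (P : Pw ι) (hm : ∀ i, 0 ≤ P.m i) (𝒞 : Finset (ℝ × ℝ)) {p q : ℝ} (hpq : p ≤ q)
    (hp : 1 ≤ P.F p) (hq : 1 ≤ P.F q)
    (hC : ∀ C ∈ 𝒞, p ≤ C.1 ∧ C.1 < C.2 ∧ C.2 ≤ q ∧ 1 ≤ P.F C.1 ∧ 1 ≤ P.F C.2)
    (hd : ∀ C ∈ 𝒞, ∀ C' ∈ 𝒞, C ≠ C' → C.2 ≤ C'.1 ∨ C'.2 ≤ C.1)
    (hπ : ∀ u w, p ≤ u → w ≤ q → π ≤ w - u → ∃ i, u < P.z i ∧ P.z i < w ∧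
      (1 ≤ P.F (P.z i) ∨ ∃ C ∈ 𝒞, C.1 < P.z i ∧ P.z i < C.2)) :
    sg * (q - p - ∑ C ∈ 𝒞, (C.2 - C.1)) - sg * kp * (1 + (𝒞.card : ℝ) + ((P.out 𝒞 p q).card : ℝ)) +
        min (y1 * ((P.F p - 1) + (P.F q - 1) + ∑ C ∈ 𝒞, ((P.F C.1 - 1) + (P.F C.2 - 1))))
          (sg * kp) ≤
      P.A q - P.A p - ∑ C ∈ 𝒞, (P.A C.2 - P.A C.1) +
        ∑ i ∈ P.out 𝒞 p q, P.m i * max 0 (1 - P.F (P.z i)) := by
  classical
  have hy := y1_pos
  have hsg : 0 < sg := by linarith [sg_gt_one]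
  have hkp := kp_pos
  have hsk : 0 < sg * kp := mul_pos hsg hkp
  induction hn : 𝒞.card using Nat.strong_induction_on generalizing p q 𝒞 with
  | _ n ih =>
    rcases Finset.eq_empty_or_nonempty 𝒞 with h0 | ⟨C, hCm⟩
    · subst h0
      rw [P.out_empty]
      have := P.zbase hpq hp hq (fun u w hu hw h => by
        obtain ⟨i, h1, h2, h3⟩ := hπ u w hu hw h
        refine ⟨i, h1, h2, ?_⟩
        rcases h3 with h3 | ⟨C, hC, _⟩
        · exact h3
        · simp at hC)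
      simp only [Finset.sum_empty, Finset.card_empty] at hn ⊢
      rw [← hn]
      simpa using this
    · obtain ⟨c1, c2, c3, c4, c5⟩ := hC C hCm
      set 𝒞₁ := (𝒞.erase C).filter (fun D => D.2 ≤ C.1) with h𝒞1
      set 𝒞₂ := (𝒞.erase C).filter (fun D => ¬ D.2 ≤ C.1) with h𝒞2
      have m1 : ∀ D ∈ 𝒞₁, D ∈ 𝒞 ∧ D.2 ≤ C.1 := by
        intro D hD
        rw [h𝒞1, Finset.mem_filter, Finset.mem_erase] at hD
        exact ⟨hD.1.2, hD.2⟩
      have m2 : ∀ D ∈ 𝒞₂, D ∈ 𝒞 ∧ C.2 ≤ D.1 := by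
        intro D hD
        rw [h𝒞2, Finset.mem_filter, Finset.mem_erase] at hD
        refine ⟨hD.1.2, ?_⟩
        rcases hd D hD.1.2 C hCm hD.1.1 with h | h
        · exact absurd h hD.2
        · exact h
      have mem𝒞 : ∀ D ∈ 𝒞, D = C ∨ D ∈ 𝒞₁ ∨ D ∈ 𝒞₂ := by
        intro D hD
        by_cases h : D = C
        · exact Or.inl h
        · right
          by_cases h2 : D.2 ≤ C.1
          · left; rw [h𝒞1, Finset.mem_filter, Finset.mem_erase]; exact ⟨⟨h, hD⟩, h2⟩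
          · right; rw [h𝒞2, Finset.mem_filter, Finset.mem_erase]; exact ⟨⟨h, hD⟩, h2⟩
      have hsum : ∀ g : ℝ × ℝ → ℝ, ∑ D ∈ 𝒞, g D = g C + ∑ D ∈ 𝒞₁, g D + ∑ D ∈ 𝒞₂, g D := by
        intro g
        rw [← Finset.add_sum_erase 𝒞 g hCm, add_assoc]
        congr 1
        rw [h𝒞1, h𝒞2]
        exact (Finset.sum_filter_add_sum_filter_not (𝒞.erase C) (fun D => D.2 ≤ C.1) g).symm
      have hcard : 𝒞.card = 1 + 𝒞₁.card + 𝒞₂.card := by
        have := hsum (fun _ => 1)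
        simp only [Finset.sum_const, nsmul_eq_mul, mul_one] at this
        exact_mod_cast this
      have IH1 := ih 𝒞₁.card (by omega) 𝒞₁ c1 hp c4
        (fun D hD => by
          obtain ⟨d1, d2, d3, d4, d5⟩ := hC D (m1 D hD).1
          exact ⟨d1, d2, (m1 D hD).2, d4, d5⟩)
        (fun D hD D' hD' h => hd D (m1 D hD).1 D' (m1 D' hD').1 h)
        (fun u w hu hw h => by
          obtain ⟨i, h1, h2, h3⟩ := hπ u w hu (hw.trans (c2.le.trans c3)) h
          refine ⟨i, h1, h2, ?_⟩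
          rcases h3 with h3 | ⟨D, hD, hD1, hD2⟩
          · exact Or.inl h3
          · right
            refine ⟨D, ?_, hD1, hD2⟩
            rcases mem𝒞 D hD with h4 | h4 | h4
            · rw [h4] at hD1; linarith
            · exact h4
            · have := (m2 D h4).2; linarith) rfl
      have IH2 := ih 𝒞₂.card (by omega) 𝒞₂ c3 c5 hq
        (fun D hD => by
          obtain ⟨d1, d2, d3, d4, d5⟩ := hC D (m2 D hD).1
          exact ⟨(m2 D hD).2, d2, d3, d4, d5⟩)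
        (fun D hD D' hD' h => hd D (m2 D hD).1 D' (m2 D' hD').1 h)
        (fun u w hu hw h => by
          obtain ⟨i, h1, h2, h3⟩ := hπ u w (c1.trans (c2.le.trans hu)) hw h
          refine ⟨i, h1, h2, ?_⟩
          rcases h3 with h3 | ⟨D, hD, hD1, hD2⟩
          · exact Or.inl h3
          · right
            refine ⟨D, ?_, hD1, hD2⟩
            rcases mem𝒞 D hD with h4 | h4 | h4
            · rw [h4] at hD2; linarith
            · have := (m1 D h4).2; linarith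
            · exact h4) rfl
      have hsub1 : P.out 𝒞₁ p C.1 ⊆ P.out 𝒞 p q := by
        intro i hi
        obtain ⟨⟨h1, h2⟩, h3⟩ := P.mem_out.1 hi
        refine P.mem_out.2 ⟨⟨h1, by linarith⟩, fun D hD hD' => ?_⟩
        rcases mem𝒞 D hD with h4 | h4 | h4
        · rw [h4] at hD'; linarith [hD'.1]
        · exact h3 D h4 hD'
        · have := (m2 D h4).2; linarith [hD'.1]
      have hsub2 : P.out 𝒞₂ C.2 q ⊆ P.out 𝒞 p q := by
        intro i hi
        obtain ⟨⟨h1, h2⟩, h3⟩ := P.mem_out.1 hi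
        refine P.mem_out.2 ⟨⟨by linarith, h2⟩, fun D hD hD' => ?_⟩
        rcases mem𝒞 D hD with h4 | h4 | h4
        · rw [h4] at hD'; linarith [hD'.2]
        · have := (m1 D h4).2; linarith [hD'.2]
        · exact h3 D h4 hD'
      have hdisj : Disjoint (P.out 𝒞₁ p C.1) (P.out 𝒞₂ C.2 q) := by
        rw [Finset.disjoint_left]
        intro i hi hi'
        have h1 := (P.mem_out.1 hi).1.2
        have h2 := (P.mem_out.1 hi').1.1
        linarith
      have hunion : P.out 𝒞₁ p C.1 ∪ P.out 𝒞₂ C.2 q ⊆ P.out 𝒞 p q :=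
        Finset.union_subset hsub1 hsub2
      have hcardo : ((P.out 𝒞₁ p C.1).card : ℝ) + ((P.out 𝒞₂ C.2 q).card : ℝ) ≤
          ((P.out 𝒞 p q).card : ℝ) := by
        have := Finset.card_le_card hunion
        rw [Finset.card_union_of_disjoint hdisj] at this
        exact_mod_cast this
      have hsumo : ∑ i ∈ P.out 𝒞₁ p C.1, P.m i * max 0 (1 - P.F (P.z i)) +
          ∑ i ∈ P.out 𝒞₂ C.2 q, P.m i * max 0 (1 - P.F (P.z i)) ≤
          ∑ i ∈ P.out 𝒞 p q, P.m i * max 0 (1 - P.F (P.z i)) := by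
        rw [← Finset.sum_union hdisj]
        exact Finset.sum_le_sum_of_subset_of_nonneg hunion
          (fun i _ _ => mul_nonneg (hm i) (le_max_left _ _))
      have hB1 : 0 ≤ ∑ D ∈ 𝒞₁, ((P.F D.1 - 1) + (P.F D.2 - 1)) := by
        apply Finset.sum_nonneg
        intro D hD
        obtain ⟨_, _, _, d4, d5⟩ := hC D (m1 D hD).1
        linarith
      have hB2 : 0 ≤ ∑ D ∈ 𝒞₂, ((P.F D.1 - 1) + (P.F D.2 - 1)) := by
        apply Finset.sum_nonneg
        intro D hD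
        obtain ⟨_, _, _, d4, d5⟩ := hC D (m2 D hD).1
        linarith
      have hmin := min_add_le
        (x := y1 * ((P.F p - 1) + (P.F C.1 - 1) + ∑ D ∈ 𝒞₁, ((P.F D.1 - 1) + (P.F D.2 - 1))))
        (y := y1 * ((P.F C.2 - 1) + (P.F q - 1) + ∑ D ∈ 𝒞₂, ((P.F D.1 - 1) + (P.F D.2 - 1))))
        (K := sg * kp) (mul_nonneg hy.le (by linarith)) (mul_nonneg hy.le (by linarith)) hsk.le
      have hBeq : y1 * ((P.F p - 1) + (P.F q - 1) + ∑ C ∈ 𝒞, ((P.F C.1 - 1) + (P.F C.2 - 1))) =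
          y1 * ((P.F p - 1) + (P.F C.1 - 1) + ∑ D ∈ 𝒞₁, ((P.F D.1 - 1) + (P.F D.2 - 1))) +
          y1 * ((P.F C.2 - 1) + (P.F q - 1) + ∑ D ∈ 𝒞₂, ((P.F D.1 - 1) + (P.F D.2 - 1))) := by
        rw [hsum (fun C => ((P.F C.1 - 1) + (P.F C.2 - 1)))]
        ring
      have hn' : (n : ℝ) = 1 + (𝒞₁.card : ℝ) + (𝒞₂.card : ℝ) := by
        rw [← hn, hcard]; push_cast; ring
      rw [hBeq, hn', hsum (fun C => C.2 - C.1), hsum (fun C => P.A C.2 - P.A C.1)]
      have hmul := mul_le_mul_of_nonneg_left hcardo hsk.le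
      nlinarith

end Pw

end Pool.Agent.Hex
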