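import Pool.Agent.Work.MP_3c650e_co.Defs

/-! Module SuppA: closing condition, arcs, representation of the support function (base window). -/

set_option autoImplicit false

open Real Set

namespace Pool.Agent.Hex

private theorem edge_zero {v : Fin 6 → E} {μ s : Fin 6 → ℝ} (h : Normals v μ s) (i : Fin 6) :
    v (i + 1) 0 - v i 0 = s i * (-sin (μ i)) := by
  have := congrArg (fun w : E => w 0) (h.edge i)
  simpa [e'] using this

private theorem edge_one {v : Fin 6 → E} {μ s : Fin 6 → ℝ} (h : Normals v μ s) (i : Fin 6) :
    v (i + 1) 1 - v i 1 = s i * cos (μ i) := by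
  have := congrArg (fun w : E => w 1) (h.edge i)
  simpa [e'] using this

theorem Normals.closing_cos {v : Fin 6 → E} {μ s : Fin 6 → ℝ} (h : Normals v μ s) :
    ∑ i, s i * cos (μ i) = 0 := by
  have : ∑ i, s i * cos (μ i) = ∑ i : Fin 6, (v (i + 1) 1 - v i 1) :=
    Finset.sum_congr rfl fun i _ => (edge_one h i).symm
  rw [this, Finset.sum_sub_distrib, sub_eq_zero]
  exact (Equiv.sum_comp (Equiv.addRight (1 : Fin 6)) (fun i => v i 1))

theorem Normals.closing_sin {v : Fin 6 → E} {μ s : Fin 6 → ℝ} (h : Normals v μ s) :
    ∑ i, s i * sin (μ i) = 0 := by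
  have : ∑ i, s i * sin (μ i) = -∑ i : Fin 6, (v (i + 1) 0 - v i 0) := by
    rw [← Finset.sum_neg_distrib]
    exact Finset.sum_congr rfl fun i _ => by rw [edge_zero h i]; ring
  rw [this, Finset.sum_sub_distrib, neg_eq_zero, sub_eq_zero]
  exact (Equiv.sum_comp (Equiv.addRight (1 : Fin 6)) (fun i => v i 0))

private theorem closing_sub {v : Fin 6 → E} {μ s : Fin 6 → ℝ} (h : Normals v μ s) (u : ℝ) :
    ∑ i, s i * sin (u - μ i) = 0 := by
  have h1 : ∑ i, s i * sin (u - μ i) =
      sin u * ∑ i, s i * cos (μ i) - cos u * ∑ i, s i * sin (μ i) := by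
    rw [Finset.mul_sum, Finset.mul_sum, ← Finset.sum_sub_distrib]
    exact Finset.sum_congr rfl fun i _ => by rw [sin_sub]; ring
  rw [h1, h.closing_cos, h.closing_sin]; ring

/-- Every open arc of length `≥ π` contains a normal. -/
theorem Normals.arc {v : Fin 6 → E} {μ s : Fin 6 → ℝ} (h : Normals v μ s) {u w : ℝ}
    (huw : π ≤ w - u) : ∃ (i : Fin 6) (k : ℤ), u < μ i + k * (2 * π) ∧ μ i + k * (2 * π) < w := by
  by_contra hcon
  push Not at hcon
  have h2π : (0 : ℝ) < 2 * π := by positivity
  -- all sines nonpositive
  have key : ∀ i, sin (μ i - u) ≤ 0 := by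
    intro i
    obtain ⟨k, hk1, hk2⟩ : ∃ k : ℤ, u < μ i + k * (2 * π) ∧ μ i + k * (2 * π) ≤ u + 2 * π := by
      have hm := toIocMod_mem_Ioc h2π u (μ i)
      refine ⟨-toIocDiv h2π u (μ i), ?_, ?_⟩
      · have := hm.1
        rw [toIocMod] at this
        simp only [zsmul_eq_mul] at this
        push_cast
        linarith
      · have := hm.2
        rw [toIocMod] at this
        simp only [zsmul_eq_mul] at this
        push_cast
        linarith
    have h3 := hcon i k hk1
    have h4 : sin (μ i - u) = sin (μ i + k * (2 * π) - u) := by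
      rw [show μ i + k * (2 * π) - u = μ i - u + k * (2 * π) by ring, sin_add_int_mul_two_pi]
    rw [h4]
    have h5 : sin (μ i + k * (2 * π) - u) = -sin (μ i + k * (2 * π) - u - π) := by
      rw [sin_sub_pi]; ring
    rw [h5]
    have : 0 ≤ sin (μ i + k * (2 * π) - u - π) := sin_nonneg_of_nonneg_of_le_pi (by linarith) (by linarith)
    linarith
  have hzero : ∀ i, sin (μ i - u) = 0 := by
    have hs : ∑ i, s i * (-sin (μ i - u)) = 0 := by
      rw [← closing_sub h u]
      exact Finset.sum_congr rfl fun i _ => by rw [← sin_neg]; congr 2; ring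
    have := (Finset.sum_eq_zero_iff_of_nonneg (fun i _ =>
      mul_nonneg (h.pos i).le (neg_nonneg.2 (key i)))).1 hs
    intro i
    have h6 := this i (Finset.mem_univ i)
    rcases mul_eq_zero.1 h6 with h7 | h7
    · exact absurd h7 (h.pos i).ne'
    · linarith
  have hstep : ∀ i j : Fin 6, i < j → μ i + π ≤ μ j := by
    intro i j hij
    obtain ⟨n, hn⟩ := sin_eq_zero_iff.1 (hzero i)
    obtain ⟨m, hm⟩ := sin_eq_zero_iff.1 (hzero j)
    have hlt := h.mono hij
    have h8 : ((m - n : ℤ) : ℝ) * π = μ j - μ i := by push_cast; linarith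
    have h9 : (0 : ℤ) < m - n := by
      by_contra hc
      push Not at hc
      have : ((m - n : ℤ) : ℝ) ≤ 0 := by exact_mod_cast hc
      nlinarith [pi_pos]
    have h10 : (1 : ℝ) ≤ ((m - n : ℤ) : ℝ) := by exact_mod_cast h9
    nlinarith [pi_pos]
  have a1 := hstep 0 1 (by decide)
  have a2 := hstep 1 5 (by decide)
  have := h.last
  linarith

/-- Representation on the window `[μ 5 - 2π, μ 5]`. -/
theorem Normals.rep_base {v : Fin 6 → E} {μ s : Fin 6 → ℝ} (h : Normals v μ s) {u : ℝ}
    (hu : u ∈ Icc (μ 5 - 2 * π) (μ 5)) :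
    hs v u = dt (v 0) u + ∑ i, s i * (if μ i ≤ u then sin (u - μ i) else 0) := by
  obtain ⟨hu1, hu2⟩ := hu
  -- step relation
  have hstep : ∀ i : Fin 6, dt (v (i + 1)) u = dt (v i) u + s i * sin (u - μ i) := by
    intro i
    have e0 := edge_zero h i
    have e1 := edge_one h i
    have e0' : v (i + 1) 0 = v i 0 + s i * (-sin (μ i)) := by linarith
    have e1' : v (i + 1) 1 = v i 1 + s i * cos (μ i) := by linarith
    unfold dt
    rw [e0', e1', sin_sub]; ring
  set a : Fin 6 → ℝ := fun i => s i * sin (u - μ i) with ha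
  have hclose : ∑ i, a i = 0 := closing_sub h u
  have hval : ∀ j : Fin 6, dt (v j) u = dt (v 0) u + ∑ i : Fin 6, (if i.val < j.val then a i else 0) := by
    have s0 : dt (v 1) u = dt (v 0) u + a 0 := hstep 0
    have s1 : dt (v 2) u = dt (v 1) u + a 1 := hstep 1
    have s2 : dt (v 3) u = dt (v 2) u + a 2 := hstep 2
    have s3 : dt (v 4) u = dt (v 3) u + a 3 := hstep 3
    have s4 : dt (v 5) u = dt (v 4) u + a 4 := hstep 4
    intro j
    fin_cases j <;> simp [Fin.sum_univ_six] <;> linarith
  -- threshold
  obtain ⟨J, hJ6, hJ⟩ : ∃ J : ℕ, J ≤ 6 ∧ ∀ i : Fin 6, μ i ≤ u ↔ i.val < J := by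
    classical
    have hex : ∃ n : ℕ, ∀ i : Fin 6, n ≤ i.val → u < μ i := ⟨6, fun i hi => by omega⟩
    refine ⟨Nat.find hex, Nat.find_min' hex (fun i hi => by omega), fun i => ⟨fun hi => ?_, fun hi => ?_⟩⟩
    · by_contra hc
      push Not at hc
      exact absurd (Nat.find_spec hex i hc) (not_lt.2 hi)
    · have hm := Nat.find_min hex (m := Nat.find hex - 1) (by omega)
      push Not at hm
      obtain ⟨i', hi', hle⟩ := hm
      have : i ≤ i' := by
        rw [Fin.le_def]; omega
      exact (h.mono.monotone this).trans hle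
  have hR : ∑ i, s i * (if μ i ≤ u then sin (u - μ i) else 0) =
      ∑ i : Fin 6, (if i.val < J then a i else 0) := by
    refine Finset.sum_congr rfl fun i _ => ?_
    by_cases hi : μ i ≤ u
    · rw [if_pos hi, if_pos ((hJ i).1 hi)]
    · rw [if_neg hi, if_neg (fun hc => hi ((hJ i).2 hc)), mul_zero]
  rw [hR]
  have hspread : ∀ i j : Fin 6, μ i - μ j < 2 * π := by
    intro i j
    have h1 : μ i ≤ μ 5 := h.mono.monotone (by omega)
    have h2 : μ 0 ≤ μ j := h.mono.monotone (by omega)
    have := h.last
    linarith
  have hle5 : ∀ i : Fin 6, μ i ≤ μ 5 := fun i => h.mono.monotone (by omega)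
  have h0le : ∀ i : Fin 6, μ 0 ≤ μ i := fun i => h.mono.monotone (by omega)
  have hsin_nonneg : ∀ i, 0 ≤ u - μ i → u - μ i ≤ π → 0 ≤ a i := fun i h1 h2 =>
    mul_nonneg (h.pos i).le (sin_nonneg_of_nonneg_of_le_pi h1 h2)
  have hsin_nonpos : ∀ i, 0 ≤ μ i - u → μ i - u ≤ π → a i ≤ 0 := fun i h1 h2 => by
    have : 0 ≤ sin (μ i - u) := sin_nonneg_of_nonneg_of_le_pi h1 h2
    have h3 : sin (u - μ i) = -sin (μ i - u) := by rw [← sin_neg]; congr 1; ring
    simp only [ha, h3]
    nlinarith [h.pos i]
  have hsin_nonpos' : ∀ i, π ≤ u - μ i → u - μ i ≤ 2 * π → a i ≤ 0 := fun i h1 h2 => by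
    have : 0 ≤ sin (u - μ i - π) := sin_nonneg_of_nonneg_of_le_pi (by linarith) (by linarith)
    rw [sin_sub_pi] at this
    simp only [ha]
    nlinarith [h.pos i]
  have hsin_nonneg' : ∀ i, π ≤ μ i - u → μ i - u ≤ 2 * π → 0 ≤ a i := fun i h1 h2 => by
    have : 0 ≤ sin (μ i - u - π) := sin_nonneg_of_nonneg_of_le_pi (by linarith) (by linarith)
    rw [sin_sub_pi] at this
    have h3 : sin (u - μ i) = -sin (μ i - u) := by rw [← sin_neg]; congr 1; ring
    simp only [ha, h3]
    nlinarith [h.pos i]
  have hmax : ∀ j : Fin 6, ∑ i : Fin 6, (if i.val < j.val then a i else 0) ≤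
      ∑ i : Fin 6, (if i.val < J then a i else 0) := by
    intro j
    rcases Nat.lt_or_ge j.val J with hjJ | hjJ
    · have hju : μ j ≤ u := (hJ j).2 hjJ
      rcases le_or_gt (u - μ j) π with hc | hc
      · refine Finset.sum_le_sum fun i _ => ?_
        by_cases h1 : i.val < j.val
        · rw [if_pos h1, if_pos (h1.trans hjJ)]
        · rw [if_neg h1]
          split_ifs with h2
          · have h3 : μ j ≤ μ i := h.mono.monotone (by rw [Fin.le_def]; omega)
            exact hsin_nonneg i (by linarith [(hJ i).2 h2]) (by linarith)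
          · exact le_rfl
      · have : ∑ i : Fin 6, (if i.val < j.val then a i else 0) ≤
            ∑ i : Fin 6, ((if i.val < J then a i else 0) - a i) := by
          refine Finset.sum_le_sum fun i _ => ?_
          by_cases h1 : i.val < j.val
          · rw [if_pos h1, if_pos (h1.trans hjJ)]
            have h3 : μ i ≤ μ j := h.mono.monotone (by rw [Fin.le_def]; omega)
            have := hsin_nonpos' i (by linarith) (by linarith [h0le i, h.last])
            linarith
          · rw [if_neg h1]
            split_ifs with h2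
            · simp
            · have h3 : u < μ i := not_le.1 (fun hh => h2 ((hJ i).1 hh))
              have := hsin_nonpos i (by linarith) (by linarith [hspread i j])
              linarith
        rw [Finset.sum_sub_distrib, hclose, sub_zero] at this
        exact this
    · rcases Nat.eq_zero_or_pos j.val with hj0 | hj0
      · have hJ0 : J = 0 := by omega
        rw [hj0, hJ0]
      · -- the index j-1
        set j' : Fin 6 := ⟨j.val - 1, by omega⟩ with hj'
        rcases Nat.eq_or_lt_of_le hjJ with heq | hlt
        · rw [heq]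
        · have hj'u : u < μ j' := not_le.1 (fun hh => by
            have := (hJ j').1 hh
            simp only [hj'] at this
            omega)
          rcases le_or_gt (μ j' - u) π with hc | hc
          · refine Finset.sum_le_sum fun i _ => ?_
            by_cases h1 : i.val < J
            · rw [if_pos h1, if_pos (h1.trans hlt)]
            · rw [if_neg h1]
              split_ifs with h2
              · have h3 : μ i ≤ μ j' := h.mono.monotone (by rw [Fin.le_def]; simp only [hj']; omega)
                have h4 : u < μ i := not_le.1 (fun hh => h1 ((hJ i).1 hh))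
                exact hsin_nonpos i (by linarith) (by linarith)
              · exact le_rfl
          · have : ∑ i : Fin 6, ((if i.val < j.val then a i else 0) - a i) ≤
                ∑ i : Fin 6, (if i.val < J then a i else 0) := by
              refine Finset.sum_le_sum fun i _ => ?_
              by_cases h1 : i.val < J
              · rw [if_pos h1, if_pos (h1.trans hlt)]
                have := hsin_nonneg i (by linarith [(hJ i).2 h1]) (by linarith [hspread j' i])
                linarith
              · rw [if_neg h1]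
                split_ifs with h2
                · simp
                · have h3 : μ j' ≤ μ i := h.mono.monotone (by rw [Fin.le_def]; simp only [hj']; omega)
                  have := hsin_nonneg' i (by linarith) (by linarith [hle5 i])
                  linarith
            rw [Finset.sum_sub_distrib, hclose, sub_zero] at this
            exact this
  -- conclude
  unfold hs
  apply le_antisymm
  · refine Finset.sup'_le _ _ fun j _ => ?_
    rw [hval j]
    linarith [hmax j]
  · rcases Nat.lt_or_ge J 6 with hlt | hge
    · have := hval ⟨J, hlt⟩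
      rw [← this]
      exact Finset.le_sup' (fun j => dt (v j) u) (Finset.mem_univ _)
    · have h6 : J = 6 := by omega
      have : ∑ i : Fin 6, (if i.val < J then a i else 0) = 0 := by
        rw [← hclose]
        refine Finset.sum_congr rfl fun i _ => ?_
        rw [if_pos (by omega)]
      rw [this, add_zero]
      exact Finset.le_sup' (fun j => dt (v j) u) (Finset.mem_univ 0)

end Pool.Agent.Hex
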